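import Pool.Agent.Lib_MP_752436_ch.Vanish

/-!
Piece D4: the space of cycles and the chambers.
-/

open MeasureTheory Metric Set Filter
open scoped ContDiff Topology

namespace Pool.Agent.Lib_MP_752436_ch

open Pool.Agent.Lib_MP_752436_gt Pool.Agent.Lib_MP_752436_tp Pool.Agent.Lib_MP_752436_rb

/-- A subspace of dimension at most `m` of a space of functions is determined by at most `m`
values. -/
theorem exists_hitting {κ : Type} [Fintype κ] (W : Submodule ℝ (κ → ℝ)) {m : ℕ}
    (hW : Module.finrank ℝ W ≤ m) :
    ∃ S : Finset κ, S.card ≤ m ∧ ∀ n ∈ W, (∀ e ∈ S, n e = 0) → n = 0 := by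
  classical
  induction m generalizing W with
  | zero =>
    refine ⟨∅, by simp, ?_⟩
    intro n hn _
    have h0 : W = ⊥ := Submodule.finrank_eq_zero.1 (Nat.le_zero.1 hW)
    rw [h0] at hn
    exact (Submodule.mem_bot ℝ).1 hn
  | succ m ih =>
    by_cases h : ∀ n ∈ W, n = 0
    · exact ⟨∅, by simp, fun n hn _ => h n hn⟩
    · push Not at h
      obtain ⟨n0, hn0, hne⟩ := h
      obtain ⟨e, he⟩ : ∃ e, n0 e ≠ 0 := by
        by_contra hcon
        push Not at hcon
        exact hne (funext hcon)
      have hlt : W ⊓ LinearMap.ker (LinearMap.proj e : (κ → ℝ) →ₗ[ℝ] ℝ) < W := by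
        refine lt_of_le_of_ne inf_le_left ?_
        intro heq
        have h1 : n0 ∈ W ⊓ LinearMap.ker (LinearMap.proj e : (κ → ℝ) →ₗ[ℝ] ℝ) := by
          rw [heq]
          exact hn0
        exact he (LinearMap.mem_ker.1 h1.2)
      have hfin := Submodule.finrank_lt_finrank_of_lt hlt
      obtain ⟨S, hS, hS2⟩ := ih
        (W ⊓ LinearMap.ker (LinearMap.proj e : (κ → ℝ) →ₗ[ℝ] ℝ)) (by omega)
      refine ⟨insert e S, (Finset.card_insert_le e S).trans (by omega), ?_⟩
      intro n hn hz
      refine hS2 n ⟨hn, ?_⟩ fun e' he' => hz e' (Finset.mem_insert_of_mem he')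
      exact LinearMap.mem_ker.2 (hz e (Finset.mem_insert_self e S))

/-- The space of cycles. -/
def cycles {κ : Type} [Fintype κ] (c : κ → ℝ → Plane × Plane) (a b : κ → ℝ) :
    Submodule ℝ (κ → ℝ) where
  carrier := {n | IsCyc c a b n}
  add_mem' := by
    intro n n' hn hn' ψ
    have h1 := hn ψ
    have h2 := hn' ψ
    simp only [Pi.add_apply, add_mul, Finset.sum_add_distrib]
    rw [h1, h2, add_zero]
  zero_mem' := by
    intro ψ
    simp
  smul_mem' := by
    intro r n hn ψ
    have h1 := hn ψ
    simp only [Pi.smul_apply, smul_eq_mul, mul_assoc, ← Finset.mul_sum]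
    rw [h1, mul_zero]

variable {F : Plane → EuclideanSpace ℝ (Fin 4)} {κ : Type} [Fintype κ]
  {c : κ → ℝ → Plane × Plane} {a b : κ → ℝ}

private theorem linear_continuousAt_newt {p r : Space} (h : r ≠ p) :
    ContinuousAt (newt p) r := by
  have h1 : ‖r - p‖ ^ 3 ≠ 0 := pow_ne_zero _ (norm_ne_zero_iff.2 (sub_ne_zero.2 h))
  have h2 : ContinuousAt (fun r : Space => r - p) r := continuousAt_id.sub continuousAt_const
  exact ((h2.norm.pow 3).inv₀ h1).smul h2

private theorem linear_chamber_point (C : chambers F) :
    ∃ p, p ∉ shadow F '' closedBall (0 : Plane) 1 ∧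
      (C : Set Space) = connectedComponentIn (shadow F '' closedBall (0 : Plane) 1)ᶜ p := by
  obtain ⟨_, p, hp, hC⟩ := C.2
  exact ⟨p, hp, hC⟩

/-- A point of the chamber `C`. -/
private noncomputable def linearPt (C : chambers F) : Space := (linear_chamber_point C).choose

private theorem linearPt_notMem (C : chambers F) :
    linearPt C ∉ shadow F '' closedBall (0 : Plane) 1 := (linear_chamber_point C).choose_spec.1

private theorem linearPt_eq (C : chambers F) :
    (C : Set Space) = connectedComponentIn (shadow F '' closedBall (0 : Plane) 1)ᶜ (linearPt C) :=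
  (linear_chamber_point C).choose_spec.2

private theorem linear_cont {p : Space} (hp : p ∉ shadow F '' closedBall (0 : Plane) 1) :
    ∀ y ∈ closedBall (0 : Plane) 1, ContinuousAt (newt p) (shadow F y) := by
  intro y hy
  apply linear_continuousAt_newt
  intro heq
  exact hp ⟨y, hy, heq⟩

/-- The potentials at the points of the chambers. -/
private noncomputable def linearMapPot (hF : IsSliceDisc F) (hE : Edges c a b (DoubleSet F)) :
    cycles c a b →ₗ[ℝ] (chambers F → ℝ) where
  toFun n C := (chain c a b n.1).flux (shadow F) (newt (linearPt C))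
  map_add' := by
    intro n n'
    funext C
    exact flux_chain_add hF hE n.2 n'.2 (linear_cont (linearPt_notMem C))
  map_smul' := by
    intro r n
    funext C
    exact flux_chain_smul n.1 r _

theorem finrank_cycles_le (hF : IsSliceDisc F) (h : Tame F) (hE : Edges c a b (DoubleSet F))
    {m : ℕ} (hm : (chambers F).encard ≤ m) : Module.finrank ℝ (cycles c a b) ≤ m := by
  classical
  have hfin : (chambers F).Finite := Set.finite_of_encard_le_coe hm
  have : Fintype (chambers F) := hfin.fintype
  have hinj : Function.Injective (linearMapPot hF hE) := by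
    rw [injective_iff_map_eq_zero]
    intro n hn
    apply Subtype.ext
    apply eq_zero_of_newt hF h hE n.2
    intro p hp
    have hmem : p ∈ connectedComponentIn (shadow F '' closedBall (0 : Plane) 1)ᶜ p :=
      mem_connectedComponentIn hp
    have hsub := connectedComponentIn_subset (shadow F '' closedBall (0 : Plane) 1)ᶜ p
    have hdis : Disjoint (connectedComponentIn (shadow F '' closedBall (0 : Plane) 1)ᶜ p)
        (shadow F '' closedBall (0 : Plane) 1) :=
      Set.disjoint_left.2 fun x hx hx' => hsub hx hx'
    have hpre : IsPreconnected (connectedComponentIn (shadow F '' closedBall (0 : Plane) 1)ᶜ p) :=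
      isPreconnected_connectedComponentIn
    have hset := setting_chain hF hE n.2
    by_cases hb : Bornology.IsBounded
        (connectedComponentIn (shadow F '' closedBall (0 : Plane) 1)ᶜ p)
    · have hC : connectedComponentIn (shadow F '' closedBall (0 : Plane) 1)ᶜ p ∈ chambers F :=
        ⟨hb, p, hp, rfl⟩
      have hq : linearPt ⟨_, hC⟩ ∈
          connectedComponentIn (shadow F '' closedBall (0 : Plane) 1)ᶜ p := by
        have h1 := linearPt_eq (⟨_, hC⟩ : chambers F)
        have h2 : linearPt ⟨_, hC⟩ ∈ connectedComponentIn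
            (shadow F '' closedBall (0 : Plane) 1)ᶜ (linearPt (⟨_, hC⟩ : chambers F)) :=
          mem_connectedComponentIn (linearPt_notMem _)
        rw [← h1] at h2
        exact h2
      rw [hset.flux_newt_const hpre hdis hmem hq]
      exact congrFun hn ⟨_, hC⟩
    · exact hset.flux_newt_unbounded hpre hdis hb hmem
  have h1 := LinearMap.finrank_le_finrank_of_injective hinj
  rw [Module.finrank_fintype_fun_eq_card] at h1
  refine h1.trans ?_
  have h2 : (chambers F).encard = (Fintype.card (chambers F) : ℕ∞) := by
    rw [Set.encard_eq_coe_toFinset_card, Set.toFinset_card]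
  rw [h2] at hm
  exact_mod_cast hm

end Pool.Agent.Lib_MP_752436_ch
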