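import Pool.Agent.Lib_MP_752436_ch.NoBottom
import Pool.Agent.Lib_MP_752436_ch.Linear

/-!
Piece G4: the cycles of the free curves and linear algebra.
-/

open MeasureTheory Metric Set Filter
open scoped ContDiff Topology

namespace Pool.Agent.Lib_MP_752436_ch

open Pool.Agent.Lib_MP_752436_gt Pool.Agent.Lib_MP_752436_tp Pool.Agent.Lib_MP_752436_rb

open Classical in
/-- The values outside of `K`. -/
private noncomputable def freecyc_off {κ : Type} (K : Set κ) : (κ → ℝ) →ₗ[ℝ] (κ → ℝ) where
  toFun n e := if e ∈ K then 0 else n e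
  map_add' n n' := by
    funext e
    by_cases h : e ∈ K
    · simp [h]
    · simp [h]
  map_smul' r n := by
    funext e
    by_cases h : e ∈ K
    · simp [h]
    · simp [h]

private theorem freecyc_off_of_notMem {κ : Type} {K : Set κ} {e : κ} (h : e ∉ K) (n : κ → ℝ) :
    freecyc_off K n e = n e := if_neg h

private theorem freecyc_off_eq_zero {κ : Type} {K : Set κ} {n : κ → ℝ}
    (h : ∀ e ∉ K, n e = 0) : freecyc_off K n = 0 := by
  funext e
  by_cases he : e ∈ K
  · exact if_pos he
  · rw [freecyc_off_of_notMem he]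
    exact h e he

/-- Restrict `W` to the complement of `K`: the kernel has dimension at least `r`. -/
theorem exists_hitting_off {κ : Type} [Fintype κ] (W : Submodule ℝ (κ → ℝ)) (K : Set κ) {ι : Type}
    [Fintype ι] (u : ι → κ → ℝ) (hu : ∀ i, u i ∈ W) (hlin : LinearIndependent ℝ u)
    (hK : ∀ i, ∀ e ∉ K, u i e = 0) :
    ∃ S : Finset κ, S.card + Fintype.card ι ≤ Module.finrank ℝ W ∧
      ∀ n ∈ W, (∀ e ∈ S, n e = 0) → ∀ e ∉ K, n e = 0 := by
  set P : W →ₗ[ℝ] (κ → ℝ) := (freecyc_off K).comp W.subtype with hP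
  obtain ⟨S, hS, hS2⟩ := exists_hitting (LinearMap.range P) (le_refl _)
  have h1 := P.finrank_range_add_finrank_ker
  have h2 : Fintype.card ι ≤ Module.finrank ℝ (LinearMap.ker P) := by
    set v : ι → LinearMap.ker P := fun i => ⟨⟨u i, hu i⟩, by
      rw [LinearMap.mem_ker]
      exact freecyc_off_eq_zero (hK i)⟩ with hv
    have h3 : LinearIndependent ℝ v := by
      apply LinearIndependent.of_comp (W.subtype.comp (LinearMap.ker P).subtype)
      exact hlin
    exact h3.fintype_card_le_finrank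
  refine ⟨S, by omega, ?_⟩
  intro n hn hz e he
  have h3 : freecyc_off K n = 0 := by
    refine hS2 _ ⟨⟨n, hn⟩, rfl⟩ fun e' he' => ?_
    by_cases h : e' ∈ K
    · exact if_pos h
    · rw [freecyc_off_of_notMem h]
      exact hz e' he'
  rw [← freecyc_off_of_notMem he n, h3]
  rfl

variable {D : Set (Plane × Plane)} {κ : Type} [Fintype κ] {c : κ → ℝ → Plane × Plane}
  {a b : κ → ℝ}

omit [Fintype κ] in
/-- An edge lies in `C` if one of its points does. -/
private theorem freecyc_edge (hE : Edges c a b D) {C : Set (Plane × Plane)} (hC : IsClosed C)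
    (hC' : IsClosed (D \ C)) {e : κ} {s t : ℝ} (hs : s ∈ Icc (a e) (b e))
    (ht : t ∈ Icc (a e) (b e)) (h : c e s ∈ C) : c e t ∈ C := by
  by_contra hcon
  have hpre : IsPreconnected (c e '' Icc (a e) (b e)) :=
    isPreconnected_Icc.image _ (hE.smooth e).continuous.continuousOn
  obtain ⟨q, _, hq1, hq2⟩ := (isPreconnected_closed_iff.1 hpre) C (D \ C) hC hC' (by
    rintro _ ⟨r, hr, rfl⟩
    by_cases h' : c e r ∈ C
    · exact Or.inl h'
    · exact Or.inr ⟨hE.mem e r hr, h'⟩) ⟨c e s, mem_image_of_mem _ hs, h⟩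
    ⟨c e t, mem_image_of_mem _ ht, hE.mem e t ht, hcon⟩
  exact hq2.2 hq1

omit [Fintype κ] in
/-- The start of an edge is not an interior point of an edge. -/
private theorem freecyc_start (hE : Edges c a b D) (e : κ) :
    ∀ e', ∀ t ∈ Ioo (a e') (b e'), c e' t ≠ c e (a e) := by
  intro e' t ht heq
  obtain ⟨h1, h2⟩ := hE.once e' e t ht (a e) ⟨le_refl _, (hE.lt e).le⟩ heq
  subst h1
  rw [h2] at ht
  exact lt_irrefl _ ht.1

open Classical in
/-- The edges in a closed and open part `C` of `D` whose lower points lie in the open disc form a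
cycle: `out`, `into` and `start` give a permutation of these edges as at the end of the proof of
`trap_cycle`. -/
theorem isCyc_indicator (hE : Edges c a b D) {C : Set (Plane × Plane)} (hC : IsClosed C)
    (hC' : IsClosed (D \ C)) (hin : ∀ p ∈ C, p.2 ∈ ball (0 : Plane) 1) :
    IsCyc c a b (fun e => if c e (a e) ∈ C then 1 else 0) := by
  have hl : ∀ e, a e ∈ Icc (a e) (b e) := fun e => ⟨le_refl _, (hE.lt e).le⟩
  have hr : ∀ e, b e ∈ Icc (a e) (b e) := fun e => ⟨(hE.lt e).le, le_refl _⟩
  have hex : ∀ e : {e // c e (a e) ∈ C}, ∃ e' : {e // c e (a e) ∈ C},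
      c e'.1 (b e'.1) = c e.1 (a e.1) := by
    rintro ⟨e, he⟩
    obtain ⟨e', he'⟩ := hE.into (c e (a e)) (hE.mem e _ (hl e)) (hin _ he) (freecyc_start hE e)
    refine ⟨⟨e', freecyc_edge hE hC hC' (hr e') (hl e') ?_⟩, he'⟩
    rw [he']
    exact he
  choose f hf using hex
  have hinj : Function.Injective f := by
    intro e1 e2 h
    apply Subtype.ext
    apply hE.start
    rw [← hf e1, ← hf e2, h]
  have hbij : Function.Bijective f := Finite.injective_iff_bijective.1 hinj
  intro ψ
  have h1 : ∀ g : κ → ℝ, ∑ e, (if c e (a e) ∈ C then (1 : ℝ) else 0) * g e =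
      ∑ e : {e // c e (a e) ∈ C}, g e.1 := by
    intro g
    have h3 : ∑ e ∈ Finset.univ.filter (fun e => c e (a e) ∈ C), g e =
        ∑ e : {e // c e (a e) ∈ C}, g e.1 := Finset.sum_subtype _ (fun e => by simp) g
    rw [← h3, Finset.sum_filter]
    refine Finset.sum_congr rfl fun e _ => ?_
    rw [ite_mul, one_mul, zero_mul]
  rw [h1]
  unfold bdry
  rw [Finset.sum_sub_distrib, sub_eq_zero]
  have h2 := (Equiv.ofBijective f hbij).sum_comp
    (fun e : {e // c e (a e) ∈ C} => ψ (c e.1 (b e.1)).1 - ψ (c e.1 (b e.1)).2)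
  rw [← h2]
  refine Finset.sum_congr rfl fun e _ => ?_
  show ψ (c (f e).1 (b (f e).1)).1 - ψ (c (f e).1 (b (f e).1)).2 =
    ψ (c e.1 (a e.1)).1 - ψ (c e.1 (a e.1)).2
  rw [hf e]

open Classical in
/-- The cycles of different components are linearly independent. -/
theorem linearIndependent_indicator (hE : Edges c a b D) {A : Set (Set (Plane × Plane))}
    (hA : A ⊆ comps D) :
    LinearIndependent ℝ (fun C : A => fun e => if c e (a e) ∈ C.1 then (1 : ℝ) else 0) := by
  have hex : ∀ C : A, ∃ e, c e (a e) ∈ C.1 := by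
    rintro ⟨C, hC⟩
    obtain ⟨p, hp, rfl⟩ := hA hC
    obtain ⟨e, t, ht, rfl⟩ := hE.cover p hp
    refine ⟨e, ?_⟩
    have hpre : IsPreconnected (c e '' Icc (a e) (b e)) :=
      isPreconnected_Icc.image _ (hE.smooth e).continuous.continuousOn
    exact hpre.subset_connectedComponentIn (mem_image_of_mem _ ht) (by
      rintro _ ⟨r, hr, rfl⟩
      exact hE.mem e r hr) (mem_image_of_mem _ ⟨le_refl _, (hE.lt e).le⟩)
  have heq : ∀ C C' : A, ∀ q, q ∈ C.1 → q ∈ C'.1 → C' = C := by
    rintro ⟨C, hC⟩ ⟨C', hC'⟩ q h h'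
    obtain ⟨p, hp, rfl⟩ := hA hC
    obtain ⟨p', hp', rfl⟩ := hA hC'
    apply Subtype.ext
    show connectedComponentIn D p' = connectedComponentIn D p
    rw [connectedComponentIn_eq h, connectedComponentIn_eq h']
  rw [linearIndependent_iff']
  intro s g hg C hC
  obtain ⟨e, he⟩ := hex C
  have h1 := congrFun hg e
  rw [Finset.sum_apply] at h1
  rw [Finset.sum_eq_single C] at h1
  · simpa [he] using h1
  · intro C' _ hne
    have h2 : c e (a e) ∉ C'.1 := fun h => hne (heq C C' _ he h)
    simp [h2]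
  · intro h
    exact absurd hC h

end Pool.Agent.Lib_MP_752436_ch
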