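import Pool.Agent.Lib_MP_752436_ch.Defs
import Pool.Agent.Lib_MP_752436_tp.OneDim

/-!
Piece A1: the double set of a tame slice disc.
-/

open MeasureTheory Metric Set Filter
open scoped ContDiff Topology

namespace Pool.Agent.Lib_MP_752436_ch

open Pool.Agent.Lib_MP_752436_gt Pool.Agent.Lib_MP_752436_tp Pool.Agent.Lib_MP_752436_rb

variable {F : Plane → EuclideanSpace ℝ (Fin 4)}

theorem Tame.injective (h : Tame F) : ∀ x ∈ closedBall (0 : Plane) 1,
    Function.Injective (fderiv ℝ (shadow F) x) := by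
  intro x hx
  exact (injective_iff_map_eq_zero _).mpr fun u hu => h.immersion x hx u hu

/-- The double set of a tame slice disc is compact. -/
theorem ve_isCompact_doubleSet (hF : IsSliceDisc F) (hg : Tame F) : IsCompact (DoubleSet F) := by
  have hcomp : IsCompact (closedBall (0 : Plane) 1 ×ˢ closedBall (0 : Plane) 1) :=
    (isCompact_closedBall 0 1).prod (isCompact_closedBall 0 1)
  refine hcomp.of_isClosed_subset ?_ (fun p hp => ⟨hp.1, hp.2.1⟩)
  refine isClosed_of_closure_subset fun p hp => ?_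
  have hsub : closure (DoubleSet F) ⊆ {p : Plane × Plane | p.1 ∈ closedBall (0 : Plane) 1 ∧
      p.2 ∈ closedBall (0 : Plane) 1 ∧ shadow F p.1 = shadow F p.2 ∧ F p.2 3 ≤ F p.1 3} := by
    refine closure_minimal (fun q hq => ⟨hq.1, hq.2.1, hq.2.2.1, hq.2.2.2.le⟩) ?_
    refine IsClosed.inter (isClosed_closedBall.preimage continuous_fst)
      (IsClosed.inter (isClosed_closedBall.preimage continuous_snd)
      (IsClosed.inter (isClosed_eq ((od_continuous_shadow hF).comp continuous_fst)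
        ((od_continuous_shadow hF).comp continuous_snd))
      (isClosed_le ((od_continuous_height hF).comp continuous_snd)
        ((od_continuous_height hF).comp continuous_fst))))
  obtain ⟨h1, h2, h3, h4⟩ := hsub hp
  refine ⟨h1, h2, h3, lt_of_le_of_ne h4 fun h5 => ?_⟩
  have hxy : p.1 = p.2 := od_eq_of_shadow hF h1 h2 h3 h5.symm
  have hst := ((od_contDiff_shadow hF).contDiffAt (x := p.1)).hasStrictFDerivAt (by simp)
  obtain ⟨r, hr, hinj⟩ : ∃ r : ℝ, 0 < r ∧ InjOn (shadow F) (ball p.1 r) := by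
    have hker : LinearMap.ker (fderiv ℝ (shadow F) p.1 : Plane →ₗ[ℝ] Space) = ⊥ :=
      LinearMap.ker_eq_bot.mpr (hg.injective p.1 h1)
    obtain ⟨K, hK, hA⟩ := LinearMap.exists_antilipschitzWith
      (fderiv ℝ (shadow F) p.1 : Plane →ₗ[ℝ] Space) hker
    obtain ⟨s, hs, happ⟩ := hst.approximates_deriv_on_nhds
      (c := K⁻¹ / 2) (Or.inr (by positivity))
    obtain ⟨r, hr, hsub⟩ := Metric.mem_nhds_iff.mp hs
    refine ⟨r, hr, fun x hx y hy hxy => ?_⟩
    have h1 := happ x (hsub hx) y (hsub hy)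
    rw [hxy, sub_self, zero_sub, norm_neg] at h1
    have h2 : ‖x - y‖ ≤ K * ‖fderiv ℝ (shadow F) p.1 (x - y)‖ :=
      ZeroHomClass.bound_of_antilipschitz _ hA (x - y)
    have hK' : (0 : ℝ) < K := by exact_mod_cast hK
    have h3 : ‖x - y‖ ≤ K * (((K⁻¹ / 2 : NNReal) : ℝ) * ‖x - y‖) :=
      h2.trans (mul_le_mul_of_nonneg_left h1 hK'.le)
    have h4 : (K : ℝ) * (((K⁻¹ / 2 : NNReal) : ℝ) * ‖x - y‖) = ‖x - y‖ / 2 := by
      push_cast
      field_simp
    rw [h4] at h3
    have h5 : ‖x - y‖ ≤ 0 := by linarith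
    exact sub_eq_zero.mp (norm_le_zero_iff.mp h5)
  have hO : ball p.1 r ×ˢ ball p.2 r ∈ 𝓝 p :=
    prod_mem_nhds (ball_mem_nhds _ hr) (ball_mem_nhds _ hr)
  obtain ⟨q, hqO, hqD⟩ := mem_closure_iff_nhds.mp hp _ hO
  have hq : q.1 = q.2 := by
    refine hinj hqO.1 ?_ hqD.2.2.1
    rw [hxy]
    exact hqO.2
  have := hqD.2.2.2
  rw [hq] at this
  exact lt_irrefl _ this

/-- Two different points with the same shadow lie one above the other. -/
theorem ve_total (hF : IsSliceDisc F) {x y : Plane} (hx : x ∈ closedBall (0 : Plane) 1)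
    (hy : y ∈ closedBall (0 : Plane) 1) (hne : x ≠ y) (hs : shadow F x = shadow F y) :
    (x, y) ∈ DoubleSet F ∨ (y, x) ∈ DoubleSet F := by
  rcases lt_trichotomy (F x 3) (F y 3) with h | h | h
  · exact Or.inr ⟨hy, hx, hs.symm, h⟩
  · exact absurd (od_eq_of_shadow hF hx hy hs h) hne
  · exact Or.inl ⟨hx, hy, hs, h⟩

theorem strict_doubleSet (hF : IsSliceDisc F) (h : Tame F) : Strict (DoubleSet F) where
  compact := ve_isCompact_doubleSet hF h
  fstMem := fun _ hp => od_fst_mem_ball hF hp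
  sndMem := fun _ hp => hp.2.1
  irrefl := fun _ hx => lt_irrefl _ hx.2.2.2
  trans := fun _ _ _ h1 h2 =>
    ⟨h1.1, h2.2.1, h1.2.2.1.trans h2.2.2.1, h2.2.2.2.trans h1.2.2.2⟩
  noFour := fun x y z w h1 h2 h3 => h.quadruple x y z w ⟨h1, h2⟩ ⟨h2, h3⟩
  above := fun _ _ _ h1 h2 hne =>
    ve_total hF h1.2.1 h2.2.1 hne (h1.2.2.1.symm.trans h2.2.2.1)
  below := fun _ _ _ h1 h2 hne =>
    ve_total hF h1.1 h2.1 hne (h1.2.2.1.trans h2.2.2.1.symm)

theorem finite_vertices (h : Tame F) : (vertices (DoubleSet F)).Finite := by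
  have h1 : ((fun p : Plane × Plane × Plane => (p.1, p.2.1)) ''
      {p : Plane × Plane × Plane | Triple F p.1 p.2.1 p.2.2}).Finite := h.triple.image _
  have h2 : ((fun p : Plane × Plane × Plane => (p.2.1, p.2.2)) ''
      {p : Plane × Plane × Plane | Triple F p.1 p.2.1 p.2.2}).Finite := h.triple.image _
  have h3 : ((fun p : Plane × Plane × Plane => (p.1, p.2.2)) ''
      {p : Plane × Plane × Plane | Triple F p.1 p.2.1 p.2.2}).Finite := h.triple.image _
  refine ((h1.union h2).union h3).subset fun p hp => ?_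
  obtain ⟨hp, z, hz | hz | hz⟩ := hp
  · exact Or.inl (Or.inl ⟨(p.1, p.2, z), ⟨hp, hz⟩, rfl⟩)
  · exact Or.inl (Or.inr ⟨(z, p.1, p.2), ⟨hz, hp⟩, rfl⟩)
  · exact Or.inr ⟨(p.1, z, p.2), ⟨hz.1, hz.2⟩, rfl⟩

theorem ve_crossing (hF : IsSliceDisc F) (h : IsCompact (DoubleSet F)) :
    CrossingInfo (shadow F) (fun x y => (x, y) ∈ DoubleSet F) := by
  refine CrossingInfo.mk ?_ ?_ ?_
  · exact h.isClosed
  · intro x y hxy
    refine ⟨?_, ?_, ?_, ?_⟩
    · exact od_fst_mem_ball hF (p := (x, y)) hxy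
    · exact hxy.2.1
    · intro hxy'
      subst hxy'
      exact lt_irrefl _ hxy.2.2.2
    · exact hxy.2.2.1
  · intro x hx y hy hne hs
    exact ve_total hF hx hy hne hs

theorem crossingInfo_doubleSet (hF : IsSliceDisc F) (h : Tame F) :
    CrossingInfo (shadow F) (fun x y => (x, y) ∈ DoubleSet F) :=
  ve_crossing hF (ve_isCompact_doubleSet hF h)

end Pool.Agent.Lib_MP_752436_ch
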