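import Pool.Agent.Lib_MP_752436_ch.TrapCycleOff
import Pool.Agent.Lib_MP_752436_ch.FreeCycles
import Pool.Agent.Lib_MP_752436_ch.Edges
import Pool.Agent.Lib_MP_752436_ch.Vertices
import Pool.Agent.Lib_MP_752436_gt.DiagramBirths
import Pool.Agent.Lib_MP_752436_nb.GenericIff

/-!
Piece G5: births and free circles against chambers.
-/

open MeasureTheory Metric Set Filter
open scoped ContDiff Topology

namespace Pool.Agent.Lib_MP_752436_ch

open Pool.Agent.Lib_MP_752436_gt Pool.Agent.Lib_MP_752436_tp Pool.Agent.Lib_MP_752436_rb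

open Pool.Agent.Lib_MP_752436_nb

variable {F : Plane → EuclideanSpace ℝ (Fin 4)}

theorem circles_eq (F : Plane → EuclideanSpace ℝ (Fin 4)) :
    circles F = freeComps (DoubleSet F) := by
  ext C
  constructor
  · rintro ⟨p, hp, rfl, h⟩
    refine ⟨⟨p, hp, rfl⟩, fun q hq => ⟨(h q hq).1, fun z => ?_⟩⟩
    have hqD : q ∈ DoubleSet F := connectedComponentIn_subset _ _ hq
    obtain ⟨h1, h2⟩ := (h q hq).2 z
    exact ⟨fun h3 => h1 ⟨h3, hqD⟩, fun h3 => h2 h3⟩
  · rintro ⟨⟨p, hp, rfl⟩, h⟩
    refine ⟨p, hp, rfl, fun q hq => ⟨(h q hq).1, fun z => ?_⟩⟩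
    obtain ⟨h1, h2⟩ := (h q hq).2 z
    exact ⟨fun h3 => h1 h3.1, fun h3 => h2 h3⟩

theorem finite_comps (h : Tame F) : (comps (DoubleSet F)).Finite := by
  obtain ⟨k, c, hc⟩ := h.curves
  refine (Set.finite_range fun i : Fin k => connectedComponentIn (DoubleSet F) (c i 0)).subset ?_
  rintro C ⟨p, hp, rfl⟩
  have hp' := hp
  rw [hc.cover] at hp'
  obtain ⟨i, t, ht, rfl⟩ := mem_iUnion.1 hp'
  refine ⟨i, ?_⟩
  have hpre : IsPreconnected (c i '' Icc 0 1) :=
    isPreconnected_Icc.image _ (hc.smooth i).continuous.continuousOn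
  have hsub : c i '' Icc 0 1 ⊆ DoubleSet F := by
    rw [hc.cover]
    exact subset_iUnion (fun i => c i '' Icc 0 1) i
  have h1 := hpre.subset_connectedComponentIn (x := c i t) ⟨t, ht, rfl⟩ hsub
  exact (connectedComponentIn_eq (h1 ⟨0, ⟨le_rfl, zero_le_one⟩, rfl⟩)).symm

theorem births_add_circles_le (hF : IsSliceDisc F) (h : Tame F) :
    ∃ G, MorseDisc G ∧ (births G).encard + (circles F).encard ≤ (chambers F).encard ∧
      ∀ x, shadow G x = shadow F x := by
  classical
  obtain ⟨k, c0, hc0⟩ := h.curves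
  obtain ⟨κ, hκ, c, a, b, hE⟩ := exists_edges (finite_vertices h) hc0
  have hS := strict_doubleSet hF h
  have hfin := finite_comps h
  obtain ⟨A, hA, htrap⟩ := exists_turn hS hfin
  have hT : Turnable (DoubleSet F) (⋃₀ A) := turnable_free hS hfin hA
  set D := DoubleSet F with hD
  set Φ := ⋃₀ A with hΦ
  have hE' : Edges (turnEdge Φ c a) a b (turn D Φ) :=
    edges_turn hS hT hE (hE.regular_snd hF h)
  have hS' := strict_turn hS hT
  have hmid : ∀ e, (a e + b e) / 2 ∈ Ioo (a e) (b e) := by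
    intro e
    have h1 := hE.lt e
    constructor <;> linarith
  have hasymm : ∀ p : Plane × Plane, p ∈ D → p.swap ∉ D := fun p h1 h2 =>
    hS.irrefl _ (hS.trans p.1 p.2 p.1 h1 h2)
  -- the free components
  set Fr := ⋃₀ freeComps D with hFr
  have hsubc : freeComps D ⊆ comps D := fun C hC => hC.1
  have hfree : (freeComps D).Finite := hfin.subset hsubc
  have : Fintype (freeComps D) := hfree.fintype
  have hFrc := isClosed_sUnion_comps hS hfin hsubc
  have hΦFr : Φ ⊆ Fr := sUnion_subset_sUnion hA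
  have hFrD : Fr ⊆ D := by
    rintro p ⟨C, ⟨⟨q, _, rfl⟩, _⟩, hp⟩
    exact connectedComponentIn_subset _ _ hp
  have hFrTop : ∀ p ∈ Fr, Top D p := by
    rintro p ⟨C, hC, hp⟩
    exact (hC.2 p hp).2
  -- the hitting edges
  have hone : ∀ C ∈ comps D, IsClosed C ∧ IsClosed (D \ C) := by
    intro C hC
    have h1 := isClosed_sUnion_comps hS hfin (A := {C}) (singleton_subset_iff.2 hC)
    rwa [sUnion_singleton] at h1
  obtain ⟨S, hScard, hSW⟩ := exists_hitting_off (cycles c a b) {e | c e (a e) ∈ Fr}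
    (fun C : freeComps D => fun e => if c e (a e) ∈ C.1 then (1 : ℝ) else 0)
    (fun C => isCyc_indicator hE (hone C.1 C.2.1).1 (hone C.1 C.2.1).2
      fun p hp => (C.2.2 p hp).1)
    (linearIndependent_indicator hE hsubc)
    (fun C e he => if_neg fun h1 => he ⟨C.1, C.2, h1⟩)
  have hWc : (Module.finrank ℝ (cycles c a b) : ℕ∞) ≤ (chambers F).encard := by
    rcases (chambers F).finite_or_infinite with h1 | h1
    · have h2 := finrank_cycles_le hF h hE (m := (chambers F).ncard)
        (by rw [h1.cast_ncard_eq])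
      rw [← h1.cast_ncard_eq]
      exact_mod_cast h2
    · rw [h1.encard_eq]
      exact le_top
  have hR := crossingInfo_turn hS hT (crossingInfo_doubleSet hF h)
  suffices hP : ∃ P : Set Plane, P.encard ≤ S.card ∧
      (∀ p ∈ P, ∀ y, ¬ (p, y) ∈ turn D Φ) ∧
      ∀ Z, IsTrapOf (fun x y => (x, y) ∈ turn D Φ) Z → (Z ∩ P).Nonempty by
    obtain ⟨G, hG, hGm, -, hsh, -⟩ :=
      (diagram_births (contDiff_shadow hF) h.injective hR S.card).2 hP
    refine ⟨G, hG, ?_, hsh⟩
    have h1 : (circles F).encard = (Fintype.card (freeComps D) : ℕ∞) := by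
      rw [circles_eq, Set.encard_eq_coe_toFinset_card, Set.toFinset_card]
    rw [h1]
    refine (add_le_add_left hGm _).trans (le_trans ?_ hWc)
    exact_mod_cast hScard
  refine ⟨(fun e => (turnEdge Φ c a e ((a e + b e) / 2)).2) '' (S : Set κ), ?_, ?_, ?_⟩
  · refine (encard_image_le _ _).trans ?_
    rw [Set.encard_coe_eq_coe_finsetCard]
  · rintro _ ⟨e, _, rfl⟩ y hy
    refine hE'.inner e _ (hmid e) ?_
    exact ⟨hE'.mem e _ (Ioo_subset_Icc_self (hmid e)), y, Or.inl hy⟩
  · intro Z hZ
    by_contra hcon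
    rw [not_nonempty_iff_eq_empty] at hcon
    obtain ⟨z, hz, x, y, hxy, hyz⟩ := htrap Z hZ
    have hv : (y, z) ∈ vertices (turn D Φ) := ⟨hyz, x, Or.inr (Or.inl hxy)⟩
    obtain ⟨e, he⟩ := hE'.out (y, z) hyz (hZ.sub hz)
      fun e t ht he => hE'.inner e t ht (by rw [he]; exact hv)
    have hzi : z ∈ interior (tcZ (turn D Φ) Z) := tc_bottom hS' hZ hxy hyz (Or.inl hz)
    have hst := tc_near hS' hE' hZ (e := e) (t := a e) ⟨le_rfl, (hE'.lt e).le⟩
      (by rw [he]; exact hzi)
    -- the turned free components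
    have hC1 : IsClosed (turn Fr Φ) := by
      have h1 : turn Fr Φ = (Fr ∩ (D \ Φ)) ∪ Prod.swap ⁻¹' Φ := by
        ext p
        constructor
        · rintro (⟨h1, h2⟩ | h1)
          · exact Or.inl ⟨h1, hFrD h1, h2⟩
          · exact Or.inr h1
        · rintro (⟨h1, _, h2⟩ | h1)
          · exact Or.inl ⟨h1, h2⟩
          · exact Or.inr h1
      rw [h1]
      exact (hFrc.1.inter hT.closed').union (hT.closed.preimage continuous_swap)
    have hC2 : IsClosed (turn D Φ \ turn Fr Φ) := by
      have h1 : turn D Φ \ turn Fr Φ = D \ Fr := by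
        ext p
        constructor
        · rintro ⟨h1 | h1, h2⟩
          · exact ⟨h1.1, fun h3 => h2 (Or.inl ⟨h3, h1.2⟩)⟩
          · exact absurd (Or.inr h1) h2
        · rintro ⟨h1, h2⟩
          refine ⟨Or.inl ⟨h1, fun h3 => h2 (hΦFr h3)⟩, ?_⟩
          rintro (h3 | h3)
          · exact h2 h3.1
          · exact hasymm p h1 (hT.sub h3)
      rw [h1]
      exact hFrc.2
    have htop : ∀ p ∈ turn D Φ, p ∈ turn Fr Φ → Top (turn D Φ) p := by
      rintro p - (⟨h1, h2⟩ | h1)
      · exact (top_turn hS hT (hFrD h1) h2).2 (hFrTop p h1)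
      · exact top_turn_swap hS hT h1
    have hstart : turnEdge Φ c a e (a e) ∉ turn Fr Φ := by
      rw [he]
      intro h1
      exact (htop _ hyz h1 x).1 hxy
    obtain ⟨n, hn0, hn, hcyc⟩ := trap_cycle_off hS' hE' hZ hC1 hC2 htop ⟨e, hstart, hst⟩
    have hn' := (isCyc_turn n).1 hcyc
    have hzero := hSW _ hn' (by
      intro e' he'
      have h1 : n e' = 0 := by
        by_contra h2
        have h3 : (turnEdge Φ c a e' ((a e' + b e') / 2)).2 ∈ Z ∩
            (fun e => (turnEdge Φ c a e ((a e + b e) / 2)).2) '' (S : Set κ) :=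
          ⟨(hn e' h2).2 _ (hmid e'), e', he', rfl⟩
        rw [hcon] at h3
        exact h3
      simp [h1])
    apply hn0
    funext e'
    by_contra h1
    have h1' : n e' ≠ 0 := h1
    have h2 := (hn e' h1').1
    have h3 : c e' (a e') ∉ Fr := by
      intro h4
      apply h2
      by_cases h5 : c e' (a e') ∈ Φ
      · right
        simp only [turnEdge, if_pos h5, Prod.swap_swap]
        exact h5
      · left
        simp only [turnEdge, if_neg h5]
        exact ⟨h4, h5⟩
    have h4 := hzero e' h3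
    by_cases h5 : c e' (a e') ∈ Φ
    · exact h3 (hΦFr h5)
    · simp only [if_neg h5] at h4
      exact h1' h4

/-- A disc with at most as many chambers as free circles. -/
theorem ribbon_of_chambers_le (hF : IsSliceDisc F) (h : Tame F)
    (hc : (chambers F).encard ≤ (circles F).encard) : IsRibbonKnot (boundaryKnot F) := by
  obtain ⟨G, hG, hGm, hs⟩ := births_add_circles_le hF h
  have hfin : (circles F).Finite := by
    rw [circles_eq]
    exact (finite_comps h).subset fun C hC => hC.1
  have h0 : (births G).encard ≤ (0 : ℕ) := by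
    have h1 : (births G).encard + (circles F).encard ≤ 0 + (circles F).encard := by
      rw [zero_add]
      exact hGm.trans hc
    have h2 := (ENat.add_le_add_iff_right (by
      rw [← hfin.cast_ncard_eq]
      exact ENat.natCast_ne_top _)).1 h1
    simpa using h2
  exact ribbon_of_shadow hG h0 hs

end Pool.Agent.Lib_MP_752436_ch
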