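import Pool.Agent.Lib_MP_752436_ch.Defs

/-!
Piece C1: vector potentials, pull backs of 1-forms.
-/

open MeasureTheory Metric Set Filter
open scoped ContDiff Topology

namespace Pool.Agent.Lib_MP_752436_ch

open Pool.Agent.Lib_MP_752436_gt Pool.Agent.Lib_MP_752436_tp Pool.Agent.Lib_MP_752436_rb

/-! ### differentiation of parameter integrals -/

private theorem Curl_partial {F : Space → ℝ → Space}
    (hF : ContDiff ℝ 1 (fun p : Space × ℝ => F p.1 p.2)) (r : Space) (s : ℝ) :
    HasFDerivAt (fun r => F r s)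
      ((fderiv ℝ (fun p : Space × ℝ => F p.1 p.2) (r, s)).comp
        (ContinuousLinearMap.inl ℝ Space ℝ)) r := by
  have h1 : HasFDerivAt (fun p : Space × ℝ => F p.1 p.2)
      (fderiv ℝ (fun p : Space × ℝ => F p.1 p.2) (r, s)) (r, s) :=
    (hF.differentiable one_ne_zero _).hasFDerivAt
  have h2 : HasFDerivAt (fun r : Space => (r, s)) (ContinuousLinearMap.inl ℝ Space ℝ) r :=
    hasFDerivAt_prodMk_left r s
  exact h1.comp r h2

private theorem Curl_param {F : Space → ℝ → Space}
    (hF : ContDiff ℝ 1 (fun p : Space × ℝ => F p.1 p.2)) :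
    ContDiff ℝ 1 (fun r => ∫ s in (0 : ℝ)..1, F r s) ∧
      ∀ r, fderiv ℝ (fun r => ∫ s in (0 : ℝ)..1, F r s) r =
        ∫ s in (0 : ℝ)..1, (fderiv ℝ (fun p : Space × ℝ => F p.1 p.2) (r, s)).comp
          (ContinuousLinearMap.inl ℝ Space ℝ) := by
  set F' : Space → ℝ → Space →L[ℝ] Space := fun r s =>
    (fderiv ℝ (fun p : Space × ℝ => F p.1 p.2) (r, s)).comp
      (ContinuousLinearMap.inl ℝ Space ℝ) with hF'
  have hc : Continuous (fun p : Space × ℝ => F' p.1 p.2) := by
    have h1 : Continuous (fderiv ℝ (fun p : Space × ℝ => F p.1 p.2)) :=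
      hF.continuous_fderiv one_ne_zero
    exact h1.clm_comp continuous_const
  have hcF : Continuous (fun p : Space × ℝ => F p.1 p.2) := hF.continuous
  have key : ∀ r, HasFDerivAt (fun r => ∫ s in (0 : ℝ)..1, F r s)
      (∫ s in (0 : ℝ)..1, F' r s) r := by
    intro r₀
    obtain ⟨C, hC⟩ := (((isCompact_closedBall r₀ 1).prod
      (isCompact_Icc (a := (0 : ℝ)) (b := 1))).exists_bound_of_continuousOn hc.continuousOn)
    apply intervalIntegral.hasFDerivAt_integral_of_dominated_of_fderiv_le
      (bound := fun _ => C) (s := closedBall r₀ 1) (F' := F')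
      (closedBall_mem_nhds r₀ one_pos)
    · exact Eventually.of_forall fun x =>
        (hcF.comp (Continuous.prodMk_right x)).aestronglyMeasurable
    · exact (hcF.comp (Continuous.prodMk_right r₀)).intervalIntegrable _ _
    · exact (hc.comp (Continuous.prodMk_right r₀)).aestronglyMeasurable
    · refine Eventually.of_forall fun t ht x hx => ?_
      rw [uIoc_of_le zero_le_one] at ht
      exact hC (x, t) ⟨hx, ht.1.le, ht.2⟩
    · exact intervalIntegrable_const
    · exact Eventually.of_forall fun t _ x _ => Curl_partial hF x t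
  refine ⟨?_, fun r => (key r).fderiv⟩
  rw [contDiff_one_iff_fderiv]
  refine ⟨fun r => (key r).differentiableAt, ?_⟩
  have h1 : fderiv ℝ (fun r => ∫ s in (0 : ℝ)..1, F r s) = fun r => ∫ s in (0 : ℝ)..1, F' r s :=
    funext fun r => (key r).fderiv
  rw [h1]
  exact intervalIntegral.continuous_parametric_intervalIntegral_of_continuous' hc 0 1

/-! ### the cross product and the curl as linear maps -/

private theorem Curl_bilin : IsBilinearMap ℝ cross where
  add_left a a' b := by
    ext i; fin_cases i <;> simp [cross] <;> ring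
  smul_left c a b := by
    ext i; fin_cases i <;> simp [cross] <;> ring
  add_right a b b' := by
    ext i; fin_cases i <;> simp [cross] <;> ring
  smul_right c a b := by
    ext i; fin_cases i <;> simp [cross] <;> ring

private noncomputable def Curl_cr : Space →L[ℝ] Space →L[ℝ] Space :=
  Curl_bilin.toContinuousBilinearMap

private theorem Curl_cr_apply (a b : Space) : Curl_cr a b = cross a b := rfl

/-- the curl of a linear map -/
private noncomputable def Curl_L : (Space →L[ℝ] Space) →L[ℝ] Space :=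
  LinearMap.toContinuousLinearMap
    { toFun := fun L => !₂[L (EuclideanSpace.single 1 1) 2 - L (EuclideanSpace.single 2 1) 1,
        L (EuclideanSpace.single 2 1) 0 - L (EuclideanSpace.single 0 1) 2,
        L (EuclideanSpace.single 0 1) 1 - L (EuclideanSpace.single 1 1) 0]
      map_add' := fun L M => by
        ext i; fin_cases i <;> simp <;> ring
      map_smul' := fun c L => by
        ext i; fin_cases i <;> simp <;> ring }

private theorem Curl_L_apply (L : Space →L[ℝ] Space) :
    Curl_L L = !₂[L (EuclideanSpace.single 1 1) 2 - L (EuclideanSpace.single 2 1) 1,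
        L (EuclideanSpace.single 2 1) 0 - L (EuclideanSpace.single 0 1) 2,
        L (EuclideanSpace.single 0 1) 1 - L (EuclideanSpace.single 1 1) 0] := rfl

private theorem Curl_expand (r : Space) : r = r 0 • EuclideanSpace.single 0 (1 : ℝ) +
    r 1 • EuclideanSpace.single 1 (1 : ℝ) + r 2 • EuclideanSpace.single 2 (1 : ℝ) := by
  ext i; fin_cases i <;> simp

private theorem Curl_apply (L : Space →L[ℝ] Space) (r : Space) (i : Fin 3) :
    L r i = r 0 * L (EuclideanSpace.single 0 1) i + r 1 * L (EuclideanSpace.single 1 1) i +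
      r 2 * L (EuclideanSpace.single 2 1) i := by
  conv_lhs => rw [Curl_expand r]
  simp

/-- the curl of `h ↦ s (s (M h) × r + c × h)` -/
private theorem Curl_alg (L M : Space →L[ℝ] Space) (c r : Space) (s : ℝ)
    (hL : ∀ h, L h = s • (cross (s • M h) r + cross c h))
    (htr : M (EuclideanSpace.single 0 1) 0 + M (EuclideanSpace.single 1 1) 1 +
      M (EuclideanSpace.single 2 1) 2 = 0) :
    Curl_L L = (2 * s) • c + s ^ 2 • M r := by
  rw [Curl_L_apply]
  have h2 : M (EuclideanSpace.single 2 1) 2 = - M (EuclideanSpace.single 0 1) 0 -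
      M (EuclideanSpace.single 1 1) 1 := by linarith
  ext i
  fin_cases i
  · simp [hL, cross, Curl_apply M r, h2]
    ring
  · simp [hL, cross, Curl_apply M r, h2]
    ring
  · simp [hL, cross, Curl_apply M r, h2]
    ring

/-- `A r = ∫_0^1 s V(s r) × r ds`. -/
theorem exists_curl {V : Space → Space} (hV : ContDiff ℝ ∞ V) {R : ℝ}
    (hd : ∀ r ∈ ball (0 : Space) R, div3 V r = 0) :
    ∃ A : Space → Space, ContDiff ℝ 1 A ∧ ∀ r ∈ ball (0 : Space) R, curl3 A r = V r := by
  set F : Space → ℝ → Space := fun r s => s • cross (V (s • r)) r with hFdef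
  have hF : ContDiff ℝ 1 (fun p : Space × ℝ => F p.1 p.2) := by
    have h1 : ContDiff ℝ 1 (fun p : Space × ℝ => V (p.2 • p.1)) :=
      (hV.of_le (by simp)).comp (contDiff_snd.smul contDiff_fst)
    have h2 : (fun p : Space × ℝ => F p.1 p.2) =
        fun p : Space × ℝ => p.2 • Curl_cr (V (p.2 • p.1)) p.1 := rfl
    rw [h2]
    exact contDiff_snd.smul ((Curl_cr.contDiff.comp h1).clm_apply contDiff_fst)
  obtain ⟨hA, hA'⟩ := Curl_param hF
  refine ⟨fun r => ∫ s in (0 : ℝ)..1, F r s, hA, fun r hr => ?_⟩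
  have hVd : ∀ x, HasFDerivAt V (fderiv ℝ V x) x := fun x =>
    (hV.differentiable (by simp) x).hasFDerivAt
  -- the derivative of the integrand
  have hD : ∀ s h, ((fderiv ℝ (fun p : Space × ℝ => F p.1 p.2) (r, s)).comp
      (ContinuousLinearMap.inl ℝ Space ℝ)) h =
        s • (cross (s • fderiv ℝ V (s • r) h) r + cross (V (s • r)) h) := by
    intro s h
    have h1 := Curl_partial hF r s
    have h2 : HasFDerivAt (fun r : Space => s • r) (s • ContinuousLinearMap.id ℝ Space) r :=
      (hasFDerivAt_id r).const_smul s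
    have h3 : HasFDerivAt (fun r : Space => V (s • r))
        ((fderiv ℝ V (s • r)).comp (s • ContinuousLinearMap.id ℝ Space)) r :=
      (hVd (s • r)).comp r h2
    have h4 : HasFDerivAt (fun r : Space => Curl_cr (V (s • r)))
        (Curl_cr.comp ((fderiv ℝ V (s • r)).comp (s • ContinuousLinearMap.id ℝ Space))) r :=
      Curl_cr.hasFDerivAt.comp r h3
    have h5 := (h4.clm_apply (hasFDerivAt_id r)).const_smul s
    have h6 : (fun r => F r s) = fun r : Space => s • (Curl_cr (V (s • r))) (id r) := rfl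
    rw [h6] at h1
    rw [h1.unique h5]
    simp only [_root_.smul_apply, _root_.add_apply,
      ContinuousLinearMap.comp_apply, ContinuousLinearMap.flip_apply,
      ContinuousLinearMap.id_apply, id_eq, Curl_cr_apply, map_smul]
    rw [add_comm, Curl_bilin.smul_left]
  have hcur : curl3 (fun r => ∫ s in (0 : ℝ)..1, F r s) r =
      Curl_L (fderiv ℝ (fun r => ∫ s in (0 : ℝ)..1, F r s) r) := rfl
  have hcont : Continuous fun s : ℝ => (fderiv ℝ (fun p : Space × ℝ => F p.1 p.2) (r, s)).comp
      (ContinuousLinearMap.inl ℝ Space ℝ) := by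
    have h1 : Continuous (fderiv ℝ (fun p : Space × ℝ => F p.1 p.2)) :=
      hF.continuous_fderiv one_ne_zero
    exact (h1.comp (Continuous.prodMk_right r)).clm_comp continuous_const
  rw [hcur, hA' r, ← ContinuousLinearMap.intervalIntegral_comp_comm Curl_L
    (hcont.intervalIntegrable _ _)]
  -- the primitive
  have hprim : ∀ s ∈ uIcc (0 : ℝ) 1, HasDerivAt (fun s : ℝ => s ^ 2 • V (s • r))
      (Curl_L ((fderiv ℝ (fun p : Space × ℝ => F p.1 p.2) (r, s)).comp
        (ContinuousLinearMap.inl ℝ Space ℝ))) s := by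
    intro s hs
    rw [uIcc_of_le zero_le_one] at hs
    have hsr : s • r ∈ ball (0 : Space) R := by
      rw [mem_ball_zero_iff] at hr ⊢
      rw [norm_smul, Real.norm_eq_abs, abs_of_nonneg hs.1]
      have : s * ‖r‖ ≤ 1 * ‖r‖ := mul_le_mul_of_nonneg_right hs.2 (norm_nonneg r)
      linarith
    have htr := hd _ hsr
    rw [div3, Fin.sum_univ_three] at htr
    rw [Curl_alg _ (fderiv ℝ V (s • r)) (V (s • r)) r s (hD s) htr]
    have h1 : HasDerivAt (fun s : ℝ => s • r) r s := by
      simpa using (hasDerivAt_id s).smul_const r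
    have h2 : HasDerivAt (fun s : ℝ => V (s • r)) (fderiv ℝ V (s • r) r) s :=
      (hVd (s • r)).comp_hasDerivAt s h1
    have h3 : HasDerivAt (fun s : ℝ => s ^ 2) (2 * s) s := by
      simpa using hasDerivAt_pow 2 s
    have h4 := h3.smul h2
    rw [add_comm]
    exact h4
  rw [intervalIntegral.integral_eq_sub_of_hasDerivAt hprim
    ((Curl_L.continuous.comp hcont).intervalIntegrable _ _)]
  simp

theorem contDiff_pull1 {f : Plane → Space} (hf : ContDiff ℝ ∞ f) {A : Space → Space}
    (hA : ContDiff ℝ 1 A) : ContDiff ℝ 1 (pull1 f A) := by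
  rw [contDiff_clm_apply_iff]
  intro w
  have h1 : (fun x => pull1 f A x w) = fun x => inner ℝ (A (f x)) (fderiv ℝ f x w) := rfl
  rw [h1]
  have h2 : ContDiff ℝ 1 (fun x => fderiv ℝ f x w) :=
    (hf.fderiv_right (m := 1) (WithTop.coe_le_coe.2 (le_top : (2 : ℕ∞) ≤ ⊤))).clm_apply contDiff_const
  exact (hA.comp (hf.of_le (by simp))).inner ℝ h2

/-- `⟨L a, b⟩ - ⟨L b, a⟩ = ⟨curl L, a × b⟩` -/
private theorem Curl_inner (L : Space →L[ℝ] Space) (a b : Space) :
    inner ℝ (L a) b - inner ℝ (L b) a = inner ℝ (Curl_L L) (cross a b) := by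
  rw [Curl_L_apply]
  simp only [EuclideanSpace.inner_eq_star_dotProduct, dotProduct, Fin.sum_univ_three, cross]
  simp only [Pi.star_apply, star_trivial]
  rw [Curl_apply L a 0, Curl_apply L a 1, Curl_apply L a 2, Curl_apply L b 0, Curl_apply L b 1,
    Curl_apply L b 2]
  simp
  ring

theorem curl2_pull1 {f : Plane → Space} (hf : ContDiff ℝ ∞ f) {A : Space → Space}
    (hA : ContDiff ℝ 1 A) (x : Plane) :
    curl2 (pull1 f A) x = inner ℝ (curl3 A (f x)) (nvec f x) := by
  have hd : DifferentiableAt ℝ (pull1 f A) x :=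
    (contDiff_pull1 hf hA).differentiable one_ne_zero x
  have hfd : ContDiff ℝ ∞ (fderiv ℝ f) := hf.fderiv_right (m := ∞) (by simp)
  have hfdd : DifferentiableAt ℝ (fderiv ℝ f) x := hfd.differentiable (by simp) x
  have hAf : DifferentiableAt ℝ (fun y => A (f y)) x :=
    (hA.differentiable one_ne_zero _).comp x (hf.differentiable (by simp) x)
  have key : ∀ u w : Plane, fderiv ℝ (pull1 f A) x u w =
      inner ℝ (A (f x)) (fderiv ℝ (fderiv ℝ f) x u w) +
        inner ℝ (fderiv ℝ A (f x) (fderiv ℝ f x u)) (fderiv ℝ f x w) := by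
    intro u w
    have h1 : HasFDerivAt (fun y => pull1 f A y w)
        ((ContinuousLinearMap.apply ℝ ℝ w).comp (fderiv ℝ (pull1 f A) x)) x :=
      (ContinuousLinearMap.apply ℝ ℝ w).hasFDerivAt.comp x hd.hasFDerivAt
    have h2 : HasFDerivAt (fun y => fderiv ℝ f y w)
        ((ContinuousLinearMap.apply ℝ Space w).comp (fderiv ℝ (fderiv ℝ f) x)) x :=
      (ContinuousLinearMap.apply ℝ Space w).hasFDerivAt.comp x hfdd.hasFDerivAt
    have h3 : HasFDerivAt (fun y => A (f y)) ((fderiv ℝ A (f x)).comp (fderiv ℝ f x)) x :=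
      (hA.differentiable one_ne_zero _).hasFDerivAt.comp x
        (hf.differentiable (by simp) x).hasFDerivAt
    have h4 := h3.inner ℝ h2
    have h5 : (fun y => pull1 f A y w) = fun y => inner ℝ (A (f y)) (fderiv ℝ f y w) := rfl
    rw [h5] at h1
    have h6 := congrArg (fun L => L u) (h1.unique h4)
    simpa using h6
  have hsym : fderiv ℝ (fderiv ℝ f) x (EuclideanSpace.single 0 1) (EuclideanSpace.single 1 1) =
      fderiv ℝ (fderiv ℝ f) x (EuclideanSpace.single 1 1) (EuclideanSpace.single 0 1) := by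
    have h1 : IsSymmSndFDerivAt ℝ f x := by
      apply (hf.contDiffAt).isSymmSndFDerivAt
      simp only [minSmoothness_of_isRCLikeNormedField]
      exact ENat.LEInfty.out
    exact h1 _ _
  rw [curl2, key, key, hsym]
  have h7 := Curl_inner (fderiv ℝ A (f x)) (fderiv ℝ f x (EuclideanSpace.single 0 1))
    (fderiv ℝ f x (EuclideanSpace.single 1 1))
  have h8 : inner ℝ (curl3 A (f x)) (nvec f x) = inner ℝ (Curl_L (fderiv ℝ A (f x)))
      (cross (fderiv ℝ f x (EuclideanSpace.single 0 1))
        (fderiv ℝ f x (EuclideanSpace.single 1 1))) := rfl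
  rw [h8, ← h7]
  ring

end Pool.Agent.Lib_MP_752436_ch
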