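import Pool.Agent.Lib_MP_752436_tp.Defs

/-!
Chambers of the projection of a slice disc: the definitions used in the statement.
-/

open Metric Set
open scoped ContDiff

namespace Pool.Agent.Lib_MP_752436_ch

open Pool.Agent.Lib_MP_752436_gt Pool.Agent.Lib_MP_752436_tp

/-- The set `D` of pairs is the disjoint union of finitely many regular curves `c i`, parametrised
by `[0, 1]`: closed curves (`c i 0 = c i 1`) and arcs, which start and end at pairs whose lower
point lies on the unit circle. -/
structure CurveSystem {ι : Type} (c : ι → ℝ → Plane × Plane) (D : Set (Plane × Plane)) : Prop where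
  smooth : ∀ i, ContDiff ℝ 1 (c i)
  regular : ∀ i, ∀ t ∈ Icc (0 : ℝ) 1, deriv (fun s => (c i s).1) t ≠ 0
  cover : D = ⋃ i, c i '' Icc 0 1
  inj : ∀ i j, ∀ s ∈ Icc (0 : ℝ) 1, ∀ t ∈ Icc (0 : ℝ) 1, c i s = c j t →
    i = j ∧ (s = t ∨ (s = 0 ∧ t = 1) ∨ (s = 1 ∧ t = 0))
  ends : ∀ i, c i 0 = c i 1 ∨
    ((c i 0).2 ∈ sphere (0 : Plane) 1 ∧ (c i 1).2 ∈ sphere (0 : Plane) 1)

/-- The projection of the slice disc `F` to `R^3` is tame: it is an immersion of the closed disc,
its double points form finitely many regular curves, there are finitely many triple points and no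
quadruple points. -/
structure Tame (F : Plane → EuclideanSpace ℝ (Fin 4)) : Prop where
  immersion : ∀ x ∈ closedBall (0 : Plane) 1, ∀ u, dproj F x u = 0 → u = 0
  curves : ∃ (n : ℕ) (c : Fin n → ℝ → Plane × Plane), CurveSystem c (DoubleSet F)
  triple : {p : Plane × Plane × Plane | Triple F p.1 p.2.1 p.2.2}.Finite
  quadruple : ∀ x y z w, Triple F x y z → ¬ Triple F y z w

/-- The bounded components of the complement of the projection of the disc. -/
def chambers (F : Plane → EuclideanSpace ℝ (Fin 4)) : Set (Set Space) :=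
  {C | Bornology.IsBounded C ∧ ∃ p ∉ shadow F '' closedBall 0 1,
    C = connectedComponentIn (shadow F '' closedBall 0 1)ᶜ p}

/-- The free double curves: components of the double set whose lower points lie in the open disc
and are not the lowest of three points. -/
def circles (F : Plane → EuclideanSpace ℝ (Fin 4)) : Set (Set (Plane × Plane)) :=
  {C | ∃ p ∈ DoubleSet F, C = connectedComponentIn (DoubleSet F) p ∧
    ∀ q ∈ C, q.2 ∈ ball (0 : Plane) 1 ∧ ∀ z, ¬ Triple F z q.1 q.2 ∧ ¬ Triple F q.1 z q.2}

end Pool.Agent.Lib_MP_752436_ch
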