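import Pool.Agent.Lib_MP_752436_tp.Defs2
import Pool.Agent.Lib_MP_752436_rb.Defs
import Pool.Agent.Lib_MP_752436_ch.Statement

/-!
Chambers of the projection of a slice disc. Working definitions: vertices, edges, chains of
plane curves, winding numbers, fluxes, vector calculus in `R^3`.
-/

open MeasureTheory Metric Set Filter
open scoped ContDiff Topology

namespace Pool.Agent.Lib_MP_752436_ch

open Pool.Agent.Lib_MP_752436_gt Pool.Agent.Lib_MP_752436_tp

/-- The vertices: the pairs which belong to a triple of points one above the other. -/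
def vertices (D : Set (Plane × Plane)) : Set (Plane × Plane) :=
  {p | p ∈ D ∧ ∃ z, (p.2, z) ∈ D ∨ (z, p.1) ∈ D ∨ ((p.1, z) ∈ D ∧ (z, p.2) ∈ D)}

/-- The curves of `D` cut at the vertices: the edges `c e`, parametrised by `[a e, b e]`. -/
structure Edges {κ : Type} (c : κ → ℝ → Plane × Plane) (a b : κ → ℝ) (D : Set (Plane × Plane)) :
    Prop where
  lt : ∀ e, a e < b e
  smooth : ∀ e, ContDiff ℝ 1 (c e)
  regular : ∀ e, ∀ t ∈ Icc (a e) (b e), deriv (fun s => (c e s).1) t ≠ 0
  mem : ∀ e, ∀ t ∈ Icc (a e) (b e), c e t ∈ D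
  inner : ∀ e, ∀ t ∈ Ioo (a e) (b e), c e t ∉ vertices D
  once : ∀ e e', ∀ t ∈ Ioo (a e) (b e), ∀ t' ∈ Icc (a e') (b e'), c e t = c e' t' →
    e = e' ∧ t = t'
  cover : ∀ p ∈ D, ∃ e, ∃ t ∈ Icc (a e) (b e), c e t = p
  start : ∀ e e', c e (a e) = c e' (a e') → e = e'
  out : ∀ p ∈ D, p.2 ∈ ball (0 : Plane) 1 → (∀ e, ∀ t ∈ Ioo (a e) (b e), c e t ≠ p) →
    ∃ e, c e (a e) = p
  into : ∀ p ∈ D, p.2 ∈ ball (0 : Plane) 1 → (∀ e, ∀ t ∈ Ioo (a e) (b e), c e t ≠ p) →
    ∃ e, c e (b e) = p

/-- The boundary of the pair of paths `c e`, upper minus lower, evaluated at `ψ`. -/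
def bdry {κ : Type} (c : κ → ℝ → Plane × Plane) (a b : κ → ℝ) (e : κ) (ψ : Plane → ℝ) : ℝ :=
  (ψ (c e (b e)).1 - ψ (c e (b e)).2) - (ψ (c e (a e)).1 - ψ (c e (a e)).2)

/-- The weights `n` of the edges define a cycle. -/
def IsCyc {κ : Type} [Fintype κ] (c : κ → ℝ → Plane × Plane) (a b : κ → ℝ) (n : κ → ℝ) : Prop :=
  ∀ ψ : Plane → ℝ, ∑ e, n e * bdry c a b e ψ = 0

/-- The properties of the relation above used for the traps. -/
structure Strict (D : Set (Plane × Plane)) : Prop where
  compact : IsCompact D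
  fstMem : ∀ p ∈ D, p.1 ∈ ball (0 : Plane) 1
  sndMem : ∀ p ∈ D, p.2 ∈ closedBall (0 : Plane) 1
  irrefl : ∀ x, (x, x) ∉ D
  trans : ∀ x y z, (x, y) ∈ D → (y, z) ∈ D → (x, z) ∈ D
  noFour : ∀ x y z w, (x, y) ∈ D → (y, z) ∈ D → (z, w) ∉ D
  above : ∀ x y z, (x, y) ∈ D → (x, z) ∈ D → y ≠ z → (y, z) ∈ D ∨ (z, y) ∈ D
  below : ∀ x y z, (x, z) ∈ D → (y, z) ∈ D → x ≠ y → (x, y) ∈ D ∨ (y, x) ∈ D

/-! ### Chains of plane curves -/

/-- The identification of the plane with the complex numbers. -/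
noncomputable def toCL : Plane →L[ℝ] ℂ :=
  LinearMap.toContinuousLinearMap
    { toFun := toC
      map_add' := fun x y => by simp [toC, Complex.ext_iff]
      map_smul' := fun r x => by simp [toC, Complex.ext_iff] }

/-- A finite chain of plane curves `γ j`, parametrised by `[a j, b j]`, with real weights. -/
structure PChain (J : Type) where
  m : J → ℝ
  γ : J → ℝ → Plane
  a : J → ℝ
  b : J → ℝ

namespace PChain

variable {J : Type} [Fintype J]

/-- The integral of a 1-form over the chain. -/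
noncomputable def int (z : PChain J) {E : Type*} [NormedAddCommGroup E] [NormedSpace ℝ E]
    (θ : Plane → Plane →L[ℝ] E) : E :=
  ∑ j, z.m j • ∫ t in (z.a j)..(z.b j), θ (z.γ j t) (deriv (z.γ j) t)

/-- The union of the curves. -/
def supp (z : PChain J) : Set Plane := ⋃ j, z.γ j '' Icc (z.a j) (z.b j)

/-- The chain consists of `C^1` curves and has boundary zero. -/
structure IsCycle (z : PChain J) : Prop where
  smooth : ∀ j, ContDiff ℝ 1 (z.γ j)
  le : ∀ j, z.a j ≤ z.b j
  closed : ∀ ψ : Plane → ℝ, ∑ j, z.m j * (ψ (z.γ j (z.b j)) - ψ (z.γ j (z.a j))) = 0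

end PChain

/-- The complex 1-form `dz / (z - p)`. -/
noncomputable def ang (p x : Plane) : Plane →L[ℝ] ℂ := (toC (x - p))⁻¹ • toCL

/-- The winding number of the chain around `p`. -/
noncomputable def PChain.wnd {J : Type} [Fintype J] (z : PChain J) (p : Plane) : ℝ :=
  (z.int (ang p)).im / (2 * Real.pi)

/-- The exterior derivative of a 1-form on the plane. -/
noncomputable def curl2 (θ : Plane → Plane →L[ℝ] ℝ) (x : Plane) : ℝ :=
  fderiv ℝ θ x (EuclideanSpace.single 0 1) (EuclideanSpace.single 1 1) -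
    fderiv ℝ θ x (EuclideanSpace.single 1 1) (EuclideanSpace.single 0 1)

/-- The operator `∂_0 + i ∂_1`. -/
noncomputable def dbar (g : Plane → ℂ) (x : Plane) : ℂ :=
  fderiv ℝ g x (EuclideanSpace.single 0 1) + Complex.I * fderiv ℝ g x (EuclideanSpace.single 1 1)

/-! ### Vector calculus in space -/

/-- The divergence. -/
noncomputable def div3 (V : Space → Space) (r : Space) : ℝ :=
  ∑ i, fderiv ℝ V r (EuclideanSpace.single i 1) i

/-- The curl. -/
noncomputable def curl3 (A : Space → Space) (r : Space) : Space :=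
  !₂[fderiv ℝ A r (EuclideanSpace.single 1 1) 2 - fderiv ℝ A r (EuclideanSpace.single 2 1) 1,
    fderiv ℝ A r (EuclideanSpace.single 2 1) 0 - fderiv ℝ A r (EuclideanSpace.single 0 1) 2,
    fderiv ℝ A r (EuclideanSpace.single 0 1) 1 - fderiv ℝ A r (EuclideanSpace.single 1 1) 0]

/-- The field `(r - p) / |r - p|^3`. -/
noncomputable def newt (p r : Space) : Space := (‖r - p‖ ^ 3)⁻¹ • (r - p)

/-- The segment from `a` to `b` smeared out with `ρ`, as a vector field. -/
noncomputable def segField (ρ : Space → ℝ) (a b r : Space) : Space :=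
  (∫ t in (0 : ℝ)..1, ρ (r - a - t • (b - a))) • (b - a)

/-- `ρ` is a normalised bump function of radius `ε`, `E p` a smooth field with divergence
`ρ (r - p)` which agrees with `newt p` outside the ball of radius `ε` about `p`. -/
structure Bump3 (ε : ℝ) (ρ : Space → ℝ) (E : Space → Space → Space) : Prop where
  smooth : ContDiff ℝ ∞ ρ
  nonneg : ∀ v, 0 ≤ ρ v
  pos : ∀ v, ‖v‖ < ε → 0 < ρ v
  zero : ∀ v, ε ≤ ‖v‖ → ρ v = 0
  smoothE : ∀ p, ContDiff ℝ ∞ (E p)
  divE : ∀ p r, div3 (E p) r = ρ (r - p)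
  eqE : ∀ p r, ε ≤ ‖r - p‖ → E p r = newt p r

/-- The pull back of the 1-form `⟨A, dr⟩` to the plane. -/
noncomputable def pull1 (f : Plane → Space) (A : Space → Space) (x : Plane) : Plane →L[ℝ] ℝ :=
  (innerSL ℝ (A (f x))).comp (fderiv ℝ f x)

/-- The flux of `V` through the disc with weight the winding number of `z`. -/
noncomputable def PChain.flux {J : Type} [Fintype J] (z : PChain J) (f : Plane → Space)
    (V : Space → Space) : ℝ :=
  ∫ y in closedBall (0 : Plane) 1, z.wnd y * inner ℝ (V (f y)) (nvec f y)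

/-- The setting for the fluxes: a smooth map `f` of the plane to space and a cycle of curves in the
closed disc over which all pull backs of 1-forms have integral zero. -/
structure Setting {J : Type} [Fintype J] (f : Plane → Space) (z : PChain J) : Prop where
  smooth : ContDiff ℝ ∞ f
  cycle : z.IsCycle
  sub : z.supp ⊆ closedBall (0 : Plane) 1
  pull : ∀ A : Space → Space, Continuous A → z.int (pull1 f A) = 0

end Pool.Agent.Lib_MP_752436_ch
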