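import Pool.Agent.Lib_MP_752436_ch.Defs

/-!
Piece C2: smeared out point sources and segments.
-/

open MeasureTheory Metric Set Filter
open scoped ContDiff Topology

namespace Pool.Agent.Lib_MP_752436_ch

open Pool.Agent.Lib_MP_752436_gt Pool.Agent.Lib_MP_752436_tp Pool.Agent.Lib_MP_752436_rb

/-! ### Differentiation of parameter integrals -/

private theorem Fields_partial {G : Type} [NormedAddCommGroup G] [NormedSpace ℝ G]
    {F : Space → ℝ → G} (hF : ContDiff ℝ ∞ (fun p : Space × ℝ => F p.1 p.2)) (r : Space) (s : ℝ) :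
    HasFDerivAt (fun r => F r s)
      ((fderiv ℝ (fun p : Space × ℝ => F p.1 p.2) (r, s)).comp
        (ContinuousLinearMap.inl ℝ Space ℝ)) r := by
  have h1 : HasFDerivAt (fun p : Space × ℝ => F p.1 p.2)
      (fderiv ℝ (fun p : Space × ℝ => F p.1 p.2) (r, s)) (r, s) :=
    (hF.differentiable (by simp) _).hasFDerivAt
  have h2 : HasFDerivAt (fun r : Space => (r, s)) (ContinuousLinearMap.inl ℝ Space ℝ) r :=
    hasFDerivAt_prodMk_left r s
  exact h1.comp r h2

private theorem Fields_smooth' {G : Type} [NormedAddCommGroup G] [NormedSpace ℝ G]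
    {F : Space → ℝ → G} (hF : ContDiff ℝ ∞ (fun p : Space × ℝ => F p.1 p.2)) :
    ContDiff ℝ ∞ (fun p : Space × ℝ =>
      (fderiv ℝ (fun p : Space × ℝ => F p.1 p.2) (p.1, p.2)).comp
        (ContinuousLinearMap.inl ℝ Space ℝ)) := by
  have h1 : ContDiff ℝ ∞ (fderiv ℝ (fun p : Space × ℝ => F p.1 p.2)) :=
    hF.fderiv_right (by simp)
  exact h1.clm_comp contDiff_const

private theorem Fields_hasFDerivAt {G : Type} [NormedAddCommGroup G] [NormedSpace ℝ G]
    {F : Space → ℝ → G} (hF : ContDiff ℝ ∞ (fun p : Space × ℝ => F p.1 p.2)) (r : Space) :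
    HasFDerivAt (fun r => ∫ s in (0 : ℝ)..1, F r s)
      (∫ s in (0 : ℝ)..1, (fderiv ℝ (fun p : Space × ℝ => F p.1 p.2) (r, s)).comp
          (ContinuousLinearMap.inl ℝ Space ℝ)) r := by
  have hc := (Fields_smooth' hF).continuous
  have hcF : Continuous (fun p : Space × ℝ => F p.1 p.2) := hF.continuous
  obtain ⟨C, hC⟩ := (((isCompact_closedBall r 1).prod
    (isCompact_Icc (a := (0 : ℝ)) (b := 1))).exists_bound_of_continuousOn hc.continuousOn)
  apply intervalIntegral.hasFDerivAt_integral_of_dominated_of_fderiv_le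
    (bound := fun _ => C) (s := closedBall r 1)
    (F' := fun (r : Space) (s : ℝ) => (fderiv ℝ (fun p : Space × ℝ => F p.1 p.2) (r, s)).comp
          (ContinuousLinearMap.inl ℝ Space ℝ))
    (closedBall_mem_nhds r one_pos)
  · exact Eventually.of_forall fun x =>
      (hcF.comp (Continuous.prodMk_right x)).aestronglyMeasurable
  · exact (hcF.comp (Continuous.prodMk_right r)).intervalIntegrable _ _
  · exact (hc.comp (Continuous.prodMk_right r)).aestronglyMeasurable
  · refine Eventually.of_forall fun t ht x hx => ?_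
    rw [uIoc_of_le zero_le_one] at ht
    exact hC (x, t) ⟨hx, ht.1.le, ht.2⟩
  · exact intervalIntegrable_const
  · exact Eventually.of_forall fun t _ x _ => Fields_partial hF x t

private theorem Fields_contDiff_nat (n : ℕ) : ∀ (G : Type) [NormedAddCommGroup G]
    [NormedSpace ℝ G] (F : Space → ℝ → G), ContDiff ℝ ∞ (fun p : Space × ℝ => F p.1 p.2) →
    ContDiff ℝ n (fun r => ∫ s in (0 : ℝ)..1, F r s) := by
  induction n with
  | zero =>
    intro G _ _ F hF
    rw [Nat.cast_zero, contDiff_zero]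
    exact continuous_iff_continuousAt.2 fun r => (Fields_hasFDerivAt hF r).continuousAt
  | succ n ih =>
    intro G _ _ F hF
    rw [Nat.cast_succ, contDiff_succ_iff_hasFDerivAt]
    exact ⟨_, ih _ _ (Fields_smooth' hF), Fields_hasFDerivAt hF⟩

private theorem Fields_contDiff {G : Type} [NormedAddCommGroup G] [NormedSpace ℝ G]
    {F : Space → ℝ → G} (hF : ContDiff ℝ ∞ (fun p : Space × ℝ => F p.1 p.2)) :
    ContDiff ℝ ∞ (fun r => ∫ s in (0 : ℝ)..1, F r s) :=
  contDiff_infty.2 fun n => Fields_contDiff_nat n G F hF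

/-! ### The divergence -/

/-- The divergence of a product with a fixed vector. -/
private theorem Fields_div_smul_const {h : Space → ℝ} {r : Space} (hh : DifferentiableAt ℝ h r)
    (w : Space) : div3 (fun r => h r • w) r = fderiv ℝ h r w := by
  have h1 : HasFDerivAt (fun r => h r • w) ((fderiv ℝ h r).smulRight w) r :=
    hh.hasFDerivAt.smul_const w
  have hw : w = ∑ i, w i • (EuclideanSpace.single i (1 : ℝ) : Space) := by
    ext j
    simp [Fin.sum_univ_three]
    fin_cases j <;> simp
  unfold div3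
  rw [h1.fderiv]
  conv_rhs => rw [hw, map_sum]
  refine Finset.sum_congr rfl fun i _ => ?_
  simp [mul_comm]

/-- The divergence of `φ (r - p) • (r - p)`. -/
private theorem Fields_div_radial {φ : Space → ℝ} {p r : Space}
    (hφ : DifferentiableAt ℝ φ (r - p)) :
    div3 (fun r => φ (r - p) • (r - p)) r = 3 * φ (r - p) + fderiv ℝ φ (r - p) (r - p) := by
  have h0 : HasFDerivAt (fun r : Space => r - p) (ContinuousLinearMap.id ℝ Space) r :=
    (hasFDerivAt_id r).sub_const p
  have h2 : HasFDerivAt (fun r : Space => φ (r - p)) (fderiv ℝ φ (r - p)) r := by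
    have := HasFDerivAt.comp r (g := φ) (f := fun r : Space => r - p) hφ.hasFDerivAt h0
    rwa [ContinuousLinearMap.comp_id] at this
  have h1 : HasFDerivAt (fun r : Space => φ (r - p) • (r - p))
      (φ (r - p) • ContinuousLinearMap.id ℝ Space + (fderiv ℝ φ (r - p)).smulRight (r - p)) r :=
    h2.smul h0
  have hw : r - p = ∑ i, (r - p) i • (EuclideanSpace.single i (1 : ℝ) : Space) := by
    ext j
    simp [Fin.sum_univ_three]
    fin_cases j <;> simp
  have h3 : fderiv ℝ φ (r - p) (r - p) =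
      ∑ i, (r - p) i * fderiv ℝ φ (r - p) (EuclideanSpace.single i (1 : ℝ)) := by
    conv_lhs => rw [hw, map_sum]
    refine Finset.sum_congr rfl fun i _ => ?_
    rw [map_smul, smul_eq_mul, ← hw]
  unfold div3
  rw [h1.fderiv, h3, Fin.sum_univ_three, Fin.sum_univ_three]
  simp
  ring

theorem div3_sub {V W : Space → Space} (hV : ContDiff ℝ 1 V) (hW : ContDiff ℝ 1 W) (r : Space) :
    div3 (fun r => V r - W r) r = div3 V r - div3 W r := by
  have h1 : fderiv ℝ (fun r => V r - W r) r = fderiv ℝ V r - fderiv ℝ W r :=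
    fderiv_fun_sub (hV.differentiable one_ne_zero r) (hW.differentiable one_ne_zero r)
  unfold div3
  rw [h1, ← Finset.sum_sub_distrib]
  simp

/-! ### The bump function -/

/-- The profile. -/
private noncomputable def Fields_prof (ε u : ℝ) : ℝ := Real.smoothTransition (1 - u ^ 2 / ε ^ 2)

private theorem Fields_prof_smooth (ε : ℝ) : ContDiff ℝ ∞ (Fields_prof ε) := by
  unfold Fields_prof
  exact Real.smoothTransition.contDiff.comp
    (contDiff_const.sub ((contDiff_id.pow 2).div_const _))

private theorem Fields_prof_norm_smooth (ε : ℝ) :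
    ContDiff ℝ ∞ (fun v : Space => Fields_prof ε ‖v‖) := by
  unfold Fields_prof
  exact Real.smoothTransition.contDiff.comp
    (contDiff_const.sub ((contDiff_norm_sq ℝ).div_const _))

private theorem Fields_prof_pos {ε u : ℝ} (hε : 0 < ε) (hu : 0 ≤ u) (h : u < ε) :
    0 < Fields_prof ε u := by
  refine Real.smoothTransition.pos_of_pos ?_
  have h1 : u ^ 2 < ε ^ 2 := by nlinarith
  have h2 : u ^ 2 / ε ^ 2 < 1 := (div_lt_one (by positivity)).2 h1
  linarith

private theorem Fields_prof_zero {ε u : ℝ} (hε : 0 < ε) (h : ε ≤ u) : Fields_prof ε u = 0 := by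
  refine Real.smoothTransition.zero_of_nonpos ?_
  have h1 : ε ^ 2 ≤ u ^ 2 := by nlinarith
  have h2 : 1 ≤ u ^ 2 / ε ^ 2 := (one_le_div (by positivity)).2 h1
  linarith

private noncomputable def Fields_mass (ε : ℝ) : ℝ := ∫ u in (0 : ℝ)..ε, u ^ 2 * Fields_prof ε u

private theorem Fields_mass_pos {ε : ℝ} (hε : 0 < ε) : 0 < Fields_mass ε := by
  have hc : Continuous fun u : ℝ => u ^ 2 * Fields_prof ε u :=
    (continuous_pow 2).mul (Fields_prof_smooth ε).continuous
  refine intervalIntegral.intervalIntegral_pos_of_pos_on (hc.intervalIntegrable _ _) ?_ hε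
  intro u hu
  exact mul_pos (by have := hu.1; positivity) (Fields_prof_pos hε hu.1.le hu.2)

/-- The bump function. -/
private noncomputable def Fields_rho (ε : ℝ) (v : Space) : ℝ :=
  (Fields_mass ε)⁻¹ * Fields_prof ε ‖v‖

private theorem Fields_rho_smooth (ε : ℝ) : ContDiff ℝ ∞ (Fields_rho ε) :=
  contDiff_const.mul (Fields_prof_norm_smooth ε)

private noncomputable def Fields_phi (ε : ℝ) (v : Space) : ℝ :=
  ∫ s in (0 : ℝ)..1, s ^ 2 * Fields_rho ε (s • v)

private theorem Fields_phi_joint (ε : ℝ) :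
    ContDiff ℝ ∞ (fun p : Space × ℝ => p.2 ^ 2 * Fields_rho ε (p.2 • p.1)) :=
  (contDiff_snd.pow 2).mul ((Fields_rho_smooth ε).comp (contDiff_snd.smul contDiff_fst))

private theorem Fields_phi_smooth (ε : ℝ) : ContDiff ℝ ∞ (Fields_phi ε) :=
  Fields_contDiff (F := fun v s => s ^ 2 * Fields_rho ε (s • v)) (Fields_phi_joint ε)

private theorem Fields_phi_eq (ε : ℝ) (v : Space) :
    3 * Fields_phi ε v + fderiv ℝ (Fields_phi ε) v v = Fields_rho ε v := by
  have hj := Fields_phi_joint ε
  set F : Space → ℝ → ℝ := fun v s => s ^ 2 * Fields_rho ε (s • v) with hF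
  have hj' : ContDiff ℝ ∞ (fun p : Space × ℝ => F p.1 p.2) := hj
  have h1 : HasFDerivAt (Fields_phi ε) _ v := Fields_hasFDerivAt hj' v
  have hcc : Continuous fun s : ℝ => (fderiv ℝ (fun p : Space × ℝ => F p.1 p.2) (v, s)).comp
      (ContinuousLinearMap.inl ℝ Space ℝ) :=
    (Fields_smooth' hj').continuous.comp (Continuous.prodMk_right v)
  -- the derivative in the direction `v`
  have h2 : ∀ s : ℝ, ((fderiv ℝ (fun p : Space × ℝ => F p.1 p.2) (v, s)).comp
      (ContinuousLinearMap.inl ℝ Space ℝ)) v = s ^ 2 * (s * fderiv ℝ (Fields_rho ε) (s • v) v) := by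
    intro s
    have e1 := Fields_partial hj' v s
    have e2 : HasFDerivAt (fun v : Space => F v s)
        (s ^ 2 • ((fderiv ℝ (Fields_rho ε) (s • v)).comp
          (s • ContinuousLinearMap.id ℝ Space))) v := by
      have e3 : HasFDerivAt (fun v : Space => s • v) (s • ContinuousLinearMap.id ℝ Space) v :=
        (hasFDerivAt_id v).const_smul s
      have e4 : HasFDerivAt (Fields_rho ε) (fderiv ℝ (Fields_rho ε) (s • v)) (s • v) :=
        ((Fields_rho_smooth ε).differentiable (by simp) _).hasFDerivAt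
      exact (HasFDerivAt.comp v e4 e3).const_mul (s ^ 2)
    rw [e1.unique e2]
    simp
  have h3 : fderiv ℝ (Fields_phi ε) v v =
      ∫ s in (0 : ℝ)..1, s ^ 2 * (s * fderiv ℝ (Fields_rho ε) (s • v) v) := by
    rw [h1.fderiv, ContinuousLinearMap.intervalIntegral_apply (hcc.intervalIntegrable _ _)]
    exact intervalIntegral.integral_congr fun s _ => h2 s
  have hc1 : Continuous fun s : ℝ => Fields_rho ε (s • v) :=
    (Fields_rho_smooth ε).continuous.comp (continuous_id.smul continuous_const)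
  have hc2 : Continuous fun s : ℝ => fderiv ℝ (Fields_rho ε) (s • v) v :=
    ((((Fields_rho_smooth ε).continuous_fderiv (by simp)).comp
      (continuous_id.smul continuous_const)).clm_apply continuous_const)
  have h4 : ∀ s : ℝ, HasDerivAt (fun s : ℝ => s ^ 3 * Fields_rho ε (s • v))
      (3 * (s ^ 2 * Fields_rho ε (s • v)) + s ^ 2 * (s * fderiv ℝ (Fields_rho ε) (s • v) v)) s := by
    intro s
    have e1 : HasDerivAt (fun s : ℝ => s • v) v s := by
      simpa using (hasDerivAt_id s).smul_const v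
    have e2 : HasDerivAt (fun s : ℝ => Fields_rho ε (s • v))
        (fderiv ℝ (Fields_rho ε) (s • v) v) s :=
      (((Fields_rho_smooth ε).differentiable (by simp) _).hasFDerivAt).comp_hasDerivAt s e1
    have e3 := (hasDerivAt_pow 3 s).mul e2
    refine e3.congr_deriv ?_
    push_cast
    ring
  have h5 : ∫ s in (0 : ℝ)..1, (3 * (s ^ 2 * Fields_rho ε (s • v)) +
      s ^ 2 * (s * fderiv ℝ (Fields_rho ε) (s • v) v)) = Fields_rho ε v := by
    rw [intervalIntegral.integral_eq_sub_of_hasDerivAt (fun s _ => h4 s)]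
    · simp
    · refine Continuous.intervalIntegrable ?_ _ _
      fun_prop
  rw [intervalIntegral.integral_add, intervalIntegral.integral_const_mul] at h5
  · rw [h3]
    exact h5
  · refine Continuous.intervalIntegrable ?_ _ _
    fun_prop
  · refine Continuous.intervalIntegrable ?_ _ _
    fun_prop

private theorem Fields_phi_far {ε : ℝ} (hε : 0 < ε) {v : Space} (hv : ε ≤ ‖v‖) :
    Fields_phi ε v = (‖v‖ ^ 3)⁻¹ := by
  have hR : 0 < ‖v‖ := hε.trans_le hv
  have hc : Continuous fun u : ℝ => u ^ 2 * Fields_prof ε u :=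
    (continuous_pow 2).mul (Fields_prof_smooth ε).continuous
  have h1 : Fields_phi ε v = ∫ s in (0 : ℝ)..1, ((Fields_mass ε)⁻¹ * (‖v‖ ^ 2)⁻¹) *
      ((s * ‖v‖) ^ 2 * Fields_prof ε (s * ‖v‖)) := by
    refine intervalIntegral.integral_congr fun s hs => ?_
    rw [uIcc_of_le zero_le_one] at hs
    have e1 : ‖s • v‖ = s * ‖v‖ := by rw [norm_smul, Real.norm_eq_abs, abs_of_nonneg hs.1]
    simp only [Fields_rho, e1]
    field_simp
  have h2 : ∫ s in (0 : ℝ)..1, ((s * ‖v‖) ^ 2 * Fields_prof ε (s * ‖v‖)) =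
      ‖v‖⁻¹ * ∫ u in (0 : ℝ)..‖v‖, u ^ 2 * Fields_prof ε u := by
    rw [intervalIntegral.integral_comp_mul_right (fun u => u ^ 2 * Fields_prof ε u) hR.ne']
    simp
  have h3 : ∫ u in (0 : ℝ)..‖v‖, u ^ 2 * Fields_prof ε u = Fields_mass ε := by
    rw [← intervalIntegral.integral_add_adjacent_intervals (b := ε)
      (hc.intervalIntegrable _ _) (hc.intervalIntegrable _ _)]
    have e1 : ∫ u in ε..‖v‖, u ^ 2 * Fields_prof ε u = 0 := by
      refine intervalIntegral.integral_zero_ae (Eventually.of_forall fun u hu => ?_)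
      rw [uIoc_of_le hv] at hu
      rw [Fields_prof_zero hε hu.1.le, mul_zero]
    rw [e1, add_zero]
    rfl
  rw [h1, intervalIntegral.integral_const_mul, h2, h3]
  have := Fields_mass_pos hε
  field_simp

/-- `ρ v = k * smoothTransition (1 - |v|^2 / ε^2)`, normalised by `∫_0^ε s^2 ρ(s e) ds = 1`,
`E p r = ∫_0^1 s^2 ρ(s (r - p)) ds • (r - p)`. -/
theorem exists_bump3 {ε : ℝ} (hε : 0 < ε) : ∃ ρ E, Bump3 ε ρ E := by
  have hm := Fields_mass_pos hε
  refine ⟨Fields_rho ε, fun p r => Fields_phi ε (r - p) • (r - p), ?_⟩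
  refine
    { smooth := Fields_rho_smooth ε
      nonneg := fun v => mul_nonneg (inv_nonneg.2 hm.le) (Real.smoothTransition.nonneg _)
      pos := fun v hv => mul_pos (inv_pos.2 hm) (Fields_prof_pos hε (norm_nonneg v) hv)
      zero := fun v hv => by rw [Fields_rho, Fields_prof_zero hε hv, mul_zero]
      smoothE := fun p => ?_
      divE := fun p r => ?_
      eqE := fun p r h => ?_ }
  · exact ((Fields_phi_smooth ε).comp (contDiff_id.sub contDiff_const)).smul
      (contDiff_id.sub contDiff_const)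
  · rw [Fields_div_radial ((Fields_phi_smooth ε).differentiable (by simp) _), Fields_phi_eq]
  · simp only [newt]
    rw [Fields_phi_far hε h]

/-! ### Segments -/

private theorem Fields_seg_joint {ρ : Space → ℝ} (hρ : ContDiff ℝ ∞ ρ) (a b : Space) :
    ContDiff ℝ ∞ (fun p : Space × ℝ => ρ (p.1 - a - p.2 • (b - a))) :=
  hρ.comp ((contDiff_fst.sub contDiff_const).sub (contDiff_snd.smul contDiff_const))

theorem contDiff_segField {ρ : Space → ℝ} (hρ : ContDiff ℝ ∞ ρ) (a b : Space) :
    ContDiff ℝ ∞ (segField ρ a b) :=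
  (Fields_contDiff (F := fun r t => ρ (r - a - t • (b - a))) (Fields_seg_joint hρ a b)).smul
    contDiff_const

theorem div3_segField {ρ : Space → ℝ} (hρ : ContDiff ℝ ∞ ρ) (a b r : Space) :
    div3 (segField ρ a b) r = ρ (r - a) - ρ (r - b) := by
  have hj := Fields_seg_joint hρ a b
  set F : Space → ℝ → ℝ := fun r t => ρ (r - a - t • (b - a)) with hF
  have hj' : ContDiff ℝ ∞ (fun p : Space × ℝ => F p.1 p.2) := hj
  have hd := Fields_hasFDerivAt hj' r
  have hcc : Continuous fun s : ℝ => (fderiv ℝ (fun p : Space × ℝ => F p.1 p.2) (r, s)).comp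
      (ContinuousLinearMap.inl ℝ Space ℝ) :=
    (Fields_smooth' hj').continuous.comp (Continuous.prodMk_right r)
  have h0 : segField ρ a b = fun r => (∫ t in (0 : ℝ)..1, F r t) • (b - a) := rfl
  have h2 : ∀ s : ℝ, ((fderiv ℝ (fun p : Space × ℝ => F p.1 p.2) (r, s)).comp
      (ContinuousLinearMap.inl ℝ Space ℝ)) (b - a) =
        fderiv ℝ ρ (r - a - s • (b - a)) (b - a) := by
    intro s
    have e1 := Fields_partial hj' r s
    have e2 : HasFDerivAt (fun r : Space => F r s)
        ((fderiv ℝ ρ (r - a - s • (b - a))).comp (ContinuousLinearMap.id ℝ Space)) r := by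
      have e3 : HasFDerivAt (fun r : Space => r - a - s • (b - a))
          (ContinuousLinearMap.id ℝ Space) r :=
        ((hasFDerivAt_id r).sub_const a).sub_const _
      have e4 : HasFDerivAt ρ (fderiv ℝ ρ (r - a - s • (b - a))) (r - a - s • (b - a)) :=
        (hρ.differentiable (by simp) _).hasFDerivAt
      exact HasFDerivAt.comp r e4 e3
    rw [e1.unique e2]
    simp
  have h4 : ∀ s : ℝ, HasDerivAt (fun s : ℝ => ρ (r - a - s • (b - a)))
      (-(fderiv ℝ ρ (r - a - s • (b - a)) (b - a))) s := by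
    intro s
    have e1 : HasDerivAt (fun s : ℝ => r - a - s • (b - a)) (-(b - a)) s := by
      have := ((hasDerivAt_id s).smul_const (b - a)).const_sub (r - a)
      simpa using this
    have e2 := ((hρ.differentiable (by simp) (r - a - s • (b - a))).hasFDerivAt).comp_hasDerivAt
      s e1
    rw [map_neg] at e2
    exact e2
  have hc2 : Continuous fun s : ℝ => fderiv ℝ ρ (r - a - s • (b - a)) (b - a) := by
    have e1 : Continuous fun s : ℝ => r - a - s • (b - a) := by fun_prop
    exact ((hρ.continuous_fderiv (by simp)).comp e1).clm_apply continuous_const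
  have h5 : ∫ s in (0 : ℝ)..1, -(fderiv ℝ ρ (r - a - s • (b - a)) (b - a)) =
      ρ (r - b) - ρ (r - a) := by
    rw [intervalIntegral.integral_eq_sub_of_hasDerivAt (fun s _ => h4 s)
      (hc2.neg.intervalIntegrable _ _)]
    simp
  rw [h0, Fields_div_smul_const hd.differentiableAt, hd.fderiv,
    ContinuousLinearMap.intervalIntegral_apply (hcc.intervalIntegrable _ _)]
  rw [intervalIntegral.integral_neg] at h5
  have h6 : ∫ s in (0 : ℝ)..1, ((fderiv ℝ (fun p : Space × ℝ => F p.1 p.2) (r, s)).comp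
      (ContinuousLinearMap.inl ℝ Space ℝ)) (b - a) =
      ∫ s in (0 : ℝ)..1, fderiv ℝ ρ (r - a - s • (b - a)) (b - a) :=
    intervalIntegral.integral_congr fun s _ => h2 s
  rw [h6]
  linarith

theorem segField_eq_zero {ε : ℝ} {ρ : Space → ℝ} {E : Space → Space → Space}
    (hB : Bump3 ε ρ E) {a b r : Space}
    (h : ∀ t ∈ Icc (0 : ℝ) 1, ε ≤ ‖r - (a + t • (b - a))‖) : segField ρ a b r = 0 := by
  have h1 : ∫ t in (0 : ℝ)..1, ρ (r - a - t • (b - a)) = 0 := by
    refine intervalIntegral.integral_zero_ae (Eventually.of_forall fun t ht => ?_)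
    rw [uIoc_of_le zero_le_one] at ht
    refine hB.zero _ ?_
    have := h t ⟨ht.1.le, ht.2⟩
    rwa [sub_sub]
  rw [segField, h1, zero_smul]

end Pool.Agent.Lib_MP_752436_ch
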