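import Pool.Agent.Lib_MP_752436_ch.RibbonConn
import Pool.Agent.Lib_MP_752436_nb.RibbonIff

/-!
Piece E5: every ribbon immersion is the projection of a tame slice disc.
-/

open MeasureTheory Metric Set Filter
open scoped ContDiff Topology

namespace Pool.Agent.Lib_MP_752436_ch

open Pool.Agent.Lib_MP_752436_gt Pool.Agent.Lib_MP_752436_tp Pool.Agent.Lib_MP_752436_rb

/-- `R x y` if `x = α i s`, `y = β i s`. There is no trap, so `diagram_births` gives the disc. -/
theorem exists_tame_of_ribbonImmersion {f : Plane → Space} (hf : RibbonImmersion f) :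
    ∃ F, IsSliceDisc F ∧ Tame F ∧ ∀ x, shadow F x = f x := by
  obtain ⟨n, α, β, hpair, hdisj, hdouble⟩ := hf.singularities
  have hcα : ∀ i, Continuous (α i) := fun i => (hpair i).arcα.smooth.continuous
  have hcβ : ∀ i, Continuous (β i) := fun i => (hpair i).arcβ.smooth.continuous
  have hβD : ∀ i, ∀ s ∈ Icc (0 : ℝ) 1, β i s ∈ closedBall (0 : Plane) 1 := by
    intro i s hs
    rcases eq_or_lt_of_le hs.1 with h0 | h0
    · rw [← h0]
      exact sphere_subset_closedBall (hpair i).left
    rcases eq_or_lt_of_le hs.2 with h1 | h1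
    · rw [h1]
      exact sphere_subset_closedBall (hpair i).right
    · exact ball_subset_closedBall ((hpair i).proper s ⟨h0, h1⟩)
  have hαD : ∀ i, ∀ s ∈ Icc (0 : ℝ) 1, α i s ∈ closedBall (0 : Plane) 1 := fun i s hs =>
    ball_subset_closedBall ((hpair i).inside s hs)
  -- two double points over the same point of space belong to the same arc
  have hsame : ∀ i j, ∀ s ∈ Icc (0 : ℝ) 1, ∀ t ∈ Icc (0 : ℝ) 1, f (α i s) = f (α j t) →
      i = j := by
    intro i j s hs t ht h
    by_contra hne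
    exact Set.disjoint_left.1 (hdisj i j hne) ⟨s, hs, rfl⟩ ⟨t, ht, h.symm⟩
  -- upper points are not lower points
  have hno : ∀ i j, ∀ s ∈ Icc (0 : ℝ) 1, ∀ t ∈ Icc (0 : ℝ) 1, β i s ≠ α j t := by
    intro i j s hs t ht h
    have h1 : f (α i s) = f (α j t) := by
      rw [(hpair i).same s hs, h]
    have h2 := hsame i j s hs t ht h1
    subst h2
    exact Set.disjoint_left.1 (hpair i).disjoint ⟨t, ht, rfl⟩ ⟨s, hs, h⟩
  set R : Plane → Plane → Prop := fun x y => ∃ i, ∃ s ∈ Icc (0 : ℝ) 1, x = α i s ∧ y = β i s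
    with hRdef
  have hR : CrossingInfo f R := by
    refine ⟨?_, ?_, ?_⟩
    · have h1 : {p : Plane × Plane | R p.1 p.2} =
          ⋃ i, (fun s => (α i s, β i s)) '' Icc (0 : ℝ) 1 := by
        ext ⟨x, y⟩
        simp only [hRdef, mem_setOf_eq, mem_iUnion, mem_image, Prod.mk.injEq]
        constructor
        · rintro ⟨i, s, hs, h1, h2⟩
          exact ⟨i, s, hs, h1.symm, h2.symm⟩
        · rintro ⟨i, s, hs, h1, h2⟩
          exact ⟨i, s, hs, h1.symm, h2.symm⟩
      rw [h1]
      exact isClosed_iUnion_of_finite fun i =>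
        (isCompact_Icc.image ((hcα i).prodMk (hcβ i))).isClosed
    · rintro x y ⟨i, s, hs, rfl, rfl⟩
      exact ⟨(hpair i).inside s hs, hβD i s hs, fun h => hno i i s hs s hs h.symm,
        (hpair i).same s hs⟩
    · intro x hx y hy hxy hfxy
      obtain ⟨i, s, hs, h⟩ := hdouble x hx y hy hxy hfxy
      rcases h with ⟨h1, h2⟩ | ⟨h1, h2⟩
      · exact Or.inl ⟨i, s, hs, h1, h2⟩
      · exact Or.inr ⟨i, s, hs, h2, h1⟩
  -- no trap consists of upper points
  have htrap : ¬ ∃ Z, IsTrapOf R Z ∧ ∀ z ∈ Z, ∃ y, R z y := by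
    rintro ⟨Z, hZ, hZu⟩
    have hZne : Z ≠ univ := by
      intro h
      have h1 : (EuclideanSpace.single 0 2 : Plane) ∈ ball (0 : Plane) 1 :=
        hZ.sub (by rw [h]; exact mem_univ _)
      rw [mem_ball_zero_iff] at h1
      simp at h1
    obtain ⟨x, hx⟩ := nonempty_frontier_iff.2 ⟨hZ.nonempty, hZne⟩
    obtain ⟨y, hy, i, s, hs, -, h1⟩ := hZ.above x hx
    obtain ⟨w, j, t, ht, h2, -⟩ := hZu y hy
    exact hno i j s hs t ht (by rw [← h1, h2])
  obtain ⟨F, hF, hFf, hFR⟩ := exists_slice_lift_of_upper hf.smooth hf.immersion hR htrap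
  have hsh : shadow F = f := funext hFf
  have hmem : ∀ x y, (x, y) ∈ DoubleSet F ↔ R x y := by
    intro x y
    constructor
    · rintro ⟨hx, hy, hxy, hlt⟩
      simp only [hsh] at hx hy hxy hlt
      have hne : x ≠ y := by
        rintro rfl
        exact lt_irrefl _ hlt
      rcases hR.total x hx y hy hne hxy with h | h
      · exact h
      · exact absurd (hFR y x h) (not_lt.2 hlt.le)
    · intro h
      obtain ⟨h1, h2, -, h4⟩ := hR.double x y h
      refine ⟨ball_subset_closedBall h1, h2, ?_, hFR x y h⟩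
      simp only [hsh]
      exact h4
  have hnotriple : ∀ x y z, ¬ Triple F x y z := by
    rintro x y z ⟨h1, h2⟩
    obtain ⟨i, s, hs, -, h3⟩ := (hmem x y).1 h1
    obtain ⟨j, t, ht, h4, -⟩ := (hmem y z).1 h2
    exact hno i j s hs t ht (by rw [← h3, h4])
  refine ⟨F, hF, ⟨?_, ⟨n, fun i t => (α i t, β i t), ?_⟩, ?_, ?_⟩, hFf⟩
  · intro x hx u hu
    rw [dproj, hsh] at hu
    apply hf.immersion x hx
    rw [hu, map_zero]
  · refine ⟨fun i => ?_, fun i t ht => (hpair i).arcα.regular t ht, ?_, ?_, fun i =>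
      Or.inr ⟨(hpair i).left, (hpair i).right⟩⟩
    · exact ((hpair i).arcα.smooth.of_le (by simp)).prodMk ((hpair i).arcβ.smooth.of_le (by simp))
    · ext ⟨x, y⟩
      rw [hmem]
      simp only [hRdef, mem_iUnion, mem_image, Prod.mk.injEq]
      constructor
      · rintro ⟨i, s, hs, h1, h2⟩
        exact ⟨i, s, hs, h1.symm, h2.symm⟩
      · rintro ⟨i, s, hs, h1, h2⟩
        exact ⟨i, s, hs, h1.symm, h2.symm⟩
    · intro i j s hs t ht h
      have h1 : α i s = α j t := congrArg Prod.fst h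
      have h2 := hsame i j s hs t ht (by rw [h1])
      subst h2
      exact ⟨rfl, Or.inl ((hpair i).arcα.inj hs ht h1)⟩
  · have : {p : Plane × Plane × Plane | Triple F p.1 p.2.1 p.2.2} = ∅ :=
      eq_empty_iff_forall_notMem.2 fun p hp => hnotriple _ _ _ hp
    rw [this]
    exact finite_empty
  · intro x y z w h
    exact absurd h (hnotriple x y z)

end Pool.Agent.Lib_MP_752436_ch
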