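import Pool.Agent.Lib_MP_752436_ch.Main
import Pool.Agent.Lib_MP_752436_ch.RibbonTame

/-!
A knot is ribbon if and only if it bounds a slice disc whose projection does not separate space.
-/

open MeasureTheory Metric Set Filter
open scoped ContDiff Topology

namespace Pool.Agent.Lib_MP_752436_ch

open Pool.Agent.Lib_MP_752436_gt Pool.Agent.Lib_MP_752436_tp Pool.Agent.Lib_MP_752436_rb

theorem ribbon_iff_connected (K : Set Space) :
    IsRibbonKnot K ↔ ∃ F, IsSliceDisc F ∧ Tame F ∧ boundaryKnot F = K ∧
      IsConnected (shadow F '' closedBall (0 : Plane) 1)ᶜ := by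
  constructor
  · rintro ⟨f, hf, rfl⟩
    obtain ⟨F, hF, hT, hs⟩ := exists_tame_of_ribbonImmersion hf
    have hs' : shadow F = f := funext hs
    exact ⟨F, hF, hT, by rw [boundaryKnot, hs'], by rw [hs']; exact isConnected_compl_ribbon hf⟩
  · rintro ⟨F, hF, hT, rfl, hc⟩
    exact ribbon_of_connected hF hT hc

end Pool.Agent.Lib_MP_752436_ch
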