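import Pool.Agent.Lib_MP_752436_ch.Green
import Pool.Agent.Lib_MP_752436_ch.Curl

/-!
Piece C3: the flux of a divergence free field is zero.
-/

open MeasureTheory Metric Set Filter
open scoped ContDiff Topology

namespace Pool.Agent.Lib_MP_752436_ch

open Pool.Agent.Lib_MP_752436_gt Pool.Agent.Lib_MP_752436_tp Pool.Agent.Lib_MP_752436_rb

variable {J : Type} [Fintype J] {f : Plane → Space} {z : PChain J}

private theorem Flux_nvec (hf : ContDiff ℝ ∞ f) : Continuous (nvec f) := by
  have hp : ∀ i : Fin 2, Continuous (pd f i) := fun i =>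
    ((hf.fderiv_right (m := ∞) (by simp)).clm_apply contDiff_const).continuous
  have h0 := hp 0
  have h1 := hp 1
  unfold nvec cross
  apply (PiLp.continuous_toLp 2 (fun _ : Fin 3 => ℝ)).comp
  apply continuous_pi
  intro i
  fin_cases i <;> simp <;> fun_prop

/-- A bump function which is one on the ball of radius two. -/
private noncomputable def Flux_bump : ContDiffBump (0 : Plane) :=
  ⟨2, 3, by norm_num, by norm_num⟩

private theorem Flux_bump_one {x : Plane} (hx : x ∈ closedBall (0 : Plane) 1) :
    Flux_bump x = 1 :=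
  Flux_bump.one_of_mem_closedBall (closedBall_subset_closedBall (by
    show (1 : ℝ) ≤ 2
    norm_num) hx)

private theorem Flux_bump_near {x : Plane} (hx : x ∈ closedBall (0 : Plane) 1) :
    (Flux_bump : Plane → ℝ) =ᶠ[𝓝 x] 1 :=
  Flux_bump.eventuallyEq_one_of_mem_ball (by
    have h1 : dist x 0 ≤ 1 := hx
    show dist x 0 < 2
    linarith)

private theorem Flux_wnd (hs : Setting f z) :
    IntegrableOn z.wnd (closedBall (0 : Plane) 1) := by
  have h1 := (hs.cycle.integrable_wnd (h := Flux_bump) Flux_bump.continuous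
    Flux_bump.hasCompactSupport).integrableOn (s := closedBall (0 : Plane) 1)
  refine h1.congr_fun (fun y hy => ?_) measurableSet_closedBall
  show z.wnd y * Flux_bump y = z.wnd y
  rw [Flux_bump_one hy, mul_one]

theorem Setting.integrableOn_flux (hs : Setting f z) {V : Space → Space}
    (hV : ∀ y ∈ closedBall (0 : Plane) 1, ContinuousAt V (f y)) :
    IntegrableOn (fun y => z.wnd y * inner ℝ (V (f y)) (nvec f y)) (closedBall (0 : Plane) 1) := by
  refine (Flux_wnd hs).mul_continuousOn (fun y hy => ?_) (isCompact_closedBall _ _)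
  have h1 : ContinuousAt (fun y => V (f y)) y :=
    ContinuousAt.comp (f := f) (g := V) (hV y hy) hs.smooth.continuous.continuousAt
  exact (h1.inner (Flux_nvec hs.smooth).continuousAt).continuousWithinAt

theorem Setting.flux_zero (hs : Setting f z) {R : ℝ}
    (hR : ∀ y ∈ closedBall (0 : Plane) 1, f y ∈ ball (0 : Space) R) {V : Space → Space}
    (hV : ContDiff ℝ ∞ V) (hd : ∀ r ∈ ball (0 : Space) R, div3 V r = 0) : z.flux f V = 0 := by
  obtain ⟨A, hA, hcurl⟩ := exists_curl hV hd
  set θ : Plane → Plane →L[ℝ] ℝ := fun x => Flux_bump x • pull1 f A x with hθdef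
  have hθ : ContDiff ℝ 1 θ := Flux_bump.contDiff.smul (contDiff_pull1 hs.smooth hA)
  have hθc : HasCompactSupport θ := Flux_bump.hasCompactSupport.smul_right
  have h1 : z.int θ = 0 := by
    have h2 : z.int θ = z.int (pull1 f A) := by
      unfold PChain.int
      refine Finset.sum_congr rfl fun j _ => ?_
      congr 1
      refine intervalIntegral.integral_congr fun t ht => ?_
      rw [uIcc_of_le (hs.cycle.le j)] at ht
      have h3 : z.γ j t ∈ closedBall (0 : Plane) 1 :=
        hs.sub (mem_iUnion.mpr ⟨j, mem_image_of_mem _ ht⟩)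
      show (Flux_bump (z.γ j t) • pull1 f A (z.γ j t)) (deriv (z.γ j) t) =
        pull1 f A (z.γ j t) (deriv (z.γ j) t)
      rw [Flux_bump_one h3, one_smul]
    rw [h2]
    exact hs.pull A hA.continuous
  have h2 := hs.cycle.green hθ hθc
  rw [h1] at h2
  unfold PChain.flux
  rw [h2]
  have h3 : ∫ y in closedBall (0 : Plane) 1, z.wnd y * curl2 θ y = ∫ y, z.wnd y * curl2 θ y := by
    refine setIntegral_eq_integral_of_forall_compl_eq_zero fun y hy => ?_
    rw [hs.cycle.wnd_outside hs.sub hy, zero_mul]
  rw [← h3]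
  refine setIntegral_congr_fun measurableSet_closedBall fun y hy => ?_
  show z.wnd y * inner ℝ (V (f y)) (nvec f y) = z.wnd y * curl2 θ y
  congr 1
  have h4 : θ =ᶠ[𝓝 y] pull1 f A := by
    filter_upwards [Flux_bump_near hy] with x hx
    show Flux_bump x • pull1 f A x = pull1 f A x
    have hx' : Flux_bump x = 1 := hx
    rw [hx', one_smul]
  have h5 : curl2 θ y = curl2 (pull1 f A) y := by
    unfold curl2
    rw [h4.fderiv_eq]
  rw [h5, curl2_pull1 hs.smooth hA, hcurl _ (hR y hy)]

end Pool.Agent.Lib_MP_752436_ch
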