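import Pool.Agent.Lib_MP_752436_ch.Defs

/-!
Piece B2: integrals of exact forms over cycles, winding numbers.
-/

open MeasureTheory Metric Set Filter
open scoped ContDiff Topology

namespace Pool.Agent.Lib_MP_752436_ch

open Pool.Agent.Lib_MP_752436_gt Pool.Agent.Lib_MP_752436_tp Pool.Agent.Lib_MP_752436_rb

variable {J : Type} [Fintype J] {z : PChain J}

theorem toC_eq_toCL (x : Plane) : toC x = toCL x := rfl

theorem norm_toC (x : Plane) : ‖toC x‖ = ‖x‖ := by
  rw [EuclideanSpace.norm_eq, Complex.norm_eq_sqrt_sq_add_sq]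
  simp only [toC, Fin.sum_univ_two, Real.norm_eq_abs, sq_abs]

theorem PChain.IsCycle.isCompact_supp (hz : z.IsCycle) : IsCompact z.supp := by
  unfold PChain.supp
  exact isCompact_iUnion fun j => isCompact_Icc.image (hz.smooth j).continuous

/-- The image of a `C^1` curve is a null set. -/
private theorem winding_null {γ : ℝ → Plane} (hγ : ContDiff ℝ 1 γ) : volume (range γ) = 0 := by
  have h1 : range γ = (fun x : Plane => γ (x 0)) '' univ := by
    ext y
    constructor
    · rintro ⟨t, rfl⟩
      exact ⟨EuclideanSpace.single 0 t, mem_univ _, by simp⟩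
    · rintro ⟨x, -, rfl⟩
      exact ⟨x 0, rfl⟩
  rw [h1]
  set L : Plane →L[ℝ] ℝ := EuclideanSpace.proj (0 : Fin 2) with hL
  refine addHaar_image_eq_zero_of_det_fderivWithin_eq_zero (μ := volume)
    (f' := fun x => (ContinuousLinearMap.smulRight (1 : ℝ →L[ℝ] ℝ) (deriv γ (x 0))).comp L)
    (fun x _ => ?_) (fun x _ => ?_)
  · have h2 : HasDerivAt γ (deriv γ (x 0)) (x 0) :=
      ((hγ.differentiable (by norm_num)) (x 0)).hasDerivAt
    have h3 : HasFDerivAt (fun y : Plane => y 0) L x := L.hasFDerivAt
    exact (h2.hasFDerivAt.comp x h3).hasFDerivWithinAt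
  · by_contra hdet
    have h4 := (LinearMap.equivOfDetNeZero _ hdet).injective
    have h5 : (LinearMap.equivOfDetNeZero _ hdet) (EuclideanSpace.single 1 (1 : ℝ)) =
        (LinearMap.equivOfDetNeZero _ hdet) 0 := by
      rw [map_zero]
      show (ContinuousLinearMap.smulRight (1 : ℝ →L[ℝ] ℝ) (deriv γ (x 0)))
        (L (EuclideanSpace.single 1 (1 : ℝ))) = 0
      have h6 : L (EuclideanSpace.single 1 (1 : ℝ)) = 0 := by
        rw [hL]
        simp
      rw [h6, map_zero]
    have h7 := h4 h5
    have h8 := congrArg (fun y : Plane => y 1) h7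
    simp at h8

theorem PChain.IsCycle.volume_supp (hz : z.IsCycle) : volume z.supp = 0 := by
  unfold PChain.supp
  refine measure_iUnion_null fun j => ?_
  exact measure_mono_null (image_subset_range _ _) (winding_null (hz.smooth j))

/-- Vector valued functions. -/
private theorem winding_closed (hz : z.IsCycle) {E : Type*} [NormedAddCommGroup E]
    [NormedSpace ℝ E] (ψ : Plane → E) :
    ∑ j, z.m j • (ψ (z.γ j (z.b j)) - ψ (z.γ j (z.a j))) = 0 := by
  classical
  set P : Finset Plane := (Finset.univ.image fun j => z.γ j (z.b j)) ∪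
    (Finset.univ.image fun j => z.γ j (z.a j)) with hP
  have h1 : ∀ x ∈ P, ψ x = ∑ p ∈ P, (if p = x then (1 : ℝ) else 0) • ψ p := by
    intro x hx
    rw [Finset.sum_eq_single x]
    · rw [if_pos rfl, one_smul]
    · intro p _ hp
      rw [if_neg hp, zero_smul]
    · intro h
      exact absurd hx h
  have hb : ∀ j, z.γ j (z.b j) ∈ P := fun j =>
    Finset.mem_union_left _ (Finset.mem_image_of_mem _ (Finset.mem_univ j))
  have ha : ∀ j, z.γ j (z.a j) ∈ P := fun j =>
    Finset.mem_union_right _ (Finset.mem_image_of_mem _ (Finset.mem_univ j))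
  have h2 : ∀ j, z.m j • (ψ (z.γ j (z.b j)) - ψ (z.γ j (z.a j))) =
      ∑ p ∈ P, (z.m j * ((fun x => if p = x then (1 : ℝ) else 0) (z.γ j (z.b j)) -
        (fun x => if p = x then (1 : ℝ) else 0) (z.γ j (z.a j)))) • ψ p := by
    intro j
    rw [h1 _ (hb j), h1 _ (ha j), ← Finset.sum_sub_distrib, Finset.smul_sum]
    refine Finset.sum_congr rfl fun p _ => ?_
    rw [← sub_smul, smul_smul]
  rw [Finset.sum_congr rfl fun j _ => h2 j, Finset.sum_comm]
  refine Finset.sum_eq_zero fun p _ => ?_
  rw [← Finset.sum_smul, hz.closed (fun x => if p = x then (1 : ℝ) else 0), zero_smul]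

/-- The integral of an exact form over a cycle is zero. -/
theorem PChain.IsCycle.int_exact (hz : z.IsCycle) {E : Type*} [NormedAddCommGroup E]
    [NormedSpace ℝ E] [CompleteSpace E] {U : Set Plane} (hU : IsOpen U) (hs : z.supp ⊆ U)
    {ψ : Plane → E} (hψ : ContDiffOn ℝ 1 ψ U) : z.int (fderiv ℝ ψ) = 0 := by
  unfold PChain.int
  rw [← winding_closed hz ψ]
  refine Finset.sum_congr rfl fun j _ => ?_
  congr 1
  have hmem : ∀ t ∈ uIcc (z.a j) (z.b j), z.γ j t ∈ U := by
    intro t ht
    rw [uIcc_of_le (hz.le j)] at ht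
    exact hs (mem_iUnion.2 ⟨j, t, ht, rfl⟩)
  have hd : ContinuousOn (fderiv ℝ ψ) U := hψ.continuousOn_fderiv_of_isOpen hU le_rfl
  refine intervalIntegral.integral_eq_sub_of_hasDerivAt (f := fun t => ψ (z.γ j t))
    (fun t ht => ?_) (ContinuousOn.intervalIntegrable ?_)
  · have h1 : HasFDerivAt ψ (fderiv ℝ ψ (z.γ j t)) (z.γ j t) :=
      ((hψ.differentiableOn (by norm_num)).differentiableAt
        (hU.mem_nhds (hmem t ht))).hasFDerivAt
    exact h1.comp_hasDerivAt t (((hz.smooth j).differentiable (by norm_num)) t).hasDerivAt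
  · exact (hd.comp (hz.smooth j).continuous.continuousOn hmem).clm_apply
      ((hz.smooth j).continuous_deriv le_rfl).continuousOn

/-- Integrands which agree on the support. -/
private theorem winding_congr (hz : z.IsCycle) {E : Type*} [NormedAddCommGroup E]
    [NormedSpace ℝ E] {θ η : Plane → Plane →L[ℝ] E} (h : ∀ x ∈ z.supp, θ x = η x) :
    z.int θ = z.int η := by
  unfold PChain.int
  refine Finset.sum_congr rfl fun j _ => ?_
  congr 1
  refine intervalIntegral.integral_congr fun t ht => ?_
  rw [uIcc_of_le (hz.le j)] at ht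
  show θ (z.γ j t) _ = η (z.γ j t) _
  rw [h _ (mem_iUnion.2 ⟨j, t, ht, rfl⟩)]

private theorem winding_toC_ne {x p : Plane} (h : x ≠ p) : toC (x - p) ≠ 0 := by
  intro h0
  have h1 : ‖toC (x - p)‖ = 0 := by rw [h0, norm_zero]
  rw [norm_toC, norm_eq_zero, sub_eq_zero] at h1
  exact h h1

private theorem winding_ang_apply (p x v : Plane) : ang p x v = (toC (x - p))⁻¹ * toC v := rfl

private theorem winding_ang_cont {p : Plane} : ContinuousOn (ang p) {p}ᶜ := by
  unfold ang
  refine ContinuousOn.smul (ContinuousOn.inv₀ ?_ fun x hx => winding_toC_ne hx)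
    continuousOn_const
  exact (toCL.continuous.comp (continuous_id.sub continuous_const)).continuousOn

/-- The real part of the integral of `dz / (z - p)` is zero: it is the integral of
`d log |z - p|`. -/
theorem PChain.IsCycle.int_ang (hz : z.IsCycle) {p : Plane} (hp : p ∉ z.supp) :
    z.int (ang p) = Complex.I * (2 * Real.pi * z.wnd p : ℝ) := by
  have hsub : z.supp ⊆ ({p}ᶜ : Set Plane) := fun x hx h => hp (by
    have h' : x = p := h
    rwa [h'] at hx)
  set ψ : Plane → ℝ := fun x => Real.log ‖toC (x - p)‖ with hψ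
  have hfd : ∀ x ∈ ({p}ᶜ : Set Plane), HasFDerivAt ψ (Complex.reCLM.comp (ang p x)) x := by
    intro x hx
    have hne : toC (x - p) ≠ 0 := winding_toC_ne hx
    have h1 : HasFDerivAt (fun y : Plane => toC (y - p)) toCL x := by
      have := toCL.hasFDerivAt (x := x - p)
      exact this.comp x ((hasFDerivAt_id x).sub_const p)
    have h2 : ψ = fun y => (1 / 2 : ℝ) * Real.log (‖toC (y - p)‖ ^ 2) := by
      funext y
      show Real.log ‖toC (y - p)‖ = _
      rw [Real.log_pow]
      push_cast
      ring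
    rw [h2]
    have h3 : HasFDerivAt (fun y : Plane => ‖toC (y - p)‖ ^ 2)
        (2 • (innerSL ℝ (toC (x - p))).comp toCL) x := h1.norm_sq
    have h4 : ‖toC (x - p)‖ ^ 2 ≠ 0 := pow_ne_zero 2 (norm_ne_zero_iff.2 hne)
    have h5 := ((h3.log h4).const_mul (1 / 2 : ℝ))
    refine h5.congr_fderiv ?_
    ext v
    show (1 / 2 : ℝ) * ((‖toC (x - p)‖ ^ 2)⁻¹ * (2 • inner ℝ (toC (x - p)) (toC v))) =
      ((toC (x - p))⁻¹ * toC v).re
    set a := toC (x - p)
    set b := toC v
    rw [Complex.inner, Complex.inv_def, ← Complex.normSq_eq_norm_sq]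
    have h6 : Complex.normSq a ≠ 0 := fun h => hne (Complex.normSq_eq_zero.1 h)
    simp only [Complex.mul_re, Complex.conj_re, Complex.conj_im, Complex.mul_im,
      Complex.ofReal_re, Complex.ofReal_im, nsmul_eq_mul, Nat.cast_ofNat, mul_zero, sub_zero]
    field_simp
    try ring
  have hc : ContDiffOn ℝ 1 ψ ({p}ᶜ : Set Plane) := by
    intro x hx
    have hne : toC (x - p) ≠ 0 := winding_toC_ne hx
    have h1 : ContDiffAt ℝ 1 (fun y : Plane => toC (y - p)) x :=
      (toCL.contDiff.comp (contDiff_id.sub contDiff_const)).contDiffAt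
    exact ((h1.norm ℝ hne).log (norm_ne_zero_iff.2 hne)).contDiffWithinAt
  have h1 : z.int (fderiv ℝ ψ) = 0 := hz.int_exact isOpen_compl_singleton hsub hc
  have h2 : (z.int (ang p)).re = 0 := by
    rw [winding_congr hz fun x hx => (hfd x (hsub hx)).fderiv] at h1
    rw [← h1]
    unfold PChain.int
    rw [Complex.re_sum]
    refine Finset.sum_congr rfl fun j _ => ?_
    rw [Complex.smul_re]
    congr 1
    have hi : IntervalIntegrable (fun t => ang p (z.γ j t) (deriv (z.γ j) t)) volume (z.a j)
        (z.b j) := by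
      refine ContinuousOn.intervalIntegrable ?_
      refine (winding_ang_cont.comp (hz.smooth j).continuous.continuousOn fun t ht => ?_).clm_apply
        ((hz.smooth j).continuous_deriv le_rfl).continuousOn
      rw [uIcc_of_le (hz.le j)] at ht
      exact hsub (mem_iUnion.2 ⟨j, t, ht, rfl⟩)
    exact (Complex.reCLM.intervalIntegral_comp_comm hi).symm
  apply Complex.ext
  · rw [h2]
    simp
  · unfold PChain.wnd
    have h3 : (2 * Real.pi) ≠ 0 := by positivity
    rw [Complex.I_mul_im, Complex.ofReal_re, mul_div_cancel₀ _ h3]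

/-- The winding number is zero outside the closed disc: use `log (1 - z / p)`. -/
theorem PChain.IsCycle.wnd_outside (hz : z.IsCycle) (hs : z.supp ⊆ closedBall (0 : Plane) 1)
    {p : Plane} (hp : p ∉ closedBall (0 : Plane) 1) : z.wnd p = 0 := by
  have hp1 : 1 < ‖p‖ := by
    rw [mem_closedBall_zero_iff] at hp
    exact not_le.1 hp
  have hpc : toC p ≠ 0 := by
    intro h
    have h1 : ‖toC p‖ = 0 := by rw [h, norm_zero]
    rw [norm_toC] at h1
    linarith
  set ψ : Plane → ℂ := fun x => Complex.log (1 - toC x / toC p) with hψ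
  have hslit : ∀ x ∈ ball (0 : Plane) ‖p‖, 1 - toC x / toC p ∈ Complex.slitPlane := by
    intro x hx
    left
    rw [mem_ball_zero_iff] at hx
    have h1 : ‖toC x / toC p‖ < 1 := by
      rw [norm_div, norm_toC, norm_toC, div_lt_one (by linarith)]
      exact hx
    have h2 := (abs_le.1 (Complex.abs_re_le_norm (toC x / toC p))).2
    rw [Complex.sub_re, Complex.one_re]
    linarith
  have hsub : z.supp ⊆ ball (0 : Plane) ‖p‖ := by
    intro x hx
    have h1 := hs hx
    rw [mem_closedBall_zero_iff] at h1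
    rw [mem_ball_zero_iff]
    linarith
  have hin : ∀ x, HasFDerivAt (fun y : Plane => 1 - toC y / toC p) (-((toC p)⁻¹ • toCL)) x := by
    intro x
    have h1 : HasFDerivAt (fun y : Plane => (toC p)⁻¹ * toC y) ((toC p)⁻¹ • toCL) x :=
      (toCL.hasFDerivAt (x := x)).const_mul ((toC p)⁻¹)
    have h2 := h1.const_sub 1
    refine h2.congr_of_eventuallyEq (Eventually.of_forall fun y => ?_)
    show 1 - toC y / toC p = 1 - (toC p)⁻¹ * toC y
    rw [div_eq_inv_mul]
  have hc : ContDiffOn ℝ 1 ψ (ball (0 : Plane) ‖p‖) := by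
    intro x hx
    have h1 : ContDiffAt ℝ 1 (fun y : Plane => 1 - toC y / toC p) x := by
      have h2 : ContDiff ℝ 1 (fun y : Plane => 1 - toCL y / toC p) :=
        contDiff_const.sub (toCL.contDiff.div_const _)
      exact h2.contDiffAt
    have h2 : ContDiffAt ℝ 1 Complex.log (1 - toC x / toC p) :=
      (Complex.contDiffAt_log (hslit x hx)).restrict_scalars ℝ
    exact (h2.comp x h1).contDiffWithinAt
  have h1 : z.int (fderiv ℝ ψ) = 0 := hz.int_exact isOpen_ball hsub hc
  have h2 : z.int (fderiv ℝ ψ) = z.int (ang p) := by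
    refine winding_congr hz fun x hx => ?_
    have h3 : HasFDerivAt Complex.log
        (ContinuousLinearMap.smulRight (1 : ℂ →L[ℂ] ℂ) (1 - toC x / toC p)⁻¹)
        (1 - toC x / toC p) := (Complex.hasDerivAt_log (hslit x (hsub hx))).hasFDerivAt
    have h4 := (h3.restrictScalars ℝ).comp x (hin x)
    rw [show ψ = Complex.log ∘ (fun y : Plane => 1 - toC y / toC p) from rfl, h4.fderiv]
    ext v
    show -((toC p)⁻¹ * toC v) * (1 - toC x / toC p)⁻¹ = (toC (x - p))⁻¹ * toC v
    have h5 : toC (x - p) = toC x - toC p := by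
      apply Complex.ext <;> simp [toC]
    have h6 : 1 - toC x / toC p ≠ 0 := Complex.slitPlane_ne_zero (hslit x (hsub hx))
    have h7 : toC p - toC x ≠ 0 := by
      intro h
      apply h6
      rw [sub_eq_zero] at h
      rw [← h, div_self hpc, sub_self]
    have h8 : toC x - toC p ≠ 0 := by
      intro h
      apply h7
      rw [← neg_sub, h, neg_zero]
    rw [h5]
    field_simp
    ring
  unfold PChain.wnd
  rw [← h2, h1]
  simp

theorem PChain.IsCycle.continuousAt_wnd (hz : z.IsCycle) {p : Plane} (hp : p ∉ z.supp) :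
    ContinuousAt z.wnd p := by
  have hcl : IsClosed z.supp := hz.isCompact_supp.isClosed
  obtain ⟨δ, hδ, hball⟩ := Metric.isOpen_iff.1 hcl.isOpen_compl p hp
  have key : ContinuousAt (fun q => z.int (ang q)) p := by
    unfold PChain.int
    refine tendsto_finsetSum _ fun j _ => ?_
    refine Tendsto.const_smul ?_ _
    have hcont : Continuous (fun t => ‖deriv (z.γ j) t‖) :=
      ((hz.smooth j).continuous_deriv le_rfl).norm
    refine intervalIntegral.tendsto_integral_filter_of_dominated_convergence
      (fun t => (δ / 2)⁻¹ * ‖deriv (z.γ j) t‖) ?_ ?_ ?_ ?_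
    · filter_upwards [ball_mem_nhds p hδ] with q hq
      have hq' : q ∉ z.supp := hball hq
      refine ContinuousOn.aestronglyMeasurable ?_ measurableSet_uIoc
      refine (winding_ang_cont.comp (hz.smooth j).continuous.continuousOn fun t ht => ?_).clm_apply
        ((hz.smooth j).continuous_deriv le_rfl).continuousOn
      rw [uIoc_of_le (hz.le j)] at ht
      intro h
      have h' : z.γ j t = q := h
      exact hq' (h' ▸ mem_iUnion.2 ⟨j, t, Ioc_subset_Icc_self ht, rfl⟩)
    · filter_upwards [ball_mem_nhds p (half_pos hδ)] with q hq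
      refine Eventually.of_forall fun t ht => ?_
      rw [uIoc_of_le (hz.le j)] at ht
      have hx : z.γ j t ∈ z.supp := mem_iUnion.2 ⟨j, t, Ioc_subset_Icc_self ht, rfl⟩
      have h1 : δ ≤ dist (z.γ j t) p := by
        by_contra hlt
        exact hball (mem_ball.2 (not_le.1 hlt)) hx
      have h2 : δ / 2 ≤ ‖z.γ j t - q‖ := by
        rw [← dist_eq_norm]
        have h3 := dist_triangle (z.γ j t) q p
        rw [mem_ball] at hq
        linarith
      rw [winding_ang_apply, norm_mul, norm_inv, norm_toC, norm_toC]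
      have h4 : ‖z.γ j t - q‖⁻¹ ≤ (δ / 2)⁻¹ := inv_anti₀ (half_pos hδ) h2
      exact mul_le_mul_of_nonneg_right h4 (norm_nonneg _)
    · exact (continuous_const.mul hcont).intervalIntegrable _ _
    · refine Eventually.of_forall fun t ht => ?_
      rw [uIoc_of_le (hz.le j)] at ht
      have hx : z.γ j t ∈ z.supp := mem_iUnion.2 ⟨j, t, Ioc_subset_Icc_self ht, rfl⟩
      have hne : z.γ j t ≠ p := fun h => hp (h ▸ hx)
      have h1 : Continuous (fun q : Plane => toC (z.γ j t - q)) :=
        toCL.continuous.comp (continuous_const.sub continuous_id)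
      have h2 : ContinuousAt (fun q : Plane => (toC (z.γ j t - q))⁻¹ * toC (deriv (z.γ j) t)) p :=
        (h1.continuousAt.inv₀ (winding_toC_ne hne)).mul continuousAt_const
      exact h2
  unfold PChain.wnd
  exact (Complex.continuous_im.continuousAt.comp key).div_const _

end Pool.Agent.Lib_MP_752436_ch
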