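import Pool.Agent.Lib_MP_752436_ch.Pompeiu
import Pool.Agent.Lib_MP_752436_ch.Winding

/-!
Piece B3: Green's formula for cycles.
-/

open MeasureTheory Metric Set Filter
open scoped ContDiff Topology

namespace Pool.Agent.Lib_MP_752436_ch

open Pool.Agent.Lib_MP_752436_gt Pool.Agent.Lib_MP_752436_tp Pool.Agent.Lib_MP_752436_rb

variable {J : Type} [Fintype J] {z : PChain J}

private theorem Green_ang (y x v : Plane) : ang y x v = (toC (x - y))⁻¹ * toC v := by
  unfold ang
  rw [smul_apply, smul_eq_mul]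
  rfl

private theorem Green_norm (v : Plane) : ‖toC v‖ = ‖v‖ := norm_toC v

private theorem Green_contToC : Continuous toC := toCL.continuous

/-- The integrand of the double integral. -/
private theorem Green_meas {h : Plane → ℂ} (hh : Continuous h) {γ : ℝ → Plane}
    (hγ : ContDiff ℝ 1 γ) :
    Measurable (fun q : ℝ × Plane => h q.2 * ang q.2 (γ q.1) (deriv γ q.1)) := by
  have h0 : Continuous (deriv γ) := hγ.continuous_deriv le_rfl
  have h1 : Measurable (fun q : ℝ × Plane => toC (γ q.1 - q.2)) :=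
    (Green_contToC.comp ((hγ.continuous.comp continuous_fst).sub continuous_snd)).measurable
  have h2 : Measurable (fun q : ℝ × Plane => toC (deriv γ q.1)) :=
    (Green_contToC.comp (h0.comp continuous_fst)).measurable
  have h3 : Measurable (fun q : ℝ × Plane => h q.2) := (hh.comp continuous_snd).measurable
  have h4 : (fun q : ℝ × Plane => h q.2 * ang q.2 (γ q.1) (deriv γ q.1)) =
      fun q : ℝ × Plane => h q.2 * ((toC (γ q.1 - q.2))⁻¹ * toC (deriv γ q.1)) := by
    funext q
    rw [Green_ang]
  rw [h4]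
  exact h3.mul (h1.inv.mul h2)

private theorem Green_normF (h : Plane → ℂ) (y x v : Plane) :
    ‖h y * ang y x v‖ = ‖h y‖ / ‖x - y‖ * ‖v‖ := by
  rw [Green_ang, norm_mul, norm_mul, norm_inv, Green_norm, Green_norm]
  ring

private theorem Green_int {h : Plane → ℂ} (hh : Continuous h) (hc : HasCompactSupport h)
    {γ : ℝ → Plane} (hγ : ContDiff ℝ 1 γ) (a b : ℝ) :
    Integrable (fun q : ℝ × Plane => h q.2 * ang q.2 (γ q.1) (deriv γ q.1))
      ((volume.restrict (Ioc a b)).prod volume) := by
  have hm := Green_meas hh hγ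
  have hd : Continuous (deriv γ) := hγ.continuous_deriv le_rfl
  obtain ⟨C, hC⟩ := cauchy_integrable (h := fun y => ‖h y‖) hh.norm hc.norm
  obtain ⟨M, hM⟩ := (isCompact_Icc (a := a) (b := b)).exists_bound_of_continuousOn
    hd.continuousOn
  have h1 : ∀ t : ℝ, Integrable (fun y : Plane => h y * ang y (γ t) (deriv γ t)) := by
    intro t
    refine Integrable.mono' ((hC (γ t)).1.mul_const ‖deriv γ t‖) ?_ ?_
    · exact (hm.comp (measurable_const.prodMk measurable_id)).aestronglyMeasurable
    · refine Eventually.of_forall fun y => ?_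
      rw [Green_normF]
  refine (integrable_prod_iff hm.aestronglyMeasurable).mpr ⟨Eventually.of_forall h1, ?_⟩
  have h2 : AEStronglyMeasurable
      (fun t : ℝ => ∫ y : Plane, ‖h y * ang y (γ t) (deriv γ t)‖) (volume.restrict (Ioc a b)) :=
    (hm.norm.aestronglyMeasurable (μ := (volume.restrict (Ioc a b)).prod
      (volume : Measure Plane))).integral_prod_right'
  have hfin : Integrable (fun _ : ℝ => C * M) (volume.restrict (Ioc a b)) := by
    refine integrable_const_iff.mpr (Or.inr ?_)
    rw [isFiniteMeasure_restrict]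
    rw [Real.volume_Ioc]
    exact ENNReal.ofReal_ne_top
  refine Integrable.mono' hfin h2 ?_
  refine (ae_restrict_iff' measurableSet_Ioc).mpr (Eventually.of_forall fun t ht => ?_)
  have h3 : ∫ y : Plane, ‖h y * ang y (γ t) (deriv γ t)‖ =
      (∫ y : Plane, |‖h y‖| / ‖γ t - y‖) * ‖deriv γ t‖ := by
    rw [← integral_mul_const]
    refine integral_congr_ae (Eventually.of_forall fun y => ?_)
    show ‖h y * ang y (γ t) (deriv γ t)‖ = |‖h y‖| / ‖γ t - y‖ * ‖deriv γ t‖
    rw [Green_normF, abs_norm]
  rw [Real.norm_eq_abs, abs_of_nonneg (integral_nonneg fun y => norm_nonneg _), h3]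
  have hC0 : 0 ≤ ∫ y : Plane, |‖h y‖| / ‖γ t - y‖ :=
    integral_nonneg fun y => div_nonneg (abs_nonneg _) (norm_nonneg _)
  exact mul_le_mul (hC (γ t)).2 (hM t ⟨ht.1.le, ht.2⟩) (norm_nonneg _)
    (hC0.trans (hC (γ t)).2)

private theorem Green_intY (h : Plane → ℂ) {γ : ℝ → Plane} {a b : ℝ} (hab : a ≤ b) (y : Plane) :
    ∫ t in Ioc a b, h y * ang y (γ t) (deriv γ t) =
      h y * ∫ t in a..b, ang y (γ t) (deriv γ t) := by
  rw [intervalIntegral.integral_of_le hab]
  exact integral_const_mul (h y) _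

private theorem Green_mulInt (h : Plane → ℂ) (y : Plane) :
    h y * z.int (ang y) =
      ∑ j, z.m j • (h y * ∫ t in (z.a j)..(z.b j), ang y (z.γ j t) (deriv (z.γ j) t)) := by
  unfold PChain.int
  rw [Finset.mul_sum]
  refine Finset.sum_congr rfl fun j _ => ?_
  rw [mul_smul_comm]

/-- Fubini for the integral of the Cauchy kernel. -/
theorem PChain.IsCycle.fubini (hz : z.IsCycle) {h : Plane → ℂ} (hh : Continuous h)
    (hc : HasCompactSupport h) :
    Integrable (fun y => h y * z.int (ang y)) ∧
      z.int (fun x => (∫ y, h y / toC (x - y)) • toCL) = ∫ y, h y * z.int (ang y) := by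
  have hI : ∀ j, Integrable (fun y => z.m j •
      (h y * ∫ t in (z.a j)..(z.b j), ang y (z.γ j t) (deriv (z.γ j) t))) := by
    intro j
    have h1 := (Green_int hh hc (hz.smooth j) (z.a j) (z.b j)).integral_prod_right
    have h2 : (fun y : Plane => ∫ t in Ioc (z.a j) (z.b j),
        h y * ang y (z.γ j t) (deriv (z.γ j) t)) =
        fun y => h y * ∫ t in (z.a j)..(z.b j), ang y (z.γ j t) (deriv (z.γ j) t) := by
      funext y
      exact Green_intY h (hz.le j) y
    have h3 : Integrable (fun y : Plane => ∫ t in Ioc (z.a j) (z.b j),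
        h y * ang y (z.γ j t) (deriv (z.γ j) t)) := h1
    rw [h2] at h3
    exact h3.smul (z.m j)
  have hE : (fun y => h y * z.int (ang y)) = fun y => ∑ j, z.m j •
      (h y * ∫ t in (z.a j)..(z.b j), ang y (z.γ j t) (deriv (z.γ j) t)) := by
    funext y
    exact Green_mulInt h y
  refine ⟨?_, ?_⟩
  · rw [hE]
    exact integrable_finsetSum _ fun j _ => hI j
  · rw [hE, integral_finsetSum _ fun j _ => hI j]
    show ∑ j, z.m j • ∫ t in (z.a j)..(z.b j),
      ((∫ y, h y / toC (z.γ j t - y)) • toCL) (deriv (z.γ j) t) = _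
    refine Finset.sum_congr rfl fun j _ => ?_
    rw [integral_smul]
    congr 1
    rw [intervalIntegral.integral_of_le (hz.le j)]
    have h1 : ∀ t : ℝ, ((∫ y, h y / toC (z.γ j t - y)) • toCL) (deriv (z.γ j) t) =
        ∫ y, h y * ang y (z.γ j t) (deriv (z.γ j) t) := by
      intro t
      rw [smul_apply, smul_eq_mul, ← integral_mul_const]
      refine integral_congr_ae (Eventually.of_forall fun y => ?_)
      show h y / toC (z.γ j t - y) * toCL (deriv (z.γ j) t) =
        h y * ang y (z.γ j t) (deriv (z.γ j) t)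
      rw [Green_ang, div_eq_mul_inv, mul_assoc]
      rfl
    have h2 : ∫ t in Ioc (z.a j) (z.b j),
        ((∫ y, h y / toC (z.γ j t - y)) • toCL) (deriv (z.γ j) t) =
        ∫ t in Ioc (z.a j) (z.b j), ∫ y, h y * ang y (z.γ j t) (deriv (z.γ j) t) := by
      refine integral_congr_ae (Eventually.of_forall fun t => ?_)
      exact h1 t
    rw [h2]
    have h3 := integral_integral_swap
      (f := fun (t : ℝ) (y : Plane) => h y * ang y (z.γ j t) (deriv (z.γ j) t))
      (μ := volume.restrict (Ioc (z.a j) (z.b j))) (ν := (volume : Measure Plane))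
      (Green_int hh hc (hz.smooth j) (z.a j) (z.b j))
    rw [h3]
    refine integral_congr_ae (Eventually.of_forall fun y => ?_)
    exact Green_intY h (hz.le j) y

theorem PChain.IsCycle.integrable_wnd (hz : z.IsCycle) {h : Plane → ℝ} (hh : Continuous h)
    (hc : HasCompactSupport h) : Integrable (fun y => z.wnd y * h y) := by
  have h1 := (hz.fubini (h := fun y => (h y : ℂ)) (Complex.continuous_ofReal.comp hh)
    (hc.comp_left (g := fun r : ℝ => (r : ℂ)) Complex.ofReal_zero)).1
  have h2 := (Complex.imCLM.integrable_comp h1).div_const (2 * Real.pi)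
  have h3 : (fun y => z.wnd y * h y) =
      fun y => Complex.imCLM ((h y : ℂ) * z.int (ang y)) / (2 * Real.pi) := by
    funext y
    show (z.int (ang y)).im / (2 * Real.pi) * h y = ((h y : ℂ) * z.int (ang y)).im / (2 * Real.pi)
    rw [Complex.im_ofReal_mul]
    ring
  rw [h3]
  exact h2

/-- The complex number `P - i Q` of the covector `P dx + Q dy`. -/
private noncomputable def GreenG : (Plane →L[ℝ] ℝ) →L[ℝ] ℂ :=
  Complex.ofRealCLM.comp
      (ContinuousLinearMap.apply ℝ ℝ (EuclideanSpace.single (0 : Fin 2) (1 : ℝ))) -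
    Complex.I • Complex.ofRealCLM.comp
      (ContinuousLinearMap.apply ℝ ℝ (EuclideanSpace.single (1 : Fin 2) (1 : ℝ)))

private theorem GreenG_apply (L : Plane →L[ℝ] ℝ) :
    GreenG L = (L (EuclideanSpace.single 0 1) : ℂ) -
      Complex.I * (L (EuclideanSpace.single 1 1) : ℂ) := rfl

private theorem Green_basis (v : Plane) :
    v = v 0 • EuclideanSpace.single (0 : Fin 2) (1 : ℝ) +
      v 1 • EuclideanSpace.single (1 : Fin 2) (1 : ℝ) := by
  ext i
  fin_cases i <;> simp

private theorem Green_re (L : Plane →L[ℝ] ℝ) (v : Plane) : (GreenG L * toC v).re = L v := by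
  have h1 : L v = v 0 * L (EuclideanSpace.single 0 1) + v 1 * L (EuclideanSpace.single 1 1) := by
    conv_lhs => rw [Green_basis v]
    rw [map_add, map_smul, map_smul, smul_eq_mul, smul_eq_mul]
  rw [h1, GreenG_apply]
  simp [toC, Complex.mul_re]
  ring

private theorem Green_dbar {θ : Plane → Plane →L[ℝ] ℝ} (hθ : ContDiff ℝ 1 θ) (y : Plane) :
    (dbar (fun x => GreenG (θ x)) y).im = - curl2 θ y := by
  have h1 : HasFDerivAt θ (fderiv ℝ θ y) y :=
    ((hθ.differentiable one_ne_zero) y).hasFDerivAt
  have h2 : fderiv ℝ (fun x => GreenG (θ x)) y = GreenG.comp (fderiv ℝ θ y) :=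
    (GreenG.hasFDerivAt.comp y h1).fderiv
  unfold dbar curl2
  rw [h2]
  show (GreenG (fderiv ℝ θ y (EuclideanSpace.single 0 1)) +
    Complex.I * GreenG (fderiv ℝ θ y (EuclideanSpace.single 1 1))).im = _
  rw [GreenG_apply, GreenG_apply]
  simp
  ring

theorem PChain.IsCycle.green (hz : z.IsCycle) {θ : Plane → Plane →L[ℝ] ℝ} (hθ : ContDiff ℝ 1 θ)
    (hc : HasCompactSupport θ) : z.int θ = ∫ y, z.wnd y * curl2 θ y := by
  set g : Plane → ℂ := fun x => GreenG (θ x) with hg
  have hgc : ContDiff ℝ 1 g := GreenG.contDiff.comp hθ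
  have hgs : HasCompactSupport g := hc.comp_left (g := fun L => GreenG L) (map_zero GreenG)
  have hdc : Continuous (dbar g) := by
    have h1 : Continuous (fderiv ℝ g) := hgc.continuous_fderiv one_ne_zero
    exact (h1.clm_apply continuous_const).add (continuous_const.mul
      (h1.clm_apply continuous_const))
  have hds : HasCompactSupport (dbar g) := by
    have h1 : HasCompactSupport (fderiv ℝ g) := hgs.fderiv ℝ
    exact h1.comp_left (g := fun L : Plane →L[ℝ] ℂ => L (EuclideanSpace.single 0 1) +
      Complex.I * L (EuclideanSpace.single 1 1)) (by simp)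
  obtain ⟨hI, hF⟩ := hz.fubini hdc hds
  have hP : (fun x => (∫ y, dbar g y / toC (x - y)) • toCL) =
      fun x => ((2 * Real.pi : ℝ) : ℂ) • (g x • toCL) := by
    funext x
    rw [cauchy_pompeiu hgc hgs x, smul_smul]
    push_cast
    rfl
  rw [hP] at hF
  have h2 : (z.int (fun x => ((2 * Real.pi : ℝ) : ℂ) • (g x • toCL))).re =
      2 * Real.pi * z.int θ := by
    unfold PChain.int
    rw [Complex.re_sum, Finset.mul_sum]
    refine Finset.sum_congr rfl fun j _ => ?_
    rw [Complex.smul_re, smul_eq_mul, smul_eq_mul]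
    have hd : Continuous (deriv (z.γ j)) := (hz.smooth j).continuous_deriv le_rfl
    have hcont : Continuous (fun t => (((2 * Real.pi : ℝ) : ℂ) • (g (z.γ j t) • toCL))
        (deriv (z.γ j) t)) := by
      have e : (fun t => (((2 * Real.pi : ℝ) : ℂ) • (g (z.γ j t) • toCL)) (deriv (z.γ j) t)) =
          fun t => ((2 * Real.pi : ℝ) : ℂ) * (g (z.γ j t) * toC (deriv (z.γ j) t)) := by
        funext t
        rfl
      rw [e]
      exact continuous_const.mul ((hgc.continuous.comp (hz.smooth j).continuous).mul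
        (Green_contToC.comp hd))
    have h3 := Complex.reCLM.intervalIntegral_comp_comm
      (hcont.intervalIntegrable (μ := volume) (z.a j) (z.b j))
    have h4 : (∫ t in (z.a j)..(z.b j), (((2 * Real.pi : ℝ) : ℂ) • (g (z.γ j t) • toCL))
        (deriv (z.γ j) t)).re =
        ∫ t in (z.a j)..(z.b j), 2 * Real.pi * θ (z.γ j t) (deriv (z.γ j) t) := by
      refine h3.symm.trans ?_
      refine intervalIntegral.integral_congr fun t _ => ?_
      show (((2 * Real.pi : ℝ) : ℂ) * (GreenG (θ (z.γ j t)) * toC (deriv (z.γ j) t))).re = _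
      rw [Complex.re_ofReal_mul, Green_re]
    rw [h4, intervalIntegral.integral_const_mul]
    ring
  have h5 : (∫ y, dbar g y * z.int (ang y)).re = ∫ y, (dbar g y * z.int (ang y)).re :=
    (Complex.reCLM.integral_comp_comm hI).symm
  have h6 : ∫ y, (dbar g y * z.int (ang y)).re = 2 * Real.pi * ∫ y, z.wnd y * curl2 θ y := by
    rw [← integral_const_mul]
    have h7 : ∀ᵐ y : Plane, y ∉ z.supp := measure_eq_zero_iff_ae_notMem.mp hz.volume_supp
    refine integral_congr_ae (h7.mono fun y hy => ?_)
    show (dbar g y * z.int (ang y)).re = 2 * Real.pi * (z.wnd y * curl2 θ y)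
    rw [hz.int_ang hy]
    have h8 := Green_dbar hθ y
    have h9 : (dbar g y * (Complex.I * ((2 * Real.pi * z.wnd y : ℝ) : ℂ))).re =
        -((dbar g y).im * (2 * Real.pi * z.wnd y)) := by
      simp only [Complex.mul_re, Complex.mul_im, Complex.I_re, Complex.I_im, Complex.ofReal_re,
        Complex.ofReal_im]
      ring
    rw [h9]
    rw [hg, h8]
    ring
  have h10 : 2 * Real.pi * z.int θ = 2 * Real.pi * ∫ y, z.wnd y * curl2 θ y := by
    rw [← h2, hF, h5, h6]
  exact mul_left_cancel₀ (mul_ne_zero two_ne_zero Real.pi_ne_zero) h10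

end Pool.Agent.Lib_MP_752436_ch
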