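import Pool.Agent.Lib_MP_752436_ch.Potential
import Pool.Agent.Lib_MP_752436_tp.Field

/-!
Piece D2: if the potential vanishes off the surface, then so do the winding numbers.
-/

open MeasureTheory Metric Set Filter
open scoped ContDiff Topology

namespace Pool.Agent.Lib_MP_752436_ch

open Pool.Agent.Lib_MP_752436_gt Pool.Agent.Lib_MP_752436_tp Pool.Agent.Lib_MP_752436_rb

variable {J : Type} [Fintype J] {f : Plane → Space} {z : PChain J}

/-- The derivative is orthogonal to the normal vector. -/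
private theorem jump_orth (f : Plane → Space) (x u : Plane) :
    inner ℝ (nvec f x) (fderiv ℝ f x u) = 0 := by
  rw [fl_fderiv, inner_add_right, inner_smul_right, inner_smul_right]
  unfold nvec
  rw [fl_inner_cross_left, fl_inner_cross_right]
  ring

/-- The normal segment at a simple point meets the surface only in this point. -/
private theorem jump_simple (hf : ContDiff ℝ ∞ f) {q : Plane}
    (himm : Function.Injective (fderiv ℝ f q))
    (hs : ∀ y ∈ closedBall (0 : Plane) 1, f y = f q → y = q) :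
    ∃ r : ℝ, 0 < r ∧ ∀ s ∈ Ioo (-r) r, ∀ y ∈ closedBall (0 : Plane) 1,
      f q + s • nvec f q = f y → s = 0 := by
  set A : Plane →L[ℝ] Space := fderiv ℝ f q with hA
  set N : Space := nvec f q with hNdef
  have hN0 : N ≠ 0 := fl_nvec_ne himm
  let L : Plane × ℝ →L[ℝ] Space :=
    A.comp (ContinuousLinearMap.fst ℝ Plane ℝ) +
      (ContinuousLinearMap.snd ℝ Plane ℝ).smulRight N
  have hLapp : ∀ p : Plane × ℝ, L p = A p.1 + p.2 • N := fun p => by simp [L]
  have hLinj : Function.Injective L := by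
    rw [injective_iff_map_eq_zero]
    rintro ⟨u, t⟩ h
    rw [hLapp] at h
    have ht : t = 0 := by
      have h1 : inner ℝ N (A u + t • N) = 0 := by
        have : A (u, t).1 + (u, t).2 • N = A u + t • N := rfl
        rw [← this, h, inner_zero_right]
      rw [inner_add_right, inner_smul_right, jump_orth f q u, zero_add] at h1
      rcases mul_eq_zero.1 h1 with h2 | h2
      · exact h2
      · exact absurd (inner_self_eq_zero.1 h2) hN0
    subst ht
    simp only [zero_smul, add_zero] at h
    have : u = 0 := himm (by simpa using h)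
    simp [this]
  let e : (Plane × ℝ) ≃L[ℝ] Space :=
    (LinearMap.linearEquivOfInjective (L : Plane × ℝ →ₗ[ℝ] Space) hLinj
      (by simp)).toContinuousLinearEquiv
  have he : (e : Plane × ℝ →L[ℝ] Space) = L := ContinuousLinearMap.ext fun p => rfl
  set Ψ : Plane × ℝ → Space := fun p => f p.1 + p.2 • N with hΨ
  have hΨc : Continuous Ψ := (hf.continuous.comp continuous_fst).add
    (continuous_snd.smul continuous_const)
  have hd : HasStrictFDerivAt Ψ (e : Plane × ℝ →L[ℝ] Space) (q, 0) := by
    rw [he]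
    have h1 : HasStrictFDerivAt f A q := (hf.contDiffAt).hasStrictFDerivAt (by simp)
    have h2 : HasStrictFDerivAt (fun p : Plane × ℝ => f p.1)
        (A.comp (ContinuousLinearMap.fst ℝ Plane ℝ)) (q, 0) :=
      h1.comp (q, (0 : ℝ)) hasStrictFDerivAt_fst
    have h3 : HasStrictFDerivAt (fun p : Plane × ℝ => p.2 • N)
        ((ContinuousLinearMap.snd ℝ Plane ℝ).smulRight N) (q, 0) :=
      ((ContinuousLinearMap.snd ℝ Plane ℝ).smulRight N).hasStrictFDerivAt
    exact h2.add h3
  let Φ := hd.toOpenPartialHomeomorph Ψ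
  have hsrc : Φ.source ∈ 𝓝 ((q, 0) : Plane × ℝ) :=
    Φ.open_source.mem_nhds hd.mem_toOpenPartialHomeomorph_source
  have hbox : ∀ W ∈ 𝓝 ((q, 0) : Plane × ℝ), ∃ r > 0, ball q r ×ˢ Ioo (-r) r ⊆ W := by
    intro W hW
    obtain ⟨r, hr, hrW⟩ := Metric.mem_nhds_iff.1 hW
    refine ⟨r, hr, ?_⟩
    rintro ⟨x, s⟩ ⟨hx, hs'⟩
    apply hrW
    rw [mem_ball, Prod.dist_eq, max_lt_iff]
    refine ⟨hx, ?_⟩
    simp only [Real.dist_eq, sub_zero, abs_lt]
    exact hs'
  obtain ⟨r1, hr1, hbox1⟩ := hbox _ hsrc
  have hK : IsCompact (f '' (closedBall (0 : Plane) 1 \ ball q r1)) :=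
    ((isCompact_closedBall _ _).diff isOpen_ball).image hf.continuous
  have hqK : Ψ (q, 0) ∉ f '' (closedBall (0 : Plane) 1 \ ball q r1) := by
    rintro ⟨y, ⟨hy, hy'⟩, hyq⟩
    apply hy'
    have : f y = f q := by simpa [hΨ] using hyq
    rw [hs y hy this]
    exact mem_ball_self hr1
  have hW2 : Ψ ⁻¹' (f '' (closedBall (0 : Plane) 1 \ ball q r1))ᶜ ∈ 𝓝 ((q, 0) : Plane × ℝ) :=
    (hK.isClosed.isOpen_compl.preimage hΨc).mem_nhds hqK
  obtain ⟨r2, hr2, hbox2⟩ := hbox _ hW2
  refine ⟨min r1 r2, lt_min hr1 hr2, ?_⟩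
  intro s hs' y hy hxy
  have hs1 : s ∈ Ioo (-r1) r1 := Ioo_subset_Ioo (neg_le_neg (min_le_left _ _)) (min_le_left _ _) hs'
  have hs2 : s ∈ Ioo (-r2) r2 :=
    Ioo_subset_Ioo (neg_le_neg (min_le_right _ _)) (min_le_right _ _) hs'
  have hmem1 : (q, s) ∈ Φ.source := hbox1 ⟨mem_ball_self hr1, hs1⟩
  have hmem2 : Ψ (q, s) ∉ f '' (closedBall (0 : Plane) 1 \ ball q r1) :=
    hbox2 ⟨mem_ball_self hr2, hs2⟩
  have hy1 : y ∈ ball q r1 := by
    by_contra hy'
    exact hmem2 ⟨y, ⟨hy, hy'⟩, hxy.symm⟩
  have hmem3 : ((y, 0) : Plane × ℝ) ∈ Φ.source := hbox1 ⟨hy1, by simp [hr1]⟩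
  have := Φ.injOn hmem1 hmem3 (show Ψ (q, s) = Ψ (y, 0) by simpa [hΨ] using hxy)
  exact congrArg Prod.snd this

/-- `q` is not a double point: the points `f q ± δ N` are off the surface for small `δ`, and the
smeared out segment between them meets the surface only near `q`, with positive density. -/
theorem Setting.wnd_eq_zero (hs : Setting f z)
    (h0 : ∀ p ∉ f '' closedBall (0 : Plane) 1, z.flux f (newt p) = 0) {q : Plane}
    (hq : q ∈ ball (0 : Plane) 1) (hsimple : ∀ y ∈ closedBall (0 : Plane) 1, f y = f q → y = q)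
    (himm : Function.Injective (fderiv ℝ f q)) (hsupp : q ∉ z.supp) : z.wnd q = 0 := by
  by_contra hw
  set w : ℝ := z.wnd q with hwdef
  set N : Space := nvec f q with hNdef
  have hN0 : N ≠ 0 := fl_nvec_ne himm
  have hnc : Continuous (nvec f) := (contDiff_nvec' hs.smooth).continuous
  have hfc : Continuous f := hs.smooth.continuous
  have hwc : ContinuousAt z.wnd q := hs.cycle.continuousAt_wnd hsupp
  -- positivity near `q`
  have hpos1 : ∀ᶠ y in 𝓝 q, 0 < w * z.wnd y := by
    have h1 : ContinuousAt (fun y => w * z.wnd y) q := continuousAt_const.mul hwc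
    refine h1.eventually (lt_mem_nhds ?_)
    show 0 < w * z.wnd q
    rw [← hwdef]
    exact mul_self_pos.2 hw
  have hpos2 : ∀ᶠ y in 𝓝 q, 0 < inner ℝ N (nvec f y) := by
    have h1 : ContinuousAt (fun y => inner ℝ N (nvec f y)) q :=
      (continuous_const.inner hnc).continuousAt
    refine h1.eventually (lt_mem_nhds ?_)
    show 0 < inner ℝ N (nvec f q)
    rw [← hNdef, real_inner_self_eq_norm_sq]
    positivity
  obtain ⟨r, hr, hrball⟩ := Metric.mem_nhds_iff.1 (hpos1.and hpos2)
  -- the far part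
  have hKc : IsCompact (closedBall (0 : Plane) 1 \ ball q r) :=
    (isCompact_closedBall _ _).diff isOpen_ball
  have hKcl : IsClosed (f '' (closedBall (0 : Plane) 1 \ ball q r)) := (hKc.image hfc).isClosed
  have hqK : f q ∉ f '' (closedBall (0 : Plane) 1 \ ball q r) := by
    rintro ⟨y, ⟨hy, hy'⟩, hyq⟩
    apply hy'
    rw [hsimple y hy hyq]
    exact mem_ball_self hr
  obtain ⟨η, hη, hηball⟩ := Metric.mem_nhds_iff.1 (hKcl.isOpen_compl.mem_nhds hqK)
  have hfar : ∀ y ∈ closedBall (0 : Plane) 1, y ∉ ball q r → η ≤ ‖f y - f q‖ := by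
    intro y hy hyr
    by_contra hlt
    have : f y ∈ ball (f q) η := by
      rw [mem_ball, dist_eq_norm]
      exact not_le.1 hlt
    exact hηball this ⟨y, ⟨hy, hyr⟩, rfl⟩
  -- the segment
  obtain ⟨r0, hr0, hseg⟩ := jump_simple hs.smooth himm hsimple
  obtain ⟨δ, hδ, hδr, hδN⟩ : ∃ δ : ℝ, 0 < δ ∧ δ < r0 ∧ δ * ‖N‖ < η / 2 := by
    have hNpos : 0 < ‖N‖ := norm_pos_iff.2 hN0
    refine ⟨min (r0 / 2) (η / (4 * ‖N‖)), lt_min (by positivity) (by positivity), ?_, ?_⟩
    · exact (min_le_left _ _).trans_lt (by linarith)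
    · calc min (r0 / 2) (η / (4 * ‖N‖)) * ‖N‖ ≤ η / (4 * ‖N‖) * ‖N‖ :=
            mul_le_mul_of_nonneg_right (min_le_right _ _) hNpos.le
        _ = η / 4 := by field_simp
        _ < η / 2 := by linarith
  set a : Space := f q + (-δ) • N with ha
  set b : Space := f q + δ • N with hb
  have haoff : a ∉ f '' closedBall (0 : Plane) 1 := by
    rintro ⟨y, hy, hya⟩
    have := hseg (-δ) ⟨by linarith, by linarith⟩ y hy hya.symm
    linarith
  have hboff : b ∉ f '' closedBall (0 : Plane) 1 := by
    rintro ⟨y, hy, hya⟩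
    have := hseg δ ⟨by linarith, by linarith⟩ y hy hya.symm
    linarith
  have hScl : IsClosed (f '' closedBall (0 : Plane) 1) :=
    ((isCompact_closedBall 0 1).image hfc).isClosed
  have hdist : ∀ p ∉ f '' closedBall (0 : Plane) 1, ∃ ε > 0, ∀ y ∈ closedBall (0 : Plane) 1,
      ε ≤ ‖f y - p‖ := by
    intro p hp
    obtain ⟨ε, hε, hball⟩ := Metric.mem_nhds_iff.1 (hScl.isOpen_compl.mem_nhds hp)
    refine ⟨ε, hε, fun y hy => ?_⟩
    by_contra hlt
    have : f y ∈ ball p ε := by
      rw [mem_ball, dist_eq_norm]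
      exact not_le.1 hlt
    exact hball this ⟨y, hy, rfl⟩
  obtain ⟨ε1, hε1, hfa⟩ := hdist a haoff
  obtain ⟨ε2, hε2, hfb⟩ := hdist b hboff
  set ε : ℝ := min (min ε1 ε2) (η / 2) with hεdef
  have hε : 0 < ε := lt_min (lt_min hε1 hε2) (by positivity)
  obtain ⟨ρ, E, hB⟩ := exists_bump3 hε
  have hflux : z.flux f (segField ρ a b) = 0 := by
    rw [← hs.flux_newt_sub hε hB
      (fun y hy => (((min_le_left _ _).trans (min_le_left _ _)).trans (hfa y hy)))
      (fun y hy => (((min_le_left _ _).trans (min_le_right _ _)).trans (hfb y hy))),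
      h0 a haoff, h0 b hboff, sub_zero]
  have hba : b - a = (2 * δ) • N := by
    rw [ha, hb]
    module
  -- the density
  set c : Space → ℝ := fun p => ∫ t in (0 : ℝ)..1, ρ (p - a - t • (b - a)) with hc
  have hsf : ∀ p, segField ρ a b p = c p • (b - a) := fun p => rfl
  have hc0 : ∀ p, 0 ≤ c p := fun p =>
    intervalIntegral.integral_nonneg zero_le_one fun t _ => hB.nonneg _
  have hcq : 0 < c (f q) := by
    have hcont : Continuous fun t : ℝ => ρ (f q - a - t • (b - a)) :=
      hB.smooth.continuous.comp (continuous_const.sub (continuous_id.smul continuous_const))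
    refine intervalIntegral.integral_pos zero_lt_one hcont.continuousOn
      (fun t _ => hB.nonneg _) ⟨1 / 2, ⟨by norm_num, by norm_num⟩, ?_⟩
    refine hB.pos _ ?_
    have : f q - a - (1 / 2 : ℝ) • (b - a) = 0 := by
      rw [hba, ha]
      module
    rw [this, norm_zero]
    exact hε
  -- the integrand
  set G : Plane → ℝ := fun y => w * (z.wnd y * inner ℝ (segField ρ a b (f y)) (nvec f y)) with hG
  have hGeq : ∀ y, G y = (w * z.wnd y) * (c (f y) * (2 * δ * inner ℝ N (nvec f y))) := by
    intro y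
    rw [hG]
    show w * (z.wnd y * inner ℝ (segField ρ a b (f y)) (nvec f y)) = _
    rw [hsf, hba, inner_smul_left, inner_smul_left]
    simp only [conj_trivial]
    ring
  have hG0 : ∀ y ∈ closedBall (0 : Plane) 1, 0 ≤ G y := by
    intro y hy
    by_cases hyr : y ∈ ball q r
    · obtain ⟨h1, h2⟩ := hrball hyr
      rw [hGeq]
      exact mul_nonneg h1.le (mul_nonneg (hc0 _) (by positivity))
    · have hz : segField ρ a b (f y) = 0 := by
        refine segField_eq_zero hB fun t ht => ?_
        have h1 : a + t • (b - a) = f q + ((2 * t - 1) * δ) • N := by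
          rw [hba, ha]
          module
        have h2 : ‖((2 * t - 1) * δ) • N‖ ≤ δ * ‖N‖ := by
          rw [norm_smul, norm_mul, Real.norm_of_nonneg hδ.le]
          have h3 : ‖2 * t - 1‖ ≤ 1 := by
            rw [Real.norm_eq_abs, abs_le]
            constructor <;> linarith [ht.1, ht.2]
          have h4 : 0 ≤ δ * ‖N‖ := by positivity
          calc ‖2 * t - 1‖ * δ * ‖N‖ = ‖2 * t - 1‖ * (δ * ‖N‖) := by ring
            _ ≤ 1 * (δ * ‖N‖) := mul_le_mul_of_nonneg_right h3 h4
            _ = δ * ‖N‖ := one_mul _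
        have h5 : ‖f y - f q‖ ≤ ‖f y - (a + t • (b - a))‖ + ‖((2 * t - 1) * δ) • N‖ := by
          have h6 : f y - f q = (f y - (a + t • (b - a))) + ((2 * t - 1) * δ) • N := by
            rw [h1]
            abel
          calc ‖f y - f q‖ = ‖(f y - (a + t • (b - a))) + ((2 * t - 1) * δ) • N‖ := by rw [← h6]
            _ ≤ _ := norm_add_le _ _
        have h7 := hfar y hy hyr
        have h8 : ε ≤ η / 2 := min_le_right _ _
        linarith
      rw [hG]
      show 0 ≤ w * (z.wnd y * inner ℝ (segField ρ a b (f y)) (nvec f y))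
      rw [hz, inner_zero_left, mul_zero, mul_zero]
  have hGpos : ∀ᶠ y in 𝓝 q, 0 < G y := by
    have hcc : ContinuousAt (fun y => c (f y)) q := by
      have hjoint : Continuous fun p : Space × ℝ => ρ (p.1 - a - p.2 • (b - a)) :=
        hB.smooth.continuous.comp ((continuous_fst.sub continuous_const).sub
          (continuous_snd.smul continuous_const))
      have hcc' : Continuous c := by
        rw [hc]
        exact intervalIntegral.continuous_parametric_intervalIntegral_of_continuous'
          (f := fun p t => ρ (p - a - t • (b - a))) hjoint 0 1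
      exact (hcc'.comp hfc).continuousAt
    have h1 : ∀ᶠ y in 𝓝 q, 0 < c (f y) := hcc.eventually (lt_mem_nhds hcq)
    filter_upwards [h1, hpos1, hpos2] with y hy1 hy2 hy3
    rw [hGeq]
    positivity
  have hint : IntegrableOn G (closedBall (0 : Plane) 1) := by
    rw [hG]
    exact (hs.integrableOn_flux (V := segField ρ a b) fun y _ =>
      (contDiff_segField hB.smooth a b).continuous.continuousAt).const_mul w
  have hzero : ∫ y in closedBall (0 : Plane) 1, G y = 0 := by
    rw [hG, integral_const_mul]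
    have : ∫ y in closedBall (0 : Plane) 1,
        z.wnd y * inner ℝ (segField ρ a b (f y)) (nvec f y) = 0 := hflux
    rw [this, mul_zero]
  have hpos : 0 < ∫ y in closedBall (0 : Plane) 1, G y := by
    rw [setIntegral_pos_iff_support_of_nonneg_ae
      ((ae_restrict_iff' measurableSet_closedBall).2 (Eventually.of_forall hG0)) hint]
    obtain ⟨s, hs', hsball⟩ := Metric.mem_nhds_iff.1
      (hGpos.and (isOpen_ball.mem_nhds hq))
    refine (measure_ball_pos volume q hs').trans_le (measure_mono fun y hy => ?_)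
    obtain ⟨h1, h2⟩ := hsball hy
    exact ⟨h1.ne', ball_subset_closedBall h2⟩
  linarith

end Pool.Agent.Lib_MP_752436_ch
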