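import Pool.Agent.Lib_MP_752436_ch.Defs

/-!
Piece A3: every trap carries a cycle.
-/

open MeasureTheory Metric Set Filter
open scoped ContDiff Topology

namespace Pool.Agent.Lib_MP_752436_ch

open Pool.Agent.Lib_MP_752436_gt Pool.Agent.Lib_MP_752436_tp Pool.Agent.Lib_MP_752436_rb

/-- More vectors than dimensions. -/
theorem tc_relation {κ V : Type*} [Fintype κ] [AddCommGroup V] [Module ℝ V]
    (S : Finset κ) (v : κ → V) {ι : Type*} [Fintype ι] (u : ι → V)
    (hv : ∀ e ∈ S, v e ∈ Submodule.span ℝ (range u)) (hc : Fintype.card ι < S.card) :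
    ∃ n : κ → ℝ, n ≠ 0 ∧ (∀ e, n e ≠ 0 → e ∈ S) ∧ ∑ e, n e • v e = 0 := by
  classical
  have : Module.Finite ℝ (Submodule.span ℝ (range u)) :=
    Module.Finite.span_of_finite ℝ (finite_range u)
  have hdep : ¬ LinearIndependent ℝ (fun e : S => v e) := by
    intro hli
    have hli' : LinearIndependent ℝ
        (fun e : S => (⟨v e, hv e e.2⟩ : Submodule.span ℝ (range u))) := by
      rw [← LinearMap.linearIndependent_iff (Submodule.span ℝ (range u)).subtype
        (Submodule.ker_subtype _)]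
      exact hli
    have h1 := hli'.fintype_card_le_finrank
    have h2 := finrank_range_le_card (R := ℝ) u
    rw [Fintype.card_coe] at h1
    have h3 : Module.finrank ℝ (Submodule.span ℝ (range u)) ≤ Fintype.card ι := h2
    omega
  rw [Fintype.not_linearIndependent_iff] at hdep
  obtain ⟨g, hg, i, hi⟩ := hdep
  refine ⟨fun e => if h : e ∈ S then g ⟨e, h⟩ else 0, ?_, ?_, ?_⟩
  · intro h
    have := congrFun h i
    simp only [i.2, dite_true, Pi.zero_apply] at this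
    exact hi this
  · intro e he
    by_contra h
    simp [h] at he
  · rw [← hg, ← Finset.sum_subset (Finset.subset_univ S)]
    · rw [← Finset.sum_attach]
      refine Finset.sum_congr rfl fun e _ => ?_
      simp
    · intro e _ he
      simp [he]

/-- The functional of a pair of points: upper minus lower. -/
def tcv (P : Plane × Plane) : (Plane → ℝ) → ℝ := fun ψ => ψ P.1 - ψ P.2

section

variable {D : Set (Plane × Plane)} {Z : Set Plane}

/-- The trap together with the points above it. -/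
def tcZ (D : Set (Plane × Plane)) (Z : Set Plane) : Set Plane := Z ∪ {x | ∃ y ∈ Z, (x, y) ∈ D}

theorem tc_above_compact (hS : Strict D) (hZ : IsTrapOf (fun x y => (x, y) ∈ D) Z) :
    IsCompact {x : Plane | ∃ y ∈ Z, (x, y) ∈ D} := by
  have h : {x : Plane | ∃ y ∈ Z, (x, y) ∈ D} = Prod.fst '' (D ∩ Prod.snd ⁻¹' Z) := by
    ext x
    constructor
    · rintro ⟨y, hy, hxy⟩
      exact ⟨(x, y), ⟨hxy, hy⟩, rfl⟩
    · rintro ⟨⟨x', y⟩, ⟨hxy, hy⟩, rfl⟩
      exact ⟨y, hy, hxy⟩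
  rw [h]
  have h2 : IsClosed (Prod.snd ⁻¹' Z : Set (Plane × Plane)) :=
    hZ.compact.isClosed.preimage continuous_snd
  exact (hS.compact.inter_right h2).image continuous_fst

theorem tc_compact (hS : Strict D) (hZ : IsTrapOf (fun x y => (x, y) ∈ D) Z) :
    IsCompact (tcZ D Z) :=
  hZ.compact.union (tc_above_compact hS hZ)

theorem tc_sub (hS : Strict D) (hZ : IsTrapOf (fun x y => (x, y) ∈ D) Z) :
    tcZ D Z ⊆ ball (0 : Plane) 1 := by
  rintro x (hx | ⟨y, _, hxy⟩)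
  · exact hZ.sub hx
  · exact hS.fstMem (x, y) hxy

theorem tc_up (hS : Strict D) {x y : Plane} (hy : y ∈ tcZ D Z) (hxy : (x, y) ∈ D) :
    x ∈ tcZ D Z := by
  rcases hy with hy | ⟨z, hz, hyz⟩
  · exact Or.inr ⟨y, hy, hxy⟩
  · exact Or.inr ⟨z, hz, hS.trans _ _ _ hxy hyz⟩

theorem tc_frontier (hS : Strict D) (hZ : IsTrapOf (fun x y => (x, y) ∈ D) Z) {x : Plane}
    (hx : x ∈ frontier (tcZ D Z)) : ∃ y ∈ Z, (x, y) ∈ D := by
  have h1 := frontier_union_subset Z {x | ∃ y ∈ Z, (x, y) ∈ D} hx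
  rcases h1 with ⟨h1, _⟩ | ⟨_, h1⟩
  · exact hZ.above x h1
  · exact (tc_above_compact hS hZ).isClosed.frontier_subset h1

theorem tc_mem_cases (hS : Strict D) (hZ : IsTrapOf (fun x y => (x, y) ∈ D) Z) {x : Plane}
    (hx : x ∈ tcZ D Z) : x ∈ interior (tcZ D Z) ∨ ∃ y ∈ Z, (x, y) ∈ D := by
  by_cases h : x ∈ interior (tcZ D Z)
  · exact Or.inl h
  · refine Or.inr (tc_frontier hS hZ ?_)
    exact ⟨subset_closure hx, h⟩

theorem tc_bottom (hS : Strict D) (hZ : IsTrapOf (fun x y => (x, y) ∈ D) Z) {x y w : Plane}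
    (hxy : (x, y) ∈ D) (hyw : (y, w) ∈ D) (hw : w ∈ tcZ D Z) : w ∈ interior (tcZ D Z) := by
  rcases tc_mem_cases hS hZ hw with h | ⟨z, _, hz⟩
  · exact h
  · exact absurd hz (hS.noFour _ _ _ _ hxy hyw)

variable {κ : Type} {c : κ → ℝ → Plane × Plane} {a b : κ → ℝ}

theorem tc_inner (hS : Strict D) (hE : Edges c a b D) (hZ : IsTrapOf (fun x y => (x, y) ∈ D) Z)
    {e : κ} {t : ℝ} (ht : t ∈ Ioo (a e) (b e)) (h : (c e t).2 ∈ tcZ D Z) :
    (c e t).2 ∈ interior (tcZ D Z) ∧ (c e t).2 ∈ Z := by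
  have hno : ¬ ∃ y ∈ Z, ((c e t).2, y) ∈ D := by
    rintro ⟨y, _, hy⟩
    exact hE.inner e t ht ⟨hE.mem e t (Ioo_subset_Icc_self ht), y, Or.inl hy⟩
  constructor
  · rcases tc_mem_cases hS hZ h with h | h
    · exact h
    · exact absurd h hno
  · rcases h with h | h
    · exact h
    · exact absurd h hno

theorem tc_all (hS : Strict D) (hE : Edges c a b D) (hZ : IsTrapOf (fun x y => (x, y) ∈ D) Z)
    {e : κ} {t : ℝ} (ht : t ∈ Ioo (a e) (b e)) (h : (c e t).2 ∈ tcZ D Z) :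
    ∀ s ∈ Ioo (a e) (b e), (c e s).2 ∈ tcZ D Z := by
  have hcont : Continuous fun s => (c e s).2 := continuous_snd.comp (hE.smooth e).continuous
  have hpre : IsPreconnected (Ioo (a e) (b e)) := isPreconnected_Ioo
  by_contra hcon
  push Not at hcon
  obtain ⟨s, hs, hns⟩ := hcon
  have hu : IsOpen ((fun s => (c e s).2) ⁻¹' interior (tcZ D Z)) := isOpen_interior.preimage hcont
  have hv : IsOpen ((fun s => (c e s).2) ⁻¹' (tcZ D Z)ᶜ) :=
    (tc_compact hS hZ).isClosed.isOpen_compl.preimage hcont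
  obtain ⟨r, _, hr1, hr2⟩ := hpre _ _ hu hv (by
    intro r hr
    by_cases h : (c e r).2 ∈ tcZ D Z
    · exact Or.inl (tc_inner hS hE hZ hr h).1
    · exact Or.inr h) ⟨t, ht, (tc_inner hS hE hZ ht h).1⟩ ⟨s, hs, hns⟩
  exact hr2 (interior_subset hr1)

/-- An edge near a pair with lower point in the interior. -/
theorem tc_near (hS : Strict D) (hE : Edges c a b D) (hZ : IsTrapOf (fun x y => (x, y) ∈ D) Z)
    {e : κ} {t : ℝ} (ht : t ∈ Icc (a e) (b e)) (h : (c e t).2 ∈ interior (tcZ D Z)) :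
    ∀ s ∈ Ioo (a e) (b e), (c e s).2 ∈ tcZ D Z := by
  have hcont : Continuous fun s => (c e s).2 := continuous_snd.comp (hE.smooth e).continuous
  have hu : (fun s => (c e s).2) ⁻¹' interior (tcZ D Z) ∈ 𝓝 t :=
    hcont.continuousAt.preimage_mem_nhds (isOpen_interior.mem_nhds h)
  have hcl : t ∈ closure (Ioo (a e) (b e)) := by
    rw [closure_Ioo (hE.lt e).ne]
    exact ht
  obtain ⟨r, hr1, hr2⟩ := mem_closure_iff_nhds.1 hcl _ hu
  exact tc_all hS hE hZ hr2 (interior_subset hr1)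

theorem tc_ends (hS : Strict D) (hE : Edges c a b D) (hZ : IsTrapOf (fun x y => (x, y) ∈ D) Z)
    {e : κ} (h : ∀ s ∈ Ioo (a e) (b e), (c e s).2 ∈ tcZ D Z) :
    ∀ s ∈ Icc (a e) (b e), (c e s).2 ∈ tcZ D Z := by
  have hcont : Continuous fun s => (c e s).2 := continuous_snd.comp (hE.smooth e).continuous
  intro s hs
  have hcl : s ∈ closure (Ioo (a e) (b e)) := by
    rw [closure_Ioo (hE.lt e).ne]
    exact hs
  have := (tc_compact hS hZ).isClosed.closure_subset_iff.2 (image_subset_iff.2 h)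
  exact this (image_closure_subset_closure_image hcont ⟨s, hcl, rfl⟩)

/-- The pairs with lower point in the trap which are not interior points of an edge. -/
def tcN (D : Set (Plane × Plane)) (Z : Set Plane) (c : κ → ℝ → Plane × Plane) (a b : κ → ℝ) :
    Set (Plane × Plane) :=
  {P | P ∈ D ∧ P.2 ∈ tcZ D Z ∧ ∀ e, ∀ t ∈ Ioo (a e) (b e), c e t ≠ P}

/-- The third vertices of the triple points over the trap. -/
def tc3 (D : Set (Plane × Plane)) (Z : Set Plane) : Set (Plane × Plane) :=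
  {P | P.2 ∈ tcZ D Z ∧ ∃ y, (P.1, y) ∈ D ∧ (y, P.2) ∈ D}

theorem tc_start_mem (hE : Edges c a b D)
    {e : κ} (h : (c e (a e)).2 ∈ tcZ D Z) : c e (a e) ∈ tcN D Z c a b := by
  refine ⟨hE.mem e _ ⟨le_rfl, (hE.lt e).le⟩, h, fun e' t ht he => ?_⟩
  obtain ⟨rfl, rfl⟩ := hE.once e' e t ht (a e) ⟨le_rfl, (hE.lt e).le⟩ he
  exact lt_irrefl _ ht.1

theorem tc_end_mem (hE : Edges c a b D)
    {e : κ} (h : (c e (b e)).2 ∈ tcZ D Z) : c e (b e) ∈ tcN D Z c a b := by
  refine ⟨hE.mem e _ ⟨(hE.lt e).le, le_rfl⟩, h, fun e' t ht he => ?_⟩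
  obtain ⟨rfl, rfl⟩ := hE.once e' e t ht (b e) ⟨(hE.lt e).le, le_rfl⟩ he
  exact lt_irrefl _ ht.2

theorem tc_vertex_mem (hE : Edges c a b D) {P : Plane × Plane} (hP : P ∈ vertices D)
    (h : P.2 ∈ tcZ D Z) : P ∈ tcN D Z c a b :=
  ⟨hP.1, h, fun e t ht he => hE.inner e t ht (he ▸ hP)⟩

theorem tc3_mem (hS : Strict D) (hE : Edges c a b D) {P : Plane × Plane} (hP : P ∈ tc3 D Z) :
    P ∈ tcN D Z c a b := by
  obtain ⟨h, y, h1, h2⟩ := hP
  exact tc_vertex_mem hE ⟨hS.trans _ _ _ h1 h2, y, Or.inr (Or.inr ⟨h1, h2⟩)⟩ h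

/-- The outgoing edge of a pair with lower point in the interior. -/
theorem tc_out (hS : Strict D) (hE : Edges c a b D) (hZ : IsTrapOf (fun x y => (x, y) ∈ D) Z)
    {P : Plane × Plane} (hP : P ∈ tcN D Z c a b) (hi : P.2 ∈ interior (tcZ D Z)) :
    ∃ e, c e (a e) = P ∧ ∀ s ∈ Ioo (a e) (b e), (c e s).2 ∈ tcZ D Z := by
  obtain ⟨e, he⟩ := hE.out P hP.1 (tc_sub hS hZ hP.2.1) hP.2.2
  exact ⟨e, he, tc_near hS hE hZ ⟨le_rfl, (hE.lt e).le⟩ (by rw [he]; exact hi)⟩

theorem tc_into (hS : Strict D) (hE : Edges c a b D) (hZ : IsTrapOf (fun x y => (x, y) ∈ D) Z)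
    {P : Plane × Plane} (hP : P ∈ tcN D Z c a b) (hi : P.2 ∈ interior (tcZ D Z)) :
    ∃ e, c e (b e) = P ∧ ∀ s ∈ Ioo (a e) (b e), (c e s).2 ∈ tcZ D Z := by
  obtain ⟨e, he⟩ := hE.into P hP.1 (tc_sub hS hZ hP.2.1) hP.2.2
  exact ⟨e, he, tc_near hS hE hZ ⟨(hE.lt e).le, le_rfl⟩ (by rw [he]; exact hi)⟩

/-- The pair from which the edge assigned to `P` starts. -/
theorem tc_assign (hS : Strict D) (hE : Edges c a b D)
    (hZ : IsTrapOf (fun x y => (x, y) ∈ D) Z) {P : Plane × Plane} (hP : P ∈ tcN D Z c a b) :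
    ∃ e, (∀ s ∈ Ioo (a e) (b e), (c e s).2 ∈ tcZ D Z) ∧ (c e (a e)).2 ∈ interior (tcZ D Z) ∧
      (c e (a e) = P ∨ (P.2 ∉ interior (tcZ D Z) ∧ (c e (a e)).1 = P.1 ∧
        (P.2, (c e (a e)).2) ∈ D ∧ c e (a e) ∈ tc3 D Z)) := by
  by_cases hi : P.2 ∈ interior (tcZ D Z)
  · obtain ⟨e, he, h⟩ := tc_out hS hE hZ hP hi
    exact ⟨e, h, by rw [he]; exact hi, Or.inl he⟩
  · rcases tc_mem_cases hS hZ hP.2.1 with h | ⟨w, hw, hPw⟩
    · exact absurd h hi
    · have hw1 : w ∈ tcZ D Z := Or.inl hw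
      have h3 : (P.1, w) ∈ tc3 D Z := ⟨hw1, P.2, hP.1, hPw⟩
      have hwi : w ∈ interior (tcZ D Z) := tc_bottom hS hZ hP.1 hPw hw1
      obtain ⟨e, he, h⟩ := tc_out hS hE hZ (tc3_mem hS hE h3) hwi
      refine ⟨e, h, by rw [he]; exact hwi, Or.inr ⟨hi, by rw [he], by rw [he]; exact hPw, ?_⟩⟩
      rw [he]
      exact h3

theorem trap_cycle {D : Set (Plane × Plane)} (hS : Strict D) {κ : Type} [Fintype κ]
    {c : κ → ℝ → Plane × Plane} {a b : κ → ℝ} (hE : Edges c a b D) {Z : Set Plane}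
    (hZ : IsTrapOf (fun x y => (x, y) ∈ D) Z) :
    ∃ n : κ → ℝ, n ≠ 0 ∧ (∀ e, n e ≠ 0 → ∀ t ∈ Ioo (a e) (b e), (c e t).2 ∈ Z) ∧
      IsCyc c a b n := by
  classical
  set Z1 := tcZ D Z with hZ1
  set S : Finset κ := Finset.univ.filter fun e => ∀ s ∈ Ioo (a e) (b e), (c e s).2 ∈ Z1 with hSdef
  have hSmem : ∀ e, e ∈ S ↔ ∀ s ∈ Ioo (a e) (b e), (c e s).2 ∈ Z1 := by
    intro e
    simp [hSdef]
  have hSZ : ∀ e ∈ S, ∀ t ∈ Ioo (a e) (b e), (c e t).2 ∈ Z := fun e he t ht =>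
    (tc_inner hS hE hZ ht ((hSmem e).1 he t ht)).2
  have hbd : ∀ e ψ, bdry c a b e ψ = (tcv (c e (b e)) - tcv (c e (a e))) ψ := by
    intro e ψ
    simp [bdry, tcv]
  -- it is enough to find the relation
  have key : (∃ n : κ → ℝ, n ≠ 0 ∧ (∀ e, n e ≠ 0 → e ∈ S) ∧
      ∑ e, n e • (tcv (c e (b e)) - tcv (c e (a e))) = 0) →
      ∃ n : κ → ℝ, n ≠ 0 ∧ (∀ e, n e ≠ 0 → ∀ t ∈ Ioo (a e) (b e), (c e t).2 ∈ Z) ∧
      IsCyc c a b n := by
    rintro ⟨n, hn, hs, h⟩
    refine ⟨n, hn, fun e he => hSZ e (hs e he), fun ψ => ?_⟩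
    have := congrFun h ψ
    simp only [Finset.sum_apply, Pi.smul_apply, Pi.zero_apply, smul_eq_mul] at this
    rw [← this]
    exact Finset.sum_congr rfl fun e _ => by rw [hbd]
  apply key
  have hstart : ∀ e ∈ S, c e (a e) ∈ tcN D Z c a b := fun e he =>
    tc_start_mem hE (tc_ends hS hE hZ ((hSmem e).1 he) _ ⟨le_rfl, (hE.lt e).le⟩)
  have hend : ∀ e ∈ S, c e (b e) ∈ tcN D Z c a b := fun e he =>
    tc_end_mem hE (tc_ends hS hE hZ ((hSmem e).1 he) _ ⟨(hE.lt e).le, le_rfl⟩)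
  by_cases hcase : ∃ e ∈ S, (c e (a e)).2 ∉ interior Z1
  · -- more edges than nodes
    obtain ⟨e0, he0, hi0⟩ := hcase
    have hassign : ∀ P : ↥(tcN D Z c a b \ tc3 D Z), ∃ e ∈ S, (c e (a e)).2 ∈ interior Z1 ∧
        (c e (a e) = P ∨ (P.1.2 ∉ interior (tcZ D Z) ∧ (c e (a e)).1 = P.1.1 ∧
        (P.1.2, (c e (a e)).2) ∈ D ∧ c e (a e) ∈ tc3 D Z)) := by
      intro P
      obtain ⟨e, h1, h2, h3⟩ := tc_assign hS hE hZ P.2.1
      exact ⟨e, (hSmem e).2 h1, h2, h3⟩
    choose g hg1 hg2 hg3 using hassign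
    have hinj : Function.Injective g := by
      intro P Q hPQ
      have hP := hg3 P
      have hQ := hg3 Q
      rw [← hPQ] at hQ
      apply Subtype.ext
      rcases hP with hP | ⟨hP1, hP2, hP3, hP4⟩ <;> rcases hQ with hQ | ⟨hQ1, hQ2, hQ3, hQ4⟩
      · rw [← hP, ← hQ]
      · exact absurd (hP ▸ hQ4) P.2.2
      · exact absurd (hQ ▸ hP4) Q.2.2
      · have h1 : P.1.1 = Q.1.1 := by rw [← hP2, ← hQ2]
        by_cases h2 : P.1.2 = Q.1.2
        · exact Prod.ext h1 h2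
        · exfalso
          have hPD : (P.1.1, P.1.2) ∈ D := P.2.1.1
          have hQD : (P.1.1, Q.1.2) ∈ D := by rw [h1]; exact Q.2.1.1
          rcases hS.above _ _ _ hPD hQD h2 with h | h
          · exact hS.noFour _ _ _ _ hPD h hQ3
          · exact hS.noFour _ _ _ _ hQD h hP3
    have : Finite ↥(tcN D Z c a b \ tc3 D Z) := Finite.of_injective g hinj
    have := Fintype.ofFinite ↥(tcN D Z c a b \ tc3 D Z)
    have hcard : Fintype.card ↥(tcN D Z c a b \ tc3 D Z) < S.card := by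
      have h1 : (Finset.univ.image g) ⊆ S.erase e0 := by
        intro e he
        obtain ⟨P, _, rfl⟩ := Finset.mem_image.1 he
        refine Finset.mem_erase.2 ⟨?_, hg1 P⟩
        rintro h
        exact hi0 (h ▸ hg2 P)
      have h2 := Finset.card_le_card h1
      rw [Finset.card_image_of_injective _ hinj, Finset.card_erase_of_mem he0,
        Finset.card_univ] at h2
      have h3 : 0 < S.card := Finset.card_pos.2 ⟨e0, he0⟩
      omega
    have hspan : ∀ P ∈ tcN D Z c a b, tcv P ∈ Submodule.span ℝ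
        (range fun Q : ↥(tcN D Z c a b \ tc3 D Z) => tcv Q.1) := by
      intro P hP
      by_cases h3 : P ∈ tc3 D Z
      · obtain ⟨hw, y, h1, h2⟩ := h3
        have hy : y ∈ tcZ D Z := tc_up hS hw h2
        have hm1 : (P.1, y) ∈ tcN D Z c a b \ tc3 D Z := by
          refine ⟨tc_vertex_mem hE ⟨h1, P.2, Or.inl h2⟩ hy, ?_⟩
          rintro ⟨_, z, hz1, hz2⟩
          exact hS.noFour _ _ _ _ hz1 hz2 h2
        have hm2 : (y, P.2) ∈ tcN D Z c a b \ tc3 D Z := by
          refine ⟨tc_vertex_mem hE ⟨h2, P.1, Or.inr (Or.inl h1)⟩ hw, ?_⟩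
          rintro ⟨_, z, hz1, hz2⟩
          exact hS.noFour _ _ _ _ h1 hz1 hz2
        have : tcv P = tcv (P.1, y) + tcv (y, P.2) := by
          funext ψ
          simp [tcv]
        rw [this]
        exact Submodule.add_mem _ (Submodule.subset_span ⟨⟨_, hm1⟩, rfl⟩)
          (Submodule.subset_span ⟨⟨_, hm2⟩, rfl⟩)
      · exact Submodule.subset_span ⟨⟨P, hP, h3⟩, rfl⟩
    exact tc_relation S (fun e => tcv (c e (b e)) - tcv (c e (a e)))
      (fun Q : ↥(tcN D Z c a b \ tc3 D Z) => tcv Q.1)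
      (fun e he => Submodule.sub_mem _ (hspan _ (hend e he)) (hspan _ (hstart e he))) hcard
  · -- a permutation of the edges
    push Not at hcase
    have hprev : ∀ e : S, ∃ e' : S, c e' (b e') = c e (a e) := by
      intro e
      obtain ⟨e', h1, h2⟩ := tc_into hS hE hZ (hstart e e.2) (hcase e e.2)
      exact ⟨⟨e', (hSmem e').2 h2⟩, h1⟩
    choose p hp using hprev
    have hinj : Function.Injective p := by
      intro e e' h
      have h1 := hp e
      have h2 := hp e'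
      rw [h] at h1
      exact Subtype.ext (hE.start _ _ (h1.symm.trans h2))
    have hbij : Function.Bijective p := Finite.injective_iff_bijective.1 hinj
    refine ⟨fun e => if e ∈ S then 1 else 0, ?_, ?_, ?_⟩
    · -- there is an edge
      have hne : (frontier Z1).Nonempty := by
        have hZne : Z1.Nonempty := hZ.nonempty.mono subset_union_left
        refine nonempty_frontier_iff.2 ⟨hZne, fun h => ?_⟩
        have h1 : (EuclideanSpace.single 0 2 : Plane) ∈ Z1 := by rw [h]; trivial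
        have h2 := tc_sub hS hZ h1
        simp at h2
      obtain ⟨x, hx⟩ := hne
      obtain ⟨y, hy, hxy⟩ := tc_frontier hS hZ hx
      have hex : ∃ P ∈ D, P.2 ∈ interior Z1 := by
        rcases tc_mem_cases hS hZ (Or.inl hy : y ∈ tcZ D Z) with h | ⟨w, hw, hyw⟩
        · exact ⟨(x, y), hxy, h⟩
        · exact ⟨(y, w), hyw, tc_bottom hS hZ hxy hyw (Or.inl hw)⟩
      obtain ⟨P, hPD, hPi⟩ := hex
      obtain ⟨e, t, ht, he⟩ := hE.cover P hPD
      have heS : e ∈ S := (hSmem e).2 (tc_near hS hE hZ ht (by rw [he]; exact hPi))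
      intro h
      have := congrFun h e
      simp [heS] at this
    · intro e he
      by_contra h
      simp [h] at he
    · have h1 : ∑ e, (if e ∈ S then (1 : ℝ) else 0) • (tcv (c e (b e)) - tcv (c e (a e))) =
          ∑ e : S, (tcv (c e (b e)) - tcv (c e (a e))) := by
        rw [← Finset.sum_subset (Finset.subset_univ S)]
        · rw [← Finset.sum_coe_sort S]
          refine Finset.sum_congr rfl fun e _ => ?_
          simp
        · intro e _ he
          simp [he]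
      rw [h1, Finset.sum_sub_distrib]
      have h2 : ∑ e : S, tcv (c e (a e)) = ∑ e : S, tcv (c e (b e)) := by
        rw [← hbij.sum_comp (fun e : S => tcv (c e (b e)))]
        exact Finset.sum_congr rfl fun e _ => by rw [hp e]
      rw [h2, sub_self]

end

end Pool.Agent.Lib_MP_752436_ch
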