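import Pool.Agent.Lib_MP_752436_ch.Linear
import Pool.Agent.Lib_MP_752436_ch.Edges
import Pool.Agent.Lib_MP_752436_ch.TrapCycle
import Pool.Agent.Lib_MP_752436_gt.DiagramBirths
import Pool.Agent.Lib_MP_752436_nb.GenericIff

/-!
Piece D5: the number of births is at most the number of chambers.
-/

open MeasureTheory Metric Set Filter
open scoped ContDiff Topology

namespace Pool.Agent.Lib_MP_752436_ch

open Pool.Agent.Lib_MP_752436_gt Pool.Agent.Lib_MP_752436_tp Pool.Agent.Lib_MP_752436_rb

open Pool.Agent.Lib_MP_752436_nb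

variable {F : Plane → EuclideanSpace ℝ (Fin 4)}

theorem births_le_chambers (hF : IsSliceDisc F) (h : Tame F) {m : ℕ}
    (hm : (chambers F).encard ≤ m) :
    ∃ G, MorseDisc G ∧ (births G).encard ≤ m ∧ ∀ x, shadow G x = shadow F x := by
  classical
  obtain ⟨k, c0, hc0⟩ := h.curves
  obtain ⟨κ, hκ, c, a, b, hE⟩ := exists_edges (finite_vertices h) hc0
  obtain ⟨S, hS, hhit⟩ := exists_hitting (cycles c a b) (finrank_cycles_le hF h hE hm)
  have hmid : ∀ e, (a e + b e) / 2 ∈ Ioo (a e) (b e) := by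
    intro e
    have h1 := hE.lt e
    constructor <;> linarith
  suffices hP : ∃ P : Set Plane, P.encard ≤ m ∧
      (∀ p ∈ P, ∀ y, ¬ (p, y) ∈ DoubleSet F) ∧
      ∀ Z, IsTrapOf (fun x y => (x, y) ∈ DoubleSet F) Z → (Z ∩ P).Nonempty by
    obtain ⟨G, hG, hGm, -, hsh, -⟩ :=
      (diagram_births (contDiff_shadow hF) h.injective (crossingInfo_doubleSet hF h) m).2 hP
    exact ⟨G, hG, hGm, hsh⟩
  refine ⟨(fun e => (c e ((a e + b e) / 2)).2) '' (S : Set κ), ?_, ?_, ?_⟩
  · refine (encard_image_le _ _).trans ?_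
    rw [Set.encard_coe_eq_coe_finsetCard]
    exact_mod_cast hS
  · rintro _ ⟨e, _, rfl⟩ y hy
    refine hE.inner e _ (hmid e) ?_
    exact ⟨hE.mem e _ (Ioo_subset_Icc_self (hmid e)), y, Or.inl hy⟩
  · intro Z hZ
    obtain ⟨n, hn, hsub, hcyc⟩ := trap_cycle (strict_doubleSet hF h) hE hZ
    obtain ⟨e, heS, hne⟩ : ∃ e ∈ S, n e ≠ 0 := by
      by_contra hcon
      push Not at hcon
      exact hn (hhit n hcyc hcon)
    exact ⟨_, hsub e hne _ (hmid e), e, heS, rfl⟩

/-- Space is not bounded. -/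
private theorem main_not_bounded_univ : ¬ Bornology.IsBounded (univ : Set Space) :=
  NormedSpace.unbounded_univ ℝ Space

theorem ribbon_of_connected (hF : IsSliceDisc F) (h : Tame F)
    (hc : IsConnected (shadow F '' closedBall (0 : Plane) 1)ᶜ) :
    IsRibbonKnot (boundaryKnot F) := by
  have hcomp : IsCompact (shadow F '' closedBall (0 : Plane) 1) :=
    (isCompact_closedBall _ _).image (contDiff_shadow hF).continuous
  have hch : chambers F = ∅ := by
    rw [eq_empty_iff_forall_notMem]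
    rintro C ⟨hb, p, hp, rfl⟩
    have h1 : (shadow F '' closedBall (0 : Plane) 1)ᶜ ⊆
        connectedComponentIn (shadow F '' closedBall (0 : Plane) 1)ᶜ p :=
      hc.isPreconnected.subset_connectedComponentIn hp subset_rfl
    apply main_not_bounded_univ
    rw [← union_compl_self (shadow F '' closedBall (0 : Plane) 1)]
    exact hcomp.isBounded.union (hb.subset h1)
  obtain ⟨G, hG, hGm, hs⟩ := births_le_chambers hF h (m := 0) (by rw [hch]; simp)
  exact ribbon_of_shadow hG hGm hs

end Pool.Agent.Lib_MP_752436_ch
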