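import Pool.Agent.Lib_MP_752436_ch.TurnEdges
import Pool.Agent.Lib_MP_752436_ch.TrapCycle

/-!
Piece G3: after some of the free curves have been turned upside down every trap contains the
bottom point of a triple point.
-/

open MeasureTheory Metric Set Filter
open scoped ContDiff Topology

namespace Pool.Agent.Lib_MP_752436_ch

open Pool.Agent.Lib_MP_752436_gt Pool.Agent.Lib_MP_752436_tp Pool.Agent.Lib_MP_752436_rb

/-- The components of `D`. -/
def comps (D : Set (Plane × Plane)) : Set (Set (Plane × Plane)) :=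
  {C | ∃ p ∈ D, C = connectedComponentIn D p}

/-- The free curves: components of `D` whose lower points lie in the open disc and are not the
lowest of three points one above the other. -/
def freeComps (D : Set (Plane × Plane)) : Set (Set (Plane × Plane)) :=
  {C | C ∈ comps D ∧ ∀ p ∈ C, p.2 ∈ ball (0 : Plane) 1 ∧ Top D p}

variable {D : Set (Plane × Plane)}

private theorem nobottom_closed_comp (hS : Strict D) {C : Set (Plane × Plane)}
    (hC : C ∈ comps D) : IsClosed C := by
  obtain ⟨p, hp, rfl⟩ := hC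
  refine isClosed_of_closure_subset ?_
  refine (isPreconnected_connectedComponentIn.closure).subset_connectedComponentIn
    (subset_closure (mem_connectedComponentIn hp)) ?_
  exact closure_minimal (connectedComponentIn_subset D p) hS.compact.isClosed

private theorem nobottom_comp_sub {C : Set (Plane × Plane)} (hC : C ∈ comps D) : C ⊆ D := by
  obtain ⟨p, _, rfl⟩ := hC
  exact connectedComponentIn_subset D p

private theorem nobottom_comp_eq {C : Set (Plane × Plane)} (hC : C ∈ comps D)
    {q : Plane × Plane} (hq : q ∈ C) : C = connectedComponentIn D q := by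
  obtain ⟨p, _, rfl⟩ := hC
  exact connectedComponentIn_eq hq

private theorem nobottom_diff {A : Set (Set (Plane × Plane))} (hA : A ⊆ comps D) :
    D \ ⋃₀ A = ⋃₀ (comps D \ A) := by
  ext q
  constructor
  · rintro ⟨hq, hn⟩
    refine ⟨connectedComponentIn D q, ⟨⟨q, hq, rfl⟩, fun h => ?_⟩, mem_connectedComponentIn hq⟩
    exact hn ⟨_, h, mem_connectedComponentIn hq⟩
  · rintro ⟨C, ⟨hC, hCA⟩, hq⟩
    refine ⟨nobottom_comp_sub hC hq, ?_⟩
    rintro ⟨C', hC', hq'⟩
    have h1 := nobottom_comp_eq hC hq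
    have h2 := nobottom_comp_eq (hA hC') hq'
    exact hCA (by rw [h1, ← h2]; exact hC')

private theorem nobottom_closed (hS : Strict D) (hfin : (comps D).Finite)
    {A : Set (Set (Plane × Plane))} (hA : A ⊆ comps D) : IsClosed (⋃₀ A) := by
  rw [sUnion_eq_biUnion]
  exact (hfin.subset hA).isClosed_biUnion fun C hC => nobottom_closed_comp hS (hA hC)

/-- A union of components is closed, if there are finitely many components. -/
theorem isClosed_sUnion_comps (hS : Strict D) (hfin : (comps D).Finite)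
    {A : Set (Set (Plane × Plane))} (hA : A ⊆ comps D) :
    IsClosed (⋃₀ A) ∧ IsClosed (D \ ⋃₀ A) := by
  refine ⟨nobottom_closed hS hfin hA, ?_⟩
  rw [nobottom_diff hA]
  exact nobottom_closed hS hfin sdiff_subset

/-- A union of free curves may be turned. -/
theorem turnable_free (hS : Strict D) (hfin : (comps D).Finite)
    {A : Set (Set (Plane × Plane))} (hA : A ⊆ freeComps D) : Turnable D (⋃₀ A) := by
  have hA' : A ⊆ comps D := fun C hC => (hA hC).1
  obtain ⟨h1, h2⟩ := isClosed_sUnion_comps hS hfin hA'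
  refine ⟨?_, h1, h2, ?_, ?_⟩
  · rintro p ⟨C, hC, hp⟩
    exact nobottom_comp_sub (hA' hC) hp
  · rintro p ⟨C, hC, hp⟩
    exact ((hA hC).2 p hp).1
  · rintro p ⟨C, hC, hp⟩
    exact ((hA hC).2 p hp).2

/-- The norm has no maximum at an interior point. -/
private theorem nobottom_max {Y : Set Plane} {x : Plane} (hx : x ∈ interior Y) :
    ∃ y ∈ Y, ‖x‖ < ‖y‖ := by
  obtain ⟨ε, hε, hb⟩ := Metric.isOpen_iff.1 isOpen_interior x hx
  set v : Plane := EuclideanSpace.single 0 (ε / 2) with hv
  have hvn : ‖v‖ = ε / 2 := by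
    rw [hv]
    simp [abs_of_pos hε]
  have h1 : x + v ∈ Y := interior_subset (hb (by
    rw [mem_ball, dist_eq_norm, add_sub_cancel_left, hvn]
    linarith))
  have h2 : x - v ∈ Y := interior_subset (hb (by
    rw [mem_ball, dist_eq_norm, sub_sub_cancel_left, norm_neg, hvn]
    linarith))
  by_contra hcon
  push Not at hcon
  have h3 := hcon _ h1
  have h4 := hcon _ h2
  have h5 := parallelogram_law_with_norm ℝ x v
  nlinarith [norm_nonneg (x + v), norm_nonneg (x - v), norm_nonneg x, hvn ▸ h5,
    mul_self_le_mul_self (norm_nonneg (x + v)) h3, mul_self_le_mul_self (norm_nonneg (x - v)) h4]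

/-- The pairs with lower point in the trap form an open and closed set. -/
private theorem nobottom_prop {T : Set (Plane × Plane)} (hS : Strict T) {Z : Set Plane}
    (hZ : IsTrapOf (fun x y => (x, y) ∈ T) Z)
    (hno : ∀ z ∈ Z, ¬ ∃ x y, (x, y) ∈ T ∧ (y, z) ∈ T) {K : Set (Plane × Plane)}
    (hK : IsPreconnected K) (hKT : K ⊆ T) {P : Plane × Plane} (hP : P ∈ K)
    (hPZ : P.2 ∈ tcZ T Z) : ∀ q ∈ K, q.2 ∈ interior (tcZ T Z) := by
  have hint : ∀ q ∈ T, q.2 ∈ tcZ T Z → q.2 ∈ interior (tcZ T Z) := by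
    intro q hq h
    rcases tc_mem_cases hS hZ h with h | ⟨z, hz, hqz⟩
    · exact h
    · exact absurd ⟨q.1, q.2, hq, hqz⟩ (hno z hz)
  intro q hq
  refine hint q (hKT hq) ?_
  by_contra hcon
  obtain ⟨r, _, hr1, hr2⟩ := hK (Prod.snd ⁻¹' interior (tcZ T Z)) (Prod.snd ⁻¹' (tcZ T Z)ᶜ)
    (isOpen_interior.preimage continuous_snd)
    ((tc_compact hS hZ).isClosed.isOpen_compl.preimage continuous_snd) (by
      intro r hr
      by_cases h : r.2 ∈ tcZ T Z
      · exact Or.inl (hint r (hKT hr) h)
      · exact Or.inr h) ⟨P, hP, hint P (hKT hP) hPZ⟩ ⟨q, hq, hcon⟩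
  exact hr2 (interior_subset hr1)

/-- Turn the free curves `C` for which the maximum of `‖p.1‖`, `p ∈ C`, is larger than the maximum
of `‖p.2‖`. Let `Z` be a trap without bottom points, `Z1 = tcZ (turn D Φ) Z`. The pairs of
`turn D Φ` with lower point in `Z1` form a set which is closed and open in `turn D Φ` (a frontier
point of `Z1` lies above a point of `Z`, which would be a bottom point), so they contain with a
pair its component, which is a free curve or a turned free curve. Let `x` be a point of `Z1` with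
maximal norm: it is a frontier point, so `(x, y) ∈ turn D Φ`, `y ∈ Z`. On the component of `(x, y)`
the maximum of the norm of the upper points is at most that of the lower points, which belong to
`Z1`, so there is a pair `(x', y')` in it with `‖y'‖ = ‖x‖`: `y'` is a frontier point, too, so it
lies above a point of `Z`, which is a bottom point. -/
theorem exists_turn (hS : Strict D) (hfin : (comps D).Finite) :
    ∃ A ⊆ freeComps D, ∀ Z, IsTrapOf (fun x y => (x, y) ∈ turn D (⋃₀ A)) Z →
      ∃ z ∈ Z, ∃ x y, (x, y) ∈ turn D (⋃₀ A) ∧ (y, z) ∈ turn D (⋃₀ A) := by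
  set A : Set (Set (Plane × Plane)) :=
    {C | C ∈ freeComps D ∧ ∃ p ∈ C, ∀ q ∈ C, ‖q.2‖ < ‖p.1‖} with hAdef
  have hA : A ⊆ freeComps D := fun C hC => hC.1
  refine ⟨A, hA, fun Z hZ => ?_⟩
  by_contra hcon
  push Not at hcon
  set T := turn D (⋃₀ A) with hTdef
  have hno : ∀ z ∈ Z, ¬ ∃ x y, (x, y) ∈ T ∧ (y, z) ∈ T := by
    rintro z hz ⟨x, y, h1, h2⟩
    exact hcon z hz x y h1 h2
  have hT : Turnable D (⋃₀ A) := turnable_free hS hfin hA
  have hST : Strict T := strict_turn hS hT
  -- there are no bottom points in `Z1`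
  have hno1 : ∀ w ∈ tcZ T Z, ¬ ∃ x y, (x, y) ∈ D ∧ (y, w) ∈ D := by
    intro w hw hb
    obtain ⟨x, y, h1, h2⟩ := (bottom_turn hS hT w).2 hb
    rcases hw with hw | ⟨z, hz, hwz⟩
    · exact hno w hw ⟨x, y, h1, h2⟩
    · exact hno z hz ⟨y, w, h2, hwz⟩
  have hcpt : IsCompact (tcZ T Z) := tc_compact hST hZ
  have hne : (tcZ T Z).Nonempty := hZ.nonempty.mono subset_union_left
  obtain ⟨x, hx, hmax⟩ := hcpt.exists_isMaxOn hne continuous_norm.continuousOn
  have hmax' : ∀ y ∈ tcZ T Z, ‖y‖ ≤ ‖x‖ := fun y hy => hmax hy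
  have hxi : x ∉ interior (tcZ T Z) := by
    intro h
    obtain ⟨y, hy, hlt⟩ := nobottom_max h
    exact absurd (hmax' y hy) (not_le.2 hlt)
  obtain ⟨y, hy, hxy⟩ := (tc_mem_cases hST hZ hx).resolve_left hxi
  have hy1 : y ∈ tcZ T Z := Or.inl hy
  rcases hxy with ⟨hD, hΦ⟩ | hsw
  · -- a pair which is not turned
    have hC : connectedComponentIn D (x, y) ∈ comps D := ⟨_, hD, rfl⟩
    have hCT : connectedComponentIn D (x, y) ⊆ T := by
      intro q hq
      refine Or.inl ⟨connectedComponentIn_subset _ _ hq, ?_⟩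
      rintro ⟨C', hC', hq'⟩
      have h1 := nobottom_comp_eq (hA hC').1 hq'
      have h2 := nobottom_comp_eq hC hq
      refine hΦ ⟨C', hC', ?_⟩
      rw [h1, ← h2]
      exact mem_connectedComponentIn hD
    have hall := nobottom_prop hST hZ hno isPreconnected_connectedComponentIn hCT
      (mem_connectedComponentIn hD) hy1
    have hfree : connectedComponentIn D (x, y) ∈ freeComps D := by
      refine ⟨hC, fun q hq => ⟨tc_sub hST hZ (interior_subset (hall q hq)), fun z => ⟨?_, ?_⟩⟩⟩
      · intro hz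
        exact hno1 q.2 (interior_subset (hall q hq))
          ⟨z, q.1, hz, connectedComponentIn_subset _ _ hq⟩
      · rintro ⟨h1, h2⟩
        exact hno1 q.2 (interior_subset (hall q hq)) ⟨q.1, z, h1, h2⟩
    have hnA : connectedComponentIn D (x, y) ∉ A := fun h =>
      hΦ ⟨_, h, mem_connectedComponentIn hD⟩
    have hq : ∃ q ∈ connectedComponentIn D (x, y), ‖x‖ ≤ ‖q.2‖ := by
      by_contra hcon2
      push Not at hcon2
      exact hnA ⟨hfree, (x, y), mem_connectedComponentIn hD, hcon2⟩
    obtain ⟨q, hq, hle⟩ := hq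
    obtain ⟨y', hy', hlt⟩ := nobottom_max (hall q hq)
    exact absurd (hmax' y' hy') (not_le.2 (hle.trans_lt hlt))
  · -- a turned pair
    obtain ⟨C, hCA, hmem⟩ := hsw
    have hCA' := hCA
    obtain ⟨hCf, p, hp, hlt⟩ := hCA'
    have hpre : IsPreconnected (Prod.swap '' C) := by
      obtain ⟨p', _, rfl⟩ := hCf.1
      exact isPreconnected_connectedComponentIn.image _ continuous_swap.continuousOn
    have hCT : Prod.swap '' C ⊆ T := by
      rintro _ ⟨q, hq, rfl⟩
      refine Or.inr ?_
      rw [Prod.swap_swap]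
      exact ⟨C, hCA, hq⟩
    have hall := nobottom_prop hST hZ hno hpre hCT (P := (x, y))
      ⟨(y, x), hmem, rfl⟩ hy1
    have h1 : p.1 ∈ interior (tcZ T Z) := hall p.swap ⟨p, hp, rfl⟩
    have h2 := hmax' p.1 (interior_subset h1)
    have h3 : ‖x‖ < ‖p.1‖ := hlt (y, x) hmem
    exact absurd h2 (not_le.2 h3)

end Pool.Agent.Lib_MP_752436_ch
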