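import Pool.Agent.Lib_MP_752436_ch.Defs
import Pool.Agent.Lib_MP_752436_rb.Shrink
import Pool.Agent.Lib_MP_752436_rb.Graph

/-!
Piece E1: finitely many disjoint smooth arcs do not separate the plane.
-/

open MeasureTheory Metric Set Filter
open scoped ContDiff Topology

namespace Pool.Agent.Lib_MP_752436_ch

open Pool.Agent.Lib_MP_752436_gt Pool.Agent.Lib_MP_752436_tp Pool.Agent.Lib_MP_752436_rb

/-- The point with coordinates `x`, `y`. -/
private noncomputable def pt (x y : ℝ) : Plane := !₂[x, y]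

private theorem pt_zero (x y : ℝ) : pt x y 0 = x := rfl

private theorem pt_one (x y : ℝ) : pt x y 1 = y := rfl

private theorem pt_eta (p : Plane) : pt (p 0) (p 1) = p := by
  ext i
  fin_cases i <;> rfl

private theorem continuous_pt : Continuous fun q : ℝ × ℝ => pt q.1 q.2 := by
  refine (PiLp.continuous_toLp 2 (fun _ : Fin 2 => ℝ)).comp ?_
  refine continuous_pi fun i => ?_
  fin_cases i
  · exact continuous_fst
  · exact continuous_snd

private theorem continuous_coord (i : Fin 2) : Continuous fun p : Plane => p i :=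
  (continuous_apply i).comp (PiLp.continuous_ofLp 2 (fun _ : Fin 2 => ℝ))

private theorem preconn_side {G : ℝ → ℝ} (hG : Continuous G) {I : Set ℝ} (hI : Convex ℝ I) :
    IsPreconnected {p : Plane | p 1 - G (p 0) ∈ I} := by
  have h1 : IsPreconnected ((fun q : ℝ × ℝ => pt q.1 (q.2 + G q.1)) '' (univ ×ˢ I)) := by
    refine IsPreconnected.image ?_ _ ?_
    · exact (convex_univ.prod hI).isPreconnected
    · exact (continuous_pt.comp (continuous_fst.prodMk
        (continuous_snd.add (hG.comp continuous_fst)))).continuousOn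
  convert h1 using 1
  ext p
  constructor
  · intro hp
    refine ⟨(p 0, p 1 - G (p 0)), ⟨mem_univ _, hp⟩, ?_⟩
    show pt (p 0) (p 1 - G (p 0) + G (p 0)) = p
    rw [sub_add_cancel, pt_eta]
  · rintro ⟨q, ⟨-, hq⟩, rfl⟩
    show pt q.1 (q.2 + G q.1) 1 - G (pt q.1 (q.2 + G q.1) 0) ∈ I
    rw [pt_one, pt_zero, add_sub_cancel_right]
    exact hq

/-- The complement of a bounded closed part of a graph is connected. -/
private theorem connected_compl_graph {G : ℝ → ℝ} (hG : Continuous G) {K : Set Plane}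
    (hK : IsCompact K) (hKG : ∀ p ∈ K, p 1 = G (p 0)) : IsConnected Kᶜ := by
  set U : Set Plane := {p | p 1 - G (p 0) ∈ Ioi (0 : ℝ)} with hU
  set V : Set Plane := {p | p 1 - G (p 0) ∈ Iio (0 : ℝ)} with hV
  set L : Set Plane := {p | p 1 = G (p 0)} \ K with hL
  have hUc : IsPreconnected U := preconn_side hG (convex_Ioi 0)
  have hVc : IsPreconnected V := preconn_side hG (convex_Iio 0)
  -- points of the graph are limits of both sides
  have hlim : ∀ p : Plane, p 1 = G (p 0) → Tendsto (fun t : ℝ => pt (p 0) (p 1 + t)) (𝓝 0) (𝓝 p) := by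
    intro p _
    have h1 : Continuous fun t : ℝ => pt (p 0) (p 1 + t) :=
      continuous_pt.comp (continuous_const.prodMk (continuous_const.add continuous_id))
    have h2 := h1.tendsto 0
    have h3 : pt (p 0) (p 1 + 0) = p := by rw [add_zero, pt_eta]
    rwa [h3] at h2
  have hclU : ∀ p : Plane, p 1 = G (p 0) → p ∈ closure U := by
    intro p hp
    have h1 : Tendsto (fun t : ℝ => pt (p 0) (p 1 + t)) (𝓝[>] 0) (𝓝 p) :=
      (hlim p hp).mono_left nhdsWithin_le_nhds
    refine mem_closure_of_tendsto h1 ?_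
    filter_upwards [self_mem_nhdsWithin] with t ht
    show pt (p 0) (p 1 + t) 1 - G (pt (p 0) (p 1 + t) 0) ∈ Ioi (0 : ℝ)
    rw [pt_one, pt_zero, mem_Ioi]
    have : (0 : ℝ) < t := ht
    linarith
  have hclV : ∀ p : Plane, p 1 = G (p 0) → p ∈ closure V := by
    intro p hp
    have h1 : Tendsto (fun t : ℝ => pt (p 0) (p 1 + t)) (𝓝[<] 0) (𝓝 p) :=
      (hlim p hp).mono_left nhdsWithin_le_nhds
    refine mem_closure_of_tendsto h1 ?_
    filter_upwards [self_mem_nhdsWithin] with t ht
    show pt (p 0) (p 1 + t) 1 - G (pt (p 0) (p 1 + t) 0) ∈ Iio (0 : ℝ)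
    rw [pt_one, pt_zero, mem_Iio]
    have : t < (0 : ℝ) := ht
    linarith
  have hUL : IsPreconnected (U ∪ L) :=
    hUc.subset_closure subset_union_left
      (union_subset subset_closure fun p hp => hclU p hp.1)
  have hVL : IsPreconnected (V ∪ L) :=
    hVc.subset_closure subset_union_left
      (union_subset subset_closure fun p hp => hclV p hp.1)
  -- a point of the graph far away
  obtain ⟨R, hR⟩ := hK.isBounded.subset_closedBall (0 : Plane)
  have hfar : pt (|R| + 1) (G (|R| + 1)) ∈ L := by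
    refine ⟨rfl, fun h => ?_⟩
    have h1 := hR h
    rw [mem_closedBall_zero_iff] at h1
    have h2 : |pt (|R| + 1) (G (|R| + 1)) 0| ≤ ‖pt (|R| + 1) (G (|R| + 1))‖ := by
      have := PiLp.norm_apply_le (pt (|R| + 1) (G (|R| + 1))) 0
      simpa using this
    rw [pt_zero] at h2
    have h3 := le_abs_self (|R| + 1)
    have h4 : R ≤ |R| := le_abs_self _
    linarith
  have hall : Kᶜ = (U ∪ L) ∪ (V ∪ L) := by
    ext p
    constructor
    · intro hp
      rcases lt_trichotomy (p 1) (G (p 0)) with h | h | h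
      · exact Or.inr (Or.inl (show p 1 - G (p 0) ∈ Iio (0 : ℝ) from sub_neg.2 h))
      · exact Or.inl (Or.inr ⟨h, hp⟩)
      · exact Or.inl (Or.inl (show p 1 - G (p 0) ∈ Ioi (0 : ℝ) from sub_pos.2 h))
    · rintro ((h | h) | (h | h)) hp
      · have h1 : (0 : ℝ) < p 1 - G (p 0) := h
        rw [hKG p hp, sub_self] at h1
        exact lt_irrefl _ h1
      · exact h.2 hp
      · have h1 : p 1 - G (p 0) < (0 : ℝ) := h
        rw [hKG p hp, sub_self] at h1
        exact lt_irrefl _ h1
      · exact h.2 hp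
  refine ⟨⟨_, hfar.2⟩, ?_⟩
  rw [hall]
  exact IsPreconnected.union _ (Or.inr hfar) (Or.inr hfar) hUL hVL

private theorem isCompact_arcs {n : ℕ} {α : Fin n → ℝ → Plane} (harc : ∀ i, IsArc (α i)) :
    IsCompact (⋃ i, α i '' Icc (0 : ℝ) 1) :=
  isCompact_iUnion fun i => isCompact_Icc.image (harc i).smooth.continuous

private theorem isArc_scale {α : ℝ → Plane} (h : IsArc α) (ρ : Plane ≃ₗᵢ[ℝ] Plane) {r : ℝ}
    (hr : r ≠ 0) : IsArc (fun s => ρ (r • α s)) := by
  have hd : ∀ s, HasDerivAt (fun s => ρ (r • α s)) (ρ (r • deriv α s)) s := by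
    intro s
    have h1 : HasDerivAt α (deriv α s) s := ((h.smooth.differentiable (by simp)) s).hasDerivAt
    exact (ρ.toContinuousLinearEquiv.toContinuousLinearMap.hasFDerivAt).comp_hasDerivAt s
      (h1.const_smul r)
  refine ⟨ρ.contDiff.comp (h.smooth.const_smul r), fun s hs => ?_, ?_⟩
  · rw [(hd s).deriv]
    intro h0
    have h1 : r • deriv α s = 0 := by
      have := congrArg ρ.symm h0
      simpa using this
    exact h.regular s hs ((smul_eq_zero.1 h1).resolve_left hr)
  · intro s hs t ht hst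
    have h1 : r • α s = r • α t := ρ.injective hst
    exact h.inj hs ht (smul_right_injective _ hr h1)

theorem isConnected_compl_arcs {n : ℕ} {α : Fin n → ℝ → Plane} (harc : ∀ i, IsArc (α i))
    (hd : ∀ i j, i ≠ j → Disjoint (α i '' Icc 0 1) (α j '' Icc 0 1)) :
    IsConnected (⋃ i, α i '' Icc (0 : ℝ) 1)ᶜ := by
  have hA := isCompact_arcs harc
  obtain ⟨R, hR⟩ := hA.isBounded.subset_closedBall (0 : Plane)
  set r : ℝ := (|R| + 1)⁻¹ with hr
  have hR0 : (0 : ℝ) < |R| + 1 := by positivity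
  have hr0 : 0 < r := inv_pos.2 hR0
  have h01 : (0 : ℝ) ∈ Icc (0 : ℝ) 1 := ⟨le_rfl, zero_le_one⟩
  have hmemA : ∀ i, ∀ s ∈ Icc (0 : ℝ) 1, α i s ∈ ⋃ i, α i '' Icc (0 : ℝ) 1 := fun i s hs =>
    mem_iUnion.2 ⟨i, mem_image_of_mem _ hs⟩
  have hnorm : ∀ i, ∀ s ∈ Icc (0 : ℝ) 1, ‖r • α i s‖ < 1 := by
    intro i s hs
    have h1 := hR (hmemA i s hs)
    rw [mem_closedBall_zero_iff] at h1
    rw [norm_smul, Real.norm_of_nonneg hr0.le, hr, inv_mul_lt_iff₀ hR0]
    have := le_abs_self R
    linarith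
  have hne : ∀ i j, i ≠ j → ∀ s ∈ Icc (0 : ℝ) 1, ∀ t ∈ Icc (0 : ℝ) 1, α i s ≠ α j t := by
    intro i j hij s hs t ht h
    exact disjoint_left.1 (hd i j hij) (mem_image_of_mem _ hs) (h ▸ mem_image_of_mem _ ht)
  obtain ⟨ρ, hρ1, hρ2⟩ := exists_axes (fun i => r • α i 0) (fun i => r • deriv (α i) 0)
    (fun i j hij h => hne i j hij 0 h01 0 h01 (smul_right_injective _ hr0.ne' h))
    (fun i => smul_ne_zero hr0.ne' ((harc i).regular 0 h01))
  set γ : Fin n → ℝ → Plane := fun i s => ρ (r • α i s) with hγ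
  have hγarc : ∀ i, IsArc (γ i) := fun i => isArc_scale (harc i) ρ hr0.ne'
  have hγb : ∀ i, ∀ s ∈ Icc (0 : ℝ) 1, γ i s ∈ ball (0 : Plane) 1 := by
    intro i s hs
    rw [mem_ball_zero_iff]
    show ‖ρ (r • α i s)‖ < 1
    rw [ρ.norm_map]
    exact hnorm i s hs
  have hγd : ∀ i j, i ≠ j → Disjoint (γ i '' Icc 0 1) (γ j '' Icc 0 1) := by
    intro i j hij
    rw [disjoint_left]
    rintro _ ⟨s, hs, rfl⟩ ⟨t, ht, h⟩
    have h1 : r • α j t = r • α i s := ρ.injective h
    exact hne i j hij s hs t ht (smul_right_injective _ hr0.ne' h1).symm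
  have hderiv : ∀ i, deriv (γ i) 0 = ρ (r • deriv (α i) 0) := by
    intro i
    have h1 : HasDerivAt (α i) (deriv (α i) 0) 0 :=
      (((harc i).smooth.differentiable (by simp)) 0).hasDerivAt
    exact ((ρ.toContinuousLinearEquiv.toContinuousLinearMap.hasFDerivAt).comp_hasDerivAt 0
      (h1.const_smul r)).deriv
  obtain ⟨c, hc, hc1, G, hG, -, -, hGγ⟩ := exists_graph (α := γ) (fun i => (hγarc i).smooth)
    (fun i => hγb i 0 h01) (fun i j hij => hρ1 i j hij) (fun i => by rw [hderiv i]; exact hρ2 i)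
  obtain ⟨Ψ, hΨ, hΨ1⟩ := exists_shrink hγarc hγb hγd hc hc1
  obtain ⟨Φ, hΦ, hΦ1, hΦ2⟩ := hΨ.inverse 1 ⟨zero_le_one, le_rfl⟩
  set K : Set Plane := ⋃ i, γ i '' Icc (0 : ℝ) c with hK
  have hKc : IsCompact K :=
    isCompact_iUnion fun i => isCompact_Icc.image (hγarc i).smooth.continuous
  have hKG : ∀ p ∈ K, p 1 = G (p 0) := by
    intro p hp
    obtain ⟨i, s, hs, rfl⟩ := mem_iUnion.1 hp
    exact (hGγ i s hs).2
  have hKconn := connected_compl_graph hG.continuous hKc hKG
  -- the inverse of the composition of the homeomorphisms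
  have himg : (⋃ i, α i '' Icc (0 : ℝ) 1)ᶜ = (fun x => r⁻¹ • ρ.symm (Φ x)) '' Kᶜ := by
    ext p
    constructor
    · intro hp
      refine ⟨Ψ 1 (ρ (r • p)), fun hmem => hp ?_, ?_⟩
      · obtain ⟨i, s, hs, h⟩ := mem_iUnion.1 hmem
        have hs1 : s / c ∈ Icc (0 : ℝ) 1 := ⟨div_nonneg hs.1 hc.le, (div_le_one hc).2 hs.2⟩
        have h1 : Ψ 1 (γ i (s / c)) = Ψ 1 (ρ (r • p)) := by
          rw [hΨ1 i _ hs1, mul_div_cancel₀ _ hc.ne']
          exact h
        have h2 : γ i (s / c) = ρ (r • p) := by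
          have := congrArg Φ h1
          rwa [hΦ1, hΦ1] at this
        have h3 : r • α i (s / c) = r • p := ρ.injective h2
        exact mem_iUnion.2 ⟨i, s / c, hs1, smul_right_injective _ hr0.ne' h3⟩
      · show r⁻¹ • ρ.symm (Φ (Ψ 1 (ρ (r • p)))) = p
        rw [hΦ1, ρ.symm_apply_apply, smul_smul, inv_mul_cancel₀ hr0.ne', one_smul]
    · rintro ⟨x, hx, rfl⟩ hmem
      refine hx ?_
      obtain ⟨i, s, hs, h⟩ := mem_iUnion.1 hmem
      have h1 : α i s = r⁻¹ • ρ.symm (Φ x) := h
      have h2 : γ i s = Φ x := by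
        show ρ (r • α i s) = Φ x
        rw [h1, smul_smul, mul_inv_cancel₀ hr0.ne', one_smul, ρ.apply_symm_apply]
      have h3 : x = γ i (c * s) := by
        rw [← hΨ1 i s hs, h2, hΦ2]
      rw [h3]
      exact mem_iUnion.2 ⟨i, c * s, ⟨mul_nonneg hc.le hs.1, mul_le_of_le_one_right hc.le hs.2⟩, rfl⟩
  rw [himg]
  refine hKconn.image _ ?_
  exact ((ρ.symm.continuous.comp hΦ.continuous).const_smul r⁻¹).continuousOn

/-- Every point of the closed disc off the arcs can be joined to the circle off the arcs. -/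
theorem exists_preconnected_to_circle {n : ℕ} {α : Fin n → ℝ → Plane} (harc : ∀ i, IsArc (α i))
    (hd : ∀ i j, i ≠ j → Disjoint (α i '' Icc 0 1) (α j '' Icc 0 1)) {q : Plane}
    (hq : q ∈ closedBall (0 : Plane) 1) (hqα : q ∉ ⋃ i, α i '' Icc (0 : ℝ) 1) :
    ∃ S : Set Plane, IsPreconnected S ∧ q ∈ S ∧
      S ⊆ closedBall (0 : Plane) 1 \ ⋃ i, α i '' Icc (0 : ℝ) 1 ∧
      (S ∩ sphere (0 : Plane) 1).Nonempty := by
  set A : Set Plane := ⋃ i, α i '' Icc (0 : ℝ) 1 with hAd
  have hA : IsCompact A := isCompact_arcs harc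
  have hconn : IsConnected Aᶜ := isConnected_compl_arcs harc hd
  set B : Set Plane := closedBall (0 : Plane) 1 \ A with hB
  have hqB : q ∈ B := ⟨hq, hqα⟩
  refine ⟨connectedComponentIn B q, isPreconnected_connectedComponentIn,
    mem_connectedComponentIn hqB, connectedComponentIn_subset B q, ?_⟩
  set S : Set Plane := connectedComponentIn B q with hS
  have hSB : S ⊆ B := connectedComponentIn_subset B q
  have hqS : q ∈ S := mem_connectedComponentIn hqB
  by_contra hne
  have hSball : S ⊆ ball (0 : Plane) 1 \ A := by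
    intro x hx
    refine ⟨?_, (hSB hx).2⟩
    have h1 := (hSB hx).1
    rw [mem_closedBall] at h1
    rw [mem_ball]
    refine lt_of_le_of_ne h1 fun h => hne ⟨x, hx, ?_⟩
    rw [mem_sphere]
    exact h
  have hopen : IsOpen S := by
    rw [Metric.isOpen_iff]
    intro x hx
    have hU : IsOpen (ball (0 : Plane) 1 \ A) := isOpen_ball.sdiff hA.isClosed
    obtain ⟨ε, hε, hεU⟩ := Metric.isOpen_iff.1 hU x (hSball hx)
    refine ⟨ε, hε, ?_⟩
    have hsub : ball x ε ⊆ B := fun y hy => ⟨ball_subset_closedBall (hεU hy).1, (hεU hy).2⟩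
    have h1 : connectedComponentIn B q = connectedComponentIn B x :=
      connectedComponentIn_eq hx
    rw [hS, h1]
    exact (convex_ball x ε).isPreconnected.subset_connectedComponentIn (mem_ball_self hε) hsub
  have hclosed : ∀ x ∈ closure S, x ∉ A → x ∈ S := by
    intro x hx hxA
    have hxB : x ∈ B := by
      refine ⟨?_, hxA⟩
      have h1 : closure S ⊆ closedBall (0 : Plane) 1 :=
        closure_minimal (fun y hy => (hSB hy).1) isClosed_closedBall
      exact h1 hx
    have h2 : IsPreconnected (insert x S) :=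
      isPreconnected_connectedComponentIn.subset_closure (subset_insert x S)
        (insert_subset hx subset_closure)
    exact h2.subset_connectedComponentIn (mem_insert_of_mem x hqS)
      (insert_subset hxB hSB) (mem_insert x S)
  have hsub : Aᶜ ⊆ S := by
    refine hconn.isPreconnected.subset_left_of_subset_union hopen
      (isClosed_closure (s := S)).isOpen_compl ?_ ?_ ?_
    · rw [disjoint_left]
      intro x hx hx'
      exact hx' (subset_closure hx)
    · intro x hx
      by_cases h : x ∈ closure S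
      · exact Or.inl (hclosed x h hx)
      · exact Or.inr h
    · exact ⟨q, hqα, hqS⟩
  obtain ⟨R, hR⟩ := hA.isBounded.subset_closedBall (0 : Plane)
  have hfar : pt (|R| + 2) 0 ∈ Aᶜ := by
    intro h
    have h1 := hR h
    rw [mem_closedBall_zero_iff] at h1
    have h2 : |pt (|R| + 2) 0 0| ≤ ‖pt (|R| + 2) 0‖ := by
      have := PiLp.norm_apply_le (pt (|R| + 2) 0) 0
      simpa using this
    rw [pt_zero] at h2
    have h3 := le_abs_self (|R| + 2)
    have h4 : R ≤ |R| := le_abs_self _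
    linarith
  have h1 := (hSB (hsub hfar)).1
  rw [mem_closedBall_zero_iff] at h1
  have h2 : |pt (|R| + 2) 0 0| ≤ ‖pt (|R| + 2) 0‖ := by
    have := PiLp.norm_apply_le (pt (|R| + 2) 0) 0
    simpa using this
  rw [pt_zero] at h2
  have h3 := le_abs_self (|R| + 2)
  have h4 : 0 ≤ |R| := abs_nonneg _
  linarith

end Pool.Agent.Lib_MP_752436_ch
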