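import Pool.Agent.Lib_MP_752436_ch.Defs

/-!
Piece B1: the Cauchy-Pompeiu formula for functions with compact support in the plane.
-/

open MeasureTheory Metric Set Filter
open scoped ContDiff Topology

namespace Pool.Agent.Lib_MP_752436_ch

open Pool.Agent.Lib_MP_752436_gt Pool.Agent.Lib_MP_752436_tp Pool.Agent.Lib_MP_752436_rb

/-! ### The kernel -/

/-- The inverse distance is integrable near the origin. -/
private theorem pompeiu_inv_integrable :
    IntegrableOn (fun u : Plane => ‖u‖⁻¹) (ball (0 : Plane) 1) := by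
  rw [integrableOn_fun_norm_addHaar (μ := (volume : Measure Plane)) (f := fun r : ℝ => r⁻¹)]
  have hd : Module.finrank ℝ Plane = 2 := by simp
  rw [hd]
  have h1 : IntegrableOn (fun _ : ℝ => (1 : ℝ)) (Ioo (0 : ℝ) 1) := by
    simp [integrableOn_const_iff]
  refine h1.congr_fun ?_ measurableSet_Ioo
  intro y hy
  have : y ≠ 0 := hy.1.ne'
  simp [this]

/-- The potential of a continuous function with compact support is bounded. -/
theorem cauchy_integrable {h : Plane → ℝ} (hh : Continuous h) (hc : HasCompactSupport h) :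
    ∃ C : ℝ, ∀ x : Plane, Integrable (fun y => h y / ‖x - y‖) ∧ ∫ y, |h y| / ‖x - y‖ ≤ C := by
  obtain ⟨M, hM⟩ := hc.exists_bound_of_continuous hh
  have hM0 : 0 ≤ M := (norm_nonneg _).trans (hM 0)
  set K : Plane → ℝ := (ball (0 : Plane) 1).indicator (fun u => ‖u‖⁻¹) with hK
  have hKi : Integrable K := (integrable_indicator_iff measurableSet_ball).2 pompeiu_inv_integrable
  have hhi : Integrable (fun y => |h y|) := by
    have := (hh.integrable_of_hasCompactSupport hc (μ := (volume : Measure Plane))).norm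
    simpa [Real.norm_eq_abs] using this
  have hbound : ∀ x y : Plane, |h y| / ‖x - y‖ ≤ M * K (x - y) + |h y| := by
    intro x y
    by_cases hxy : x - y ∈ ball (0 : Plane) 1
    · have e1 : K (x - y) = ‖x - y‖⁻¹ := indicator_of_mem hxy _
      rw [e1, div_eq_mul_inv]
      have h1 : |h y| * ‖x - y‖⁻¹ ≤ M * ‖x - y‖⁻¹ := by
        refine mul_le_mul_of_nonneg_right ?_ (by positivity)
        simpa [Real.norm_eq_abs] using hM y
      linarith [abs_nonneg (h y)]
    · have e1 : K (x - y) = 0 := indicator_of_notMem hxy _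
      rw [e1, mul_zero, zero_add]
      have h1 : (1 : ℝ) ≤ ‖x - y‖ := by
        simpa using hxy
      exact div_le_self (abs_nonneg _) h1
  have hBi : ∀ x : Plane, Integrable (fun y => M * K (x - y) + |h y|) := by
    intro x
    exact ((hKi.comp_sub_left x).const_mul M).add hhi
  have habs : ∀ x : Plane, Integrable (fun y => |h y| / ‖x - y‖) := by
    intro x
    refine (hBi x).mono' ?_ (Eventually.of_forall fun y => ?_)
    · exact (hh.abs.measurable.div (measurable_const.sub measurable_id).norm).aestronglyMeasurable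
    · rw [Real.norm_eq_abs, abs_of_nonneg (by positivity)]
      exact hbound x y
  refine ⟨M * (∫ u, K u) + ∫ y, |h y|, fun x => ⟨?_, ?_⟩⟩
  · refine (hBi x).mono' ?_ (Eventually.of_forall fun y => ?_)
    · exact (hh.measurable.div (measurable_const.sub measurable_id).norm).aestronglyMeasurable
    · rw [norm_div, Real.norm_eq_abs, norm_norm]
      exact hbound x y
  · calc ∫ y, |h y| / ‖x - y‖ ≤ ∫ y, (M * K (x - y) + |h y|) :=
          integral_mono (habs x) (hBi x) (hbound x)
      _ = M * (∫ u, K u) + ∫ y, |h y| := by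
          rw [integral_add ((hKi.comp_sub_left x).const_mul M) hhi, integral_const_mul,
            integral_sub_left_eq_self K volume x]

/-! ### The formula in the complex plane -/

/-- The point `exp (i t)`. -/
private noncomputable def pompeiuE (t : ℝ) : ℂ := Complex.exp (t * Complex.I)

private theorem pompeiuE_eq (t : ℝ) :
    pompeiuE t = (Real.cos t : ℂ) + (Real.sin t : ℂ) * Complex.I := by
  rw [pompeiuE, Complex.exp_mul_I, Complex.ofReal_cos, Complex.ofReal_sin]

private theorem pompeiuE_ne (t : ℝ) : pompeiuE t ≠ 0 := Complex.exp_ne_zero _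

private theorem norm_pompeiuE (t : ℝ) : ‖pompeiuE t‖ = 1 := Complex.norm_exp_ofReal_mul_I t

private theorem continuous_pompeiuE : Continuous pompeiuE := by
  unfold pompeiuE
  fun_prop

private theorem hasDerivAt_pompeiuE (t : ℝ) :
    HasDerivAt pompeiuE (Complex.I * pompeiuE t) t := by
  have h1 : HasDerivAt (fun s : ℝ => (s : ℂ) * Complex.I) Complex.I t := by
    simpa using (Complex.ofRealCLM.hasDerivAt (x := t)).mul_const Complex.I
  have h2 := h1.cexp
  rw [mul_comm] at h2
  exact h2

/-- The real linear map `L` in polar coordinates. -/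
private theorem pompeiu_linear (L : ℂ →L[ℝ] ℂ) {r : ℝ} (hr : 0 < r) (t : ℝ) (z : ℂ) :
    (r : ℝ) • ((L 1 + Complex.I * L Complex.I) / (z - (z + r * pompeiuE t))) =
      -(L (pompeiuE t) + Complex.I * L (Complex.I * pompeiuE t)) := by
  have hE : L (pompeiuE t) = (Real.cos t : ℂ) * L 1 + (Real.sin t : ℂ) * L Complex.I := by
    have : pompeiuE t = (Real.cos t) • (1 : ℂ) + (Real.sin t) • Complex.I := by
      rw [pompeiuE_eq]; simp
    rw [this, map_add, map_smul, map_smul]
    simp
  have hIE : L (Complex.I * pompeiuE t) =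
      -(Real.sin t : ℂ) * L 1 + (Real.cos t : ℂ) * L Complex.I := by
    have : Complex.I * pompeiuE t = (-Real.sin t) • (1 : ℂ) + (Real.cos t) • Complex.I := by
      rw [pompeiuE_eq]
      have h2 : Complex.I * ((Real.cos t : ℂ) + (Real.sin t : ℂ) * Complex.I) =
        (Real.cos t : ℂ) * Complex.I + (Real.sin t : ℂ) * (Complex.I * Complex.I) := by ring
      rw [h2, Complex.I_mul_I]
      simp
      ring
    rw [this, map_add, map_smul, map_smul]
    simp
  rw [hE, hIE]
  have hrc : (r : ℂ) ≠ 0 := Complex.ofReal_ne_zero.2 hr.ne'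
  have hEn := pompeiuE_ne t
  have h3 : z - (z + r * pompeiuE t) = -(r * pompeiuE t) := by ring
  rw [h3, Complex.real_smul, div_neg, mul_neg, neg_inj]
  rw [mul_div_assoc', mul_div_mul_left _ _ hrc, div_eq_iff hEn]
  have hsc : (Real.cos t : ℂ) ^ 2 + (Real.sin t : ℂ) ^ 2 = 1 := by
    rw [← Complex.ofReal_pow, ← Complex.ofReal_pow, ← Complex.ofReal_add,
      Real.cos_sq_add_sin_sq, Complex.ofReal_one]
  rw [pompeiuE_eq]
  linear_combination (-(L 1) - Complex.I * L Complex.I) * hsc +
    (L 1 * (Real.sin t : ℂ) ^ 2 - L Complex.I * (Real.cos t : ℂ) * (Real.sin t : ℂ)) *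
      Complex.I_sq

private theorem pompeiu_far {G : ℂ → ℂ} (hc : HasCompactSupport G) (z : ℂ) :
    ∃ R : ℝ, 0 < R ∧ ∀ r t : ℝ, R ≤ r → G (z + r * pompeiuE t) = 0 ∧
      fderiv ℝ G (z + r * pompeiuE t) = 0 := by
  obtain ⟨R1, hR1, h1⟩ := hc.exists_pos_le_norm
  obtain ⟨R2, hR2, h2⟩ := (hc.fderiv ℝ).exists_pos_le_norm
  refine ⟨max R1 R2 + ‖z‖, by positivity, fun r t hr => ?_⟩
  have hr0 : 0 ≤ r := le_trans (by positivity) hr
  have hn : max R1 R2 ≤ ‖z + r * pompeiuE t‖ := by
    have h3 : ‖(r : ℂ) * pompeiuE t‖ = r := by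
      rw [norm_mul, norm_pompeiuE, mul_one, Complex.norm_real, Real.norm_eq_abs,
        abs_of_nonneg hr0]
    have h4 : ‖(r : ℂ) * pompeiuE t‖ ≤ ‖z + r * pompeiuE t‖ + ‖z‖ := by
      have := norm_sub_le (z + r * pompeiuE t) z
      rwa [add_sub_cancel_left] at this
    linarith
  exact ⟨h1 _ ((le_max_left _ _).trans hn), h2 _ ((le_max_right _ _).trans hn)⟩

private theorem pompeiu_continuous {G : ℂ → ℂ} (hG : ContDiff ℝ 1 G) (z : ℂ) (a : ℂ) :
    Continuous (fun p : ℝ × ℝ =>
      fderiv ℝ G (z + p.1 * pompeiuE p.2) (a * pompeiuE p.2)) := by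
  have h1 : Continuous (fderiv ℝ G) := hG.continuous_fderiv (by norm_num)
  have h2 : Continuous (fun p : ℝ × ℝ => z + (p.1 : ℂ) * pompeiuE p.2) :=
    continuous_const.add ((Complex.continuous_ofReal.comp continuous_fst).mul
      (continuous_pompeiuE.comp continuous_snd))
  exact (h1.comp h2).clm_apply (continuous_const.mul (continuous_pompeiuE.comp continuous_snd))

private theorem pompeiu_integrableOn {G : ℂ → ℂ} (hG : ContDiff ℝ 1 G)
    (hc : HasCompactSupport G) (z : ℂ) (a : ℂ) :
    IntegrableOn (fun p : ℝ × ℝ => fderiv ℝ G (z + p.1 * pompeiuE p.2) (a * pompeiuE p.2))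
      (Ioi (0 : ℝ) ×ˢ Ioo (-Real.pi) Real.pi) := by
  obtain ⟨R, hR, hfar⟩ := pompeiu_far hc z
  have h1 : IntegrableOn
      (fun p : ℝ × ℝ => fderiv ℝ G (z + p.1 * pompeiuE p.2) (a * pompeiuE p.2))
      (Icc (0 : ℝ) R ×ˢ Icc (-Real.pi) Real.pi) :=
    (pompeiu_continuous hG z a).continuousOn.integrableOn_compact
      (isCompact_Icc.prod isCompact_Icc)
  refine h1.of_forall_sdiff_eq_zero (measurableSet_Ioi.prod measurableSet_Ioo) ?_
  rintro ⟨r, t⟩ ⟨⟨hr, ht⟩, hnot⟩
  have hr' : R ≤ r := by
    by_contra hlt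
    exact hnot ⟨⟨le_of_lt hr, le_of_lt (not_le.1 hlt)⟩, ⟨ht.1.le, ht.2.le⟩⟩
  simp [(hfar r t hr').2]

/-- The radial integral. -/
private theorem pompeiu_radial {G : ℂ → ℂ} (hG : ContDiff ℝ 1 G) (hc : HasCompactSupport G)
    (z : ℂ) (t : ℝ) :
    ∫ r in Ioi (0 : ℝ), fderiv ℝ G (z + r * pompeiuE t) (pompeiuE t) = -G z := by
  obtain ⟨R, hR, hfar⟩ := pompeiu_far hc z
  have hd : ∀ r ∈ Ici (0 : ℝ), HasDerivAt (fun r : ℝ => G (z + r * pompeiuE t))
      (fderiv ℝ G (z + r * pompeiuE t) (pompeiuE t)) r := by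
    intro r _
    have h1 : HasDerivAt (fun r : ℝ => z + (r : ℂ) * pompeiuE t) (pompeiuE t) r := by
      simpa using ((Complex.ofRealCLM.hasDerivAt (x := r)).mul_const (pompeiuE t)).const_add z
    exact (hG.differentiable (by norm_num) _).hasFDerivAt.comp_hasDerivAt r h1
  have hcont : Continuous (fun r : ℝ => fderiv ℝ G (z + r * pompeiuE t) (pompeiuE t)) := by
    have := (pompeiu_continuous hG z 1).comp (Continuous.prodMk_left t)
    simpa [Function.comp_def] using this
  have hint : IntegrableOn (fun r : ℝ => fderiv ℝ G (z + r * pompeiuE t) (pompeiuE t))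
      (Ioi (0 : ℝ)) := by
    have h1 : IntegrableOn (fun r : ℝ => fderiv ℝ G (z + r * pompeiuE t) (pompeiuE t))
      (Icc (0 : ℝ) R) := hcont.continuousOn.integrableOn_compact isCompact_Icc
    refine h1.of_forall_sdiff_eq_zero measurableSet_Ioi ?_
    rintro r ⟨hr, hnot⟩
    have hr' : R ≤ r := by
      by_contra hlt
      exact hnot ⟨le_of_lt hr, le_of_lt (not_le.1 hlt)⟩
    simp [(hfar r t hr').2]
  have hlim : Tendsto (fun r : ℝ => G (z + r * pompeiuE t)) atTop (𝓝 0) := by
    refine tendsto_const_nhds.congr' ?_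
    filter_upwards [eventually_ge_atTop R] with r hr
    exact ((hfar r t hr).1).symm
  rw [integral_Ioi_of_hasDerivAt_of_tendsto' hd hint hlim]
  simp

/-- The angular integral. -/
private theorem pompeiu_angular {G : ℂ → ℂ} (hG : ContDiff ℝ 1 G) (z : ℂ) {r : ℝ}
    (hr : 0 < r) :
    ∫ t in Ioo (-Real.pi) Real.pi,
      fderiv ℝ G (z + r * pompeiuE t) (Complex.I * pompeiuE t) = 0 := by
  have hd : ∀ t : ℝ, HasDerivAt (fun t : ℝ => G (z + r * pompeiuE t))
      ((r : ℝ) • fderiv ℝ G (z + r * pompeiuE t) (Complex.I * pompeiuE t)) t := by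
    intro t
    have h1 : HasDerivAt (fun t : ℝ => z + (r : ℂ) * pompeiuE t)
        (r • (Complex.I * pompeiuE t)) t := by
      simpa using ((hasDerivAt_pompeiuE t).const_mul (r : ℂ)).const_add z
    have h2 := (hG.differentiable (by norm_num) _).hasFDerivAt.comp_hasDerivAt t h1
    rw [map_smul] at h2
    exact h2
  have hcont : Continuous (fun t : ℝ =>
      (r : ℝ) • fderiv ℝ G (z + r * pompeiuE t) (Complex.I * pompeiuE t)) := by
    have := (pompeiu_continuous hG z Complex.I).comp (Continuous.prodMk_right r)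
    exact this.const_smul r
  have hI := intervalIntegral.integral_eq_sub_of_hasDerivAt (a := -Real.pi) (b := Real.pi)
    (fun t _ => hd t) (hcont.intervalIntegrable _ _)
  have hends : pompeiuE Real.pi = pompeiuE (-Real.pi) := by
    rw [pompeiuE_eq, pompeiuE_eq]
    simp
  rw [hends, sub_self, intervalIntegral.integral_smul] at hI
  have h0 := (smul_eq_zero.1 hI).resolve_left hr.ne'
  rwa [intervalIntegral.integral_of_le (by linarith [Real.pi_pos]),
    integral_Ioc_eq_integral_Ioo] at h0

private theorem pompeiu_complex {G : ℂ → ℂ} (hG : ContDiff ℝ 1 G) (hc : HasCompactSupport G)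
    (z : ℂ) :
    ∫ w, (fderiv ℝ G w 1 + Complex.I * fderiv ℝ G w Complex.I) / (z - w) =
      2 * Real.pi * G z := by
  rw [← integral_add_left_eq_self _ z, ← Complex.integral_comp_polarCoord_symm]
  have hA := pompeiu_integrableOn hG hc z 1
  have hB := pompeiu_integrableOn hG hc z Complex.I
  simp only [one_mul] at hA
  have hT : polarCoord.target = Ioi (0 : ℝ) ×ˢ Ioo (-Real.pi) Real.pi := rfl
  have step1 : ∫ p in polarCoord.target, p.1 •
      ((fderiv ℝ G (z + Complex.polarCoord.symm p) 1 +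
        Complex.I * fderiv ℝ G (z + Complex.polarCoord.symm p) Complex.I) /
          (z - (z + Complex.polarCoord.symm p))) =
      ∫ p in Ioi (0 : ℝ) ×ˢ Ioo (-Real.pi) Real.pi,
        -(fderiv ℝ G (z + p.1 * pompeiuE p.2) (pompeiuE p.2) +
          Complex.I * fderiv ℝ G (z + p.1 * pompeiuE p.2) (Complex.I * pompeiuE p.2)) := by
    rw [hT]
    refine setIntegral_congr_fun (measurableSet_Ioi.prod measurableSet_Ioo) ?_
    rintro ⟨r, t⟩ ⟨hr, ht⟩
    have h1 : Complex.polarCoord.symm (r, t) = r * pompeiuE t := by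
      rw [Complex.polarCoord_symm_apply, pompeiuE_eq]
    simp only [h1]
    exact pompeiu_linear _ hr t z
  rw [step1, integral_neg, integral_add hA (hB.const_mul _), integral_const_mul]
  have hA' : ∫ p in Ioi (0 : ℝ) ×ˢ Ioo (-Real.pi) Real.pi,
      fderiv ℝ G (z + p.1 * pompeiuE p.2) (pompeiuE p.2) = -(2 * Real.pi * G z) := by
    have hs := setIntegral_prod_swap (μ := (volume : Measure ℝ)) (ν := (volume : Measure ℝ))
      (Ioi (0 : ℝ)) (Ioo (-Real.pi) Real.pi)
      (fun p : ℝ × ℝ => fderiv ℝ G (z + p.1 * pompeiuE p.2) (pompeiuE p.2))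
    rw [Measure.volume_eq_prod, ← hs]
    have hA2 : IntegrableOn
        (fun p : ℝ × ℝ => fderiv ℝ G (z + p.swap.1 * pompeiuE p.swap.2) (pompeiuE p.swap.2))
        (Ioo (-Real.pi) Real.pi ×ˢ Ioi (0 : ℝ)) ((volume : Measure ℝ).prod volume) := by
      have := hA
      rw [Measure.volume_eq_prod] at this
      exact this.swap
    rw [setIntegral_prod _ hA2]
    simp only [Prod.swap_prod_mk]
    rw [setIntegral_congr_fun measurableSet_Ioo (fun t _ => pompeiu_radial hG hc z t)]
    rw [setIntegral_const, Real.volume_real_Ioo_of_le (by linarith [Real.pi_pos])]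
    rw [Complex.real_smul]
    push_cast
    ring
  have hB' : ∫ p in Ioi (0 : ℝ) ×ˢ Ioo (-Real.pi) Real.pi,
      fderiv ℝ G (z + p.1 * pompeiuE p.2) (Complex.I * pompeiuE p.2) = 0 := by
    rw [Measure.volume_eq_prod] at hB ⊢
    rw [setIntegral_prod _ hB]
    simp only
    rw [setIntegral_congr_fun measurableSet_Ioi
      (fun r hr => pompeiu_angular hG z (r := r) hr)]
    simp
  rw [hA', hB']
  ring

/-! ### Transfer to the plane -/

private noncomputable def pompeiuIso : Plane ≃ₗᵢ[ℝ] ℂ := Complex.orthonormalBasisOneI.repr.symm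

private theorem pompeiuIso_apply (x : Plane) : pompeiuIso x = toC x := by
  have h := Complex.orthonormalBasisOneI_repr_symm_apply x
  rw [pompeiuIso, h]
  apply Complex.ext <;> simp [toC]

theorem cauchy_pompeiu {g : Plane → ℂ} (hg : ContDiff ℝ 1 g) (hc : HasCompactSupport g)
    (x : Plane) : ∫ y, dbar g y / toC (x - y) = 2 * Real.pi * g x := by
  set G : ℂ → ℂ := fun w => g (pompeiuIso.symm w) with hGdef
  have hG : ContDiff ℝ 1 G := hg.comp pompeiuIso.symm.contDiff
  have hGc : HasCompactSupport G :=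
    hc.comp_homeomorph pompeiuIso.symm.toHomeomorph
  have key := pompeiu_complex hG hGc (pompeiuIso x)
  have hGx : G (pompeiuIso x) = g x := by simp [hGdef]
  rw [hGx] at key
  rw [← key]
  have hmp := (pompeiuIso.measurePreserving).integral_comp
    pompeiuIso.toHomeomorph.measurableEmbedding
    (fun w => (fderiv ℝ G w 1 + Complex.I * fderiv ℝ G w Complex.I) / (pompeiuIso x - w))
  rw [← hmp]
  refine integral_congr_ae (Eventually.of_forall fun y => ?_)
  simp only
  have hfd : ∀ v : Plane, fderiv ℝ G (pompeiuIso y) (pompeiuIso v) = fderiv ℝ g y v := by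
    intro v
    have h1 : HasFDerivAt G ((fderiv ℝ g y).comp
        (pompeiuIso.symm.toContinuousLinearEquiv : ℂ →L[ℝ] Plane)) (pompeiuIso y) := by
      have h2 : HasFDerivAt g (fderiv ℝ g y) (pompeiuIso.symm (pompeiuIso y)) := by
        rw [LinearIsometryEquiv.symm_apply_apply]
        exact (hg.differentiable (by norm_num) y).hasFDerivAt
      exact h2.comp (pompeiuIso y) pompeiuIso.symm.toContinuousLinearEquiv.hasFDerivAt
    rw [h1.fderiv]
    simp
  have e0 : pompeiuIso (EuclideanSpace.single 0 1) = 1 := by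
    rw [pompeiuIso_apply]
    apply Complex.ext <;> simp [toC]
  have e1 : pompeiuIso (EuclideanSpace.single 1 1) = Complex.I := by
    rw [pompeiuIso_apply]
    apply Complex.ext <;> simp [toC]
  have f0 := hfd (EuclideanSpace.single 0 1)
  have f1 := hfd (EuclideanSpace.single 1 1)
  rw [e0] at f0
  rw [e1] at f1
  rw [f0, f1, ← map_sub, pompeiuIso_apply]
  rfl

end Pool.Agent.Lib_MP_752436_ch
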