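import Pool.Agent.Lib_MP_752436_ch.Flux
import Pool.Agent.Lib_MP_752436_ch.Fields

/-!
Piece D1: the potential `p ↦ flux of newt p` is locally constant off the surface and zero far
away.
-/

open MeasureTheory Metric Set Filter
open scoped ContDiff Topology

namespace Pool.Agent.Lib_MP_752436_ch

open Pool.Agent.Lib_MP_752436_gt Pool.Agent.Lib_MP_752436_tp Pool.Agent.Lib_MP_752436_rb

variable {J : Type} [Fintype J] {f : Plane → Space} {z : PChain J}

private theorem Setting.exists_ball_potential (hs : Setting f z) :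
    ∃ R : ℝ, ∀ y ∈ closedBall (0 : Plane) 1, f y ∈ ball (0 : Space) R := by
  have hc : IsCompact (f '' closedBall (0 : Plane) 1) :=
    (isCompact_closedBall 0 1).image hs.smooth.continuous
  obtain ⟨R, hR⟩ := hc.isBounded.subset_ball (0 : Space)
  exact ⟨R, fun y hy => hR ⟨y, hy, rfl⟩⟩

private theorem flux_congr_potential {V W : Space → Space}
    (h : ∀ y ∈ closedBall (0 : Plane) 1, V (f y) = W (f y)) : z.flux f V = z.flux f W := by
  unfold PChain.flux
  refine setIntegral_congr_fun measurableSet_closedBall fun y hy => ?_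
  change z.wnd y * inner ℝ (V (f y)) (nvec f y) = z.wnd y * inner ℝ (W (f y)) (nvec f y)
  rw [h y hy]

private theorem Setting.flux_sub_potential (hs : Setting f z) {V W : Space → Space}
    (hV : Continuous V) (hW : Continuous W) :
    z.flux f (fun r => V r - W r) = z.flux f V - z.flux f W := by
  unfold PChain.flux
  rw [← integral_sub (hs.integrableOn_flux fun y _ => hV.continuousAt)
    (hs.integrableOn_flux fun y _ => hW.continuousAt)]
  refine integral_congr_ae (Eventually.of_forall fun y => ?_)
  change z.wnd y * inner ℝ (V (f y) - W (f y)) (nvec f y) =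
    z.wnd y * inner ℝ (V (f y)) (nvec f y) - z.wnd y * inner ℝ (W (f y)) (nvec f y)
  rw [inner_sub_left, mul_sub]

/-- The difference of the fluxes of two sources is the flux of the smeared out segment: the field
`E a - E b - segField ρ a b` is divergence free. -/
theorem Setting.flux_newt_sub (hs : Setting f z) {ε : ℝ} (hε : 0 < ε) {ρ : Space → ℝ}
    {E : Space → Space → Space} (hB : Bump3 ε ρ E) {a b : Space}
    (ha : ∀ y ∈ closedBall (0 : Plane) 1, ε ≤ ‖f y - a‖)
    (hb : ∀ y ∈ closedBall (0 : Plane) 1, ε ≤ ‖f y - b‖) :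
    z.flux f (newt a) - z.flux f (newt b) = z.flux f (segField ρ a b) := by
  obtain ⟨R, hR⟩ := hs.exists_ball_potential
  have h1 : z.flux f (newt a) = z.flux f (E a) :=
    flux_congr_potential fun y hy => (hB.eqE a (f y) (ha y hy)).symm
  have h2 : z.flux f (newt b) = z.flux f (E b) :=
    flux_congr_potential fun y hy => (hB.eqE b (f y) (hb y hy)).symm
  have hEa : ContDiff ℝ 1 (E a) := (hB.smoothE a).of_le (by simp)
  have hEb : ContDiff ℝ 1 (E b) := (hB.smoothE b).of_le (by simp)
  have hsg := contDiff_segField hB.smooth a b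
  have hsg1 : ContDiff ℝ 1 (segField ρ a b) := hsg.of_le (by simp)
  have h3 : z.flux f (fun r => (fun r => E a r - E b r) r - segField ρ a b r) = 0 := by
    refine hs.flux_zero hR (((hB.smoothE a).sub (hB.smoothE b)).sub hsg) fun r _ => ?_
    rw [div3_sub (V := fun r => E a r - E b r) (hEa.sub hEb) hsg1, div3_sub hEa hEb,
      hB.divE, hB.divE, div3_segField hB.smooth, sub_self]
  rw [hs.flux_sub_potential (V := fun r => E a r - E b r)
    (hEa.continuous.sub hEb.continuous) hsg1.continuous,
    hs.flux_sub_potential hEa.continuous hEb.continuous] at h3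
  rw [h1, h2]
  exact sub_eq_zero.1 h3

private theorem Setting.eventually_potential (hs : Setting f z) {p : Space}
    (hp : p ∉ f '' closedBall (0 : Plane) 1) :
    ∀ᶠ q in 𝓝 p, z.flux f (newt p) = z.flux f (newt q) := by
  have hc : IsCompact (f '' closedBall (0 : Plane) 1) :=
    (isCompact_closedBall 0 1).image hs.smooth.continuous
  obtain ⟨δ, hδ, hball⟩ := Metric.mem_nhds_iff.1 (hc.isClosed.isOpen_compl.mem_nhds hp)
  have hfar : ∀ y ∈ closedBall (0 : Plane) 1, δ ≤ ‖f y - p‖ := by
    intro y hy
    by_contra hlt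
    have : f y ∈ ball p δ := by
      rw [mem_ball, dist_eq_norm]
      exact not_le.1 hlt
    exact hball this ⟨y, hy, rfl⟩
  obtain ⟨ρ, E, hB⟩ := exists_bump3 (half_pos hδ)
  filter_upwards [ball_mem_nhds p (half_pos hδ)] with q hq
  have hq' : ‖q - p‖ < δ / 2 := by rwa [mem_ball, dist_eq_norm] at hq
  have hseg : ∀ y ∈ closedBall (0 : Plane) 1, ∀ t ∈ Icc (0 : ℝ) 1,
      δ / 2 ≤ ‖f y - (p + t • (q - p))‖ := by
    intro y hy t ht
    have h1 : ‖t • (q - p)‖ ≤ ‖q - p‖ := by
      rw [norm_smul, Real.norm_of_nonneg ht.1]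
      exact mul_le_of_le_one_left (norm_nonneg _) ht.2
    have h2 : ‖f y - p‖ ≤ ‖f y - (p + t • (q - p))‖ + ‖t • (q - p)‖ := by
      have : f y - p = (f y - (p + t • (q - p))) + t • (q - p) := by abel
      calc ‖f y - p‖ = ‖(f y - (p + t • (q - p))) + t • (q - p)‖ := by rw [← this]
        _ ≤ _ := norm_add_le _ _
    linarith [hfar y hy]
  have h0 := hs.flux_newt_sub (half_pos hδ) hB (a := p) (b := q)
    (fun y hy => by linarith [hfar y hy])
    (fun y hy => by
      have := hseg y hy 1 ⟨zero_le_one, le_rfl⟩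
      simpa using this)
  have h1 : z.flux f (segField ρ p q) = 0 := by
    unfold PChain.flux
    rw [setIntegral_congr_fun (g := fun _ => (0 : ℝ)) measurableSet_closedBall fun y hy => ?_]
    · simp
    · change z.wnd y * inner ℝ (segField ρ p q (f y)) (nvec f y) = 0
      rw [segField_eq_zero hB (hseg y hy)]
      simp
  rw [h1] at h0
  exact sub_eq_zero.1 h0

theorem Setting.flux_newt_const (hs : Setting f z) {S : Set Space} (hS : IsPreconnected S)
    (hd : Disjoint S (f '' closedBall (0 : Plane) 1)) {p q : Space} (hp : p ∈ S) (hq : q ∈ S) :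
    z.flux f (newt p) = z.flux f (newt q) := by
  refine hS.induction₂ (fun a b => z.flux f (newt a) = z.flux f (newt b)) (fun a ha => ?_)
    (fun a b c _ _ _ h1 h2 => h1.trans h2) (fun a b _ _ h => h.symm) hp hq
  exact nhdsWithin_le_nhds (hs.eventually_potential (Set.disjoint_left.1 hd ha))

theorem Setting.flux_newt_unbounded (hs : Setting f z) {S : Set Space} (hS : IsPreconnected S)
    (hd : Disjoint S (f '' closedBall (0 : Plane) 1)) (hu : ¬ Bornology.IsBounded S) {p : Space}
    (hp : p ∈ S) : z.flux f (newt p) = 0 := by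
  obtain ⟨R, hR⟩ := hs.exists_ball_potential
  obtain ⟨ρ, E, hB⟩ := exists_bump3 one_pos
  have hq : ∃ q ∈ S, R + 1 < ‖q‖ := by
    by_contra hno
    push Not at hno
    refine hu ((Metric.isBounded_closedBall (x := (0 : Space)) (r := R + 1)).subset ?_)
    intro q hq
    rw [mem_closedBall, dist_zero_right]
    exact hno q hq
  obtain ⟨q, hqS, hq⟩ := hq
  have hfar : ∀ r ∈ ball (0 : Space) R, 1 ≤ ‖r - q‖ := by
    intro r hr
    rw [mem_ball, dist_zero_right] at hr
    have : ‖q‖ ≤ ‖r - q‖ + ‖r‖ := by
      calc ‖q‖ = ‖r - (r - q)‖ := by congr 1; abel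
        _ ≤ ‖r‖ + ‖r - q‖ := norm_sub_le _ _
        _ = _ := add_comm _ _
    linarith
  rw [hs.flux_newt_const hS hd hp hqS, flux_congr_potential (W := E q)
    fun y hy => (hB.eqE q (f y) (hfar _ (hR y hy))).symm]
  refine hs.flux_zero hR (hB.smoothE q) fun r hr => ?_
  rw [hB.divE]
  exact hB.zero _ (hfar r hr)

end Pool.Agent.Lib_MP_752436_ch
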