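import Pool.Agent.Lib_MP_752436_ch.Defs

/-!
Piece E3: the two sides of an immersed disc near a simple point.
-/

open MeasureTheory Metric Set Filter
open scoped ContDiff Topology

namespace Pool.Agent.Lib_MP_752436_ch

open Pool.Agent.Lib_MP_752436_gt Pool.Agent.Lib_MP_752436_tp Pool.Agent.Lib_MP_752436_rb

variable {f : Plane → Space}

/-- Near `(q, 0)` the map `(x, s) ↦ f x + s N` is a local diffeomorphism which meets the surface
only in the points with `s = 0`. -/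
private theorem sides_chart (hf : ContDiff ℝ ∞ f) {q : Plane}
    (himm : Function.Injective (fderiv ℝ f q))
    (hs : ∀ y ∈ closedBall (0 : Plane) 1, f y = f q → y = q) {R : ℝ} (hR : 0 < R) :
    ∃ N : Space, ∃ r : ℝ, 0 < r ∧ r ≤ R ∧
      IsOpen ((fun p : Plane × ℝ => f p.1 + p.2 • N) '' (ball q r ×ˢ Ioo (-r) r)) ∧
      (∀ x ∈ ball q r, ∀ s ∈ Ioo (-r) r, ∀ y ∈ closedBall (0 : Plane) 1,
        f x + s • N = f y → x = y ∧ s = 0) := by
  set A : Plane →L[ℝ] Space := fderiv ℝ f q with hA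
  -- a vector outside the range of `A`
  have hne : LinearMap.range (A : Plane →ₗ[ℝ] Space) ≠ ⊤ := by
    intro h
    have h1 : Module.finrank ℝ (LinearMap.range (A : Plane →ₗ[ℝ] Space)) ≤ 2 := by
      have := LinearMap.finrank_range_le (A : Plane →ₗ[ℝ] Space)
      simpa using this
    rw [h, finrank_top] at h1
    simp at h1
  obtain ⟨N, -, hN⟩ : ∃ N ∈ (⊤ : Submodule ℝ Space),
      N ∉ LinearMap.range (A : Plane →ₗ[ℝ] Space) :=
    SetLike.exists_of_lt (lt_top_iff_ne_top.2 hne)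
  -- the derivative
  let L : Plane × ℝ →L[ℝ] Space :=
    A.comp (ContinuousLinearMap.fst ℝ Plane ℝ) +
      (ContinuousLinearMap.snd ℝ Plane ℝ).smulRight N
  have hLapp : ∀ p : Plane × ℝ, L p = A p.1 + p.2 • N := fun p => by simp [L]
  have hLinj : Function.Injective L := by
    rw [injective_iff_map_eq_zero]
    rintro ⟨u, t⟩ h
    rw [hLapp] at h
    have ht : t = 0 := by
      by_contra ht
      apply hN
      refine ⟨-(t⁻¹ • u), ?_⟩
      have h' : A u = -(t • N) := eq_neg_of_add_eq_zero_left h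
      have : A (-(t⁻¹ • u)) = N := by
        rw [map_neg, map_smul, h', smul_neg, neg_neg, smul_smul, inv_mul_cancel₀ ht, one_smul]
      exact this
    subst ht
    simp only [zero_smul, add_zero] at h
    have : u = 0 := himm (by simpa using h)
    simp [this]
  let e : (Plane × ℝ) ≃L[ℝ] Space :=
    (LinearMap.linearEquivOfInjective (L : Plane × ℝ →ₗ[ℝ] Space) hLinj
      (by simp)).toContinuousLinearEquiv
  have he : (e : Plane × ℝ →L[ℝ] Space) = L := ContinuousLinearMap.ext fun p => rfl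
  set Ψ : Plane × ℝ → Space := fun p => f p.1 + p.2 • N with hΨ
  have hΨc : Continuous Ψ := (hf.continuous.comp continuous_fst).add
    (continuous_snd.smul continuous_const)
  have hd : HasStrictFDerivAt Ψ (e : Plane × ℝ →L[ℝ] Space) (q, 0) := by
    rw [he]
    have h1 : HasStrictFDerivAt f A q := (hf.contDiffAt).hasStrictFDerivAt (by simp)
    have h2 : HasStrictFDerivAt (fun p : Plane × ℝ => f p.1)
        (A.comp (ContinuousLinearMap.fst ℝ Plane ℝ)) (q, 0) :=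
      h1.comp (q, (0 : ℝ)) hasStrictFDerivAt_fst
    have h3 : HasStrictFDerivAt (fun p : Plane × ℝ => p.2 • N)
        ((ContinuousLinearMap.snd ℝ Plane ℝ).smulRight N) (q, 0) :=
      ((ContinuousLinearMap.snd ℝ Plane ℝ).smulRight N).hasStrictFDerivAt
    exact h2.add h3
  let Φ := hd.toOpenPartialHomeomorph Ψ
  have hΦ : (Φ : Plane × ℝ → Space) = Ψ := rfl
  have hsrc : Φ.source ∈ 𝓝 ((q, 0) : Plane × ℝ) :=
    Φ.open_source.mem_nhds hd.mem_toOpenPartialHomeomorph_source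
  -- boxes
  have hbox : ∀ W ∈ 𝓝 ((q, 0) : Plane × ℝ), ∃ r > 0, ball q r ×ˢ Ioo (-r) r ⊆ W := by
    intro W hW
    obtain ⟨r, hr, hrW⟩ := Metric.mem_nhds_iff.1 hW
    refine ⟨r, hr, ?_⟩
    rintro ⟨x, s⟩ ⟨hx, hs'⟩
    apply hrW
    rw [mem_ball, Prod.dist_eq, max_lt_iff]
    refine ⟨hx, ?_⟩
    simp only [Real.dist_eq, sub_zero, abs_lt]
    exact hs'
  obtain ⟨r1, hr1, hbox1⟩ := hbox _ hsrc
  have hK : IsCompact (f '' (closedBall (0 : Plane) 1 \ ball q r1)) :=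
    ((isCompact_closedBall _ _).diff isOpen_ball).image hf.continuous
  have hqK : Ψ (q, 0) ∉ f '' (closedBall (0 : Plane) 1 \ ball q r1) := by
    rintro ⟨y, ⟨hy, hy'⟩, hyq⟩
    apply hy'
    have : f y = f q := by simpa [hΨ] using hyq
    rw [hs y hy this]
    exact mem_ball_self hr1
  have hW2 : Ψ ⁻¹' (f '' (closedBall (0 : Plane) 1 \ ball q r1))ᶜ ∈ 𝓝 ((q, 0) : Plane × ℝ) :=
    (hK.isClosed.isOpen_compl.preimage hΨc).mem_nhds hqK
  obtain ⟨r2, hr2, hbox2⟩ := hbox _ hW2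
  have hmono : ∀ {a b : ℝ}, a ≤ b → ball q a ×ˢ Ioo (-a) a ⊆ ball q b ×ˢ Ioo (-b) b :=
    fun {a b} hab => prod_mono (ball_subset_ball hab) (Ioo_subset_Ioo (neg_le_neg hab) hab)
  refine ⟨N, min R (min r1 r2), lt_min hR (lt_min hr1 hr2), min_le_left _ _, ?_, ?_⟩
  · have hsub : ball q (min R (min r1 r2)) ×ˢ Ioo (-min R (min r1 r2)) (min R (min r1 r2)) ⊆
        Φ.source :=
      (hmono ((min_le_right _ _).trans (min_le_left _ _))).trans hbox1
    exact Φ.isOpen_image_of_subset_source (isOpen_ball.prod isOpen_Ioo) hsub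
  · intro x hx s hs' y hy hxy
    have hmem1 : (x, s) ∈ Φ.source :=
      hbox1 (hmono ((min_le_right _ _).trans (min_le_left _ _)) ⟨hx, hs'⟩)
    have hmem2 : Ψ (x, s) ∉ f '' (closedBall (0 : Plane) 1 \ ball q r1) :=
      hbox2 (hmono ((min_le_right _ _).trans (min_le_right _ _)) ⟨hx, hs'⟩)
    have hy1 : y ∈ ball q r1 := by
      by_contra hy'
      exact hmem2 ⟨y, ⟨hy, hy'⟩, hxy.symm⟩
    have hmem3 : ((y, 0) : Plane × ℝ) ∈ Φ.source := hbox1 ⟨hy1, by simp [hr1]⟩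
    have := Φ.injOn hmem1 hmem3 (show Ψ (x, s) = Ψ (y, 0) by simpa [hΨ] using hxy)
    exact ⟨congrArg Prod.fst this, congrArg Prod.snd this⟩

private theorem sides_cont (hf : ContDiff ℝ ∞ f) (N : Space) :
    Continuous (fun p : Plane × ℝ => f p.1 + p.2 • N) :=
  (hf.continuous.comp continuous_fst).add (continuous_snd.smul continuous_const)

/-- Near the image of an interior simple point `q` the complement of the surface is contained in
two connected sets, and the images of the points near `q` are in the closures of both. -/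
theorem exists_sides (hf : ContDiff ℝ ∞ f) {q : Plane} (hq : q ∈ ball (0 : Plane) 1)
    (himm : Function.Injective (fderiv ℝ f q))
    (hs : ∀ y ∈ closedBall (0 : Plane) 1, f y = f q → y = q) :
    ∃ U ∈ 𝓝 (f q), ∃ P M : Set Space, IsPreconnected P ∧ IsPreconnected M ∧
      P ⊆ (f '' closedBall (0 : Plane) 1)ᶜ ∧ M ⊆ (f '' closedBall (0 : Plane) 1)ᶜ ∧
      U \ f '' closedBall (0 : Plane) 1 ⊆ P ∪ M ∧
      ∀ᶠ y in 𝓝 q, f y ∈ closure P ∧ f y ∈ closure M := by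
  obtain ⟨R, hR, hRb⟩ := Metric.isOpen_iff.1 isOpen_ball q hq
  obtain ⟨N, r, hr, hrR, hopen, hsimple⟩ := sides_chart hf himm hs hR
  set Ψ : Plane × ℝ → Space := fun p => f p.1 + p.2 • N with hΨ
  have hΨc : Continuous Ψ := sides_cont hf N
  have hsub : ball q r ⊆ closedBall (0 : Plane) 1 :=
    (ball_subset_ball hrR).trans (hRb.trans ball_subset_closedBall)
  have hPcompl : ∀ T : Set ℝ, T ⊆ Ioo (-r) r → (0 : ℝ) ∉ T →
      Ψ '' (ball q r ×ˢ T) ⊆ (f '' closedBall (0 : Plane) 1)ᶜ := by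
    rintro T hT h0 _ ⟨⟨x, s⟩, ⟨hx, hs'⟩, rfl⟩ ⟨y, hy, hyx⟩
    have := (hsimple x hx s (hT hs') y hy hyx.symm).2
    exact h0 (this ▸ hs')
  have hconn : ∀ T : Set ℝ, Convex ℝ T → IsPreconnected (Ψ '' (ball q r ×ˢ T)) := fun T hT =>
    (((convex_ball q r).prod hT).isPreconnected).image _ hΨc.continuousOn
  have hcl : ∀ T : Set ℝ, (0 : ℝ) ∈ closure T → ∀ y ∈ ball q r,
      f y ∈ closure (Ψ '' (ball q r ×ˢ T)) := by
    intro T h0 y hy
    have h1 : ((y, 0) : Plane × ℝ) ∈ closure (ball q r ×ˢ T) := by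
      rw [closure_prod_eq]
      exact ⟨subset_closure hy, h0⟩
    have h2 := image_closure_subset_closure_image hΨc (mem_image_of_mem Ψ h1)
    simpa [hΨ] using h2
  refine ⟨Ψ '' (ball q r ×ˢ Ioo (-r) r), ?_, Ψ '' (ball q r ×ˢ Ioo 0 r),
    Ψ '' (ball q r ×ˢ Ioo (-r) 0), hconn _ (convex_Ioo _ _), hconn _ (convex_Ioo _ _), ?_, ?_, ?_, ?_⟩
  · exact hopen.mem_nhds ⟨(q, 0), ⟨mem_ball_self hr, by simp [hr]⟩, by simp [hΨ]⟩
  · exact hPcompl _ (Ioo_subset_Ioo (by linarith) le_rfl) (by simp)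
  · exact hPcompl _ (Ioo_subset_Ioo le_rfl hr.le) (by simp)
  · rintro _ ⟨⟨⟨x, s⟩, ⟨hx, hs'⟩, rfl⟩, hns⟩
    rcases lt_trichotomy s 0 with h | h | h
    · exact Or.inr ⟨(x, s), ⟨hx, hs'.1, h⟩, rfl⟩
    · exact absurd ⟨x, hsub hx, by simp [hΨ, h]⟩ hns
    · exact Or.inl ⟨(x, s), ⟨hx, h, hs'.2⟩, rfl⟩
  · filter_upwards [ball_mem_nhds q hr] with y hy
    refine ⟨hcl _ ?_ y hy, hcl _ ?_ y hy⟩
    · rw [closure_Ioo hr.ne]
      exact ⟨le_rfl, hr.le⟩
    · rw [closure_Ioo (by linarith : -r ≠ 0)]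
      exact ⟨by linarith, le_rfl⟩

/-- Near the image of a simple point of the circle the complement of the surface is connected. -/
theorem exists_side_circle (hf : ContDiff ℝ ∞ f) {q : Plane} (hq : q ∈ sphere (0 : Plane) 1)
    (himm : Function.Injective (fderiv ℝ f q))
    (hs : ∀ y ∈ closedBall (0 : Plane) 1, f y = f q → y = q) :
    ∃ U ∈ 𝓝 (f q), ∃ S : Set Space, IsPreconnected S ∧
      S ⊆ (f '' closedBall (0 : Plane) 1)ᶜ ∧ U \ f '' closedBall (0 : Plane) 1 ⊆ S := by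
  obtain ⟨N, r, hr, -, hopen, hsimple⟩ := sides_chart hf himm hs one_pos
  set Ψ : Plane × ℝ → Space := fun p => f p.1 + p.2 • N with hΨ
  have hΨc : Continuous Ψ := sides_cont hf N
  have hqn : ‖q‖ = 1 := by simpa using hq
  -- a point of the ball outside the disc
  have hx0 : (1 + r / 2) • q ∈ ball q r := by
    rw [mem_ball, dist_eq_norm]
    have : (1 + r / 2) • q - q = (r / 2) • q := by rw [add_smul, one_smul, add_sub_cancel_left]
    rw [this, norm_smul, hqn, mul_one, Real.norm_eq_abs, abs_of_pos (by linarith)]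
    linarith
  have hx0' : (1 + r / 2) • q ∉ closedBall (0 : Plane) 1 := by
    rw [mem_closedBall, dist_zero_right, norm_smul, hqn, mul_one, Real.norm_eq_abs,
      abs_of_pos (by linarith)]
    linarith
  set x0 : Plane := (1 + r / 2) • q with hx0def
  -- the set of parameters
  let W : Set (Plane × ℝ) := (ball q r ×ˢ Ioo (-r) r) \ (closedBall (0 : Plane) 1 ×ˢ {0})
  have hvert : ∀ x : Plane, IsPreconnected (({x} : Set Plane) ×ˢ Ioo (-r) r) := fun x =>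
    ((convex_singleton x).prod (convex_Ioo (-r) r)).isPreconnected
  have hup : IsPreconnected (ball q r ×ˢ Ioo 0 r) :=
    ((convex_ball q r).prod (convex_Ioo 0 r)).isPreconnected
  have hdn : IsPreconnected (ball q r ×ˢ Ioo (-r) 0) :=
    ((convex_ball q r).prod (convex_Ioo (-r) 0)).isPreconnected
  have hh : r / 2 ∈ Ioo (-r) r := ⟨by linarith, by linarith⟩
  have hh' : r / 2 ∈ Ioo 0 r := ⟨by linarith, by linarith⟩
  have hB1 : IsPreconnected ((ball q r ×ˢ Ioo 0 r) ∪ (({x0} : Set Plane) ×ˢ Ioo (-r) r)) :=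
    hup.union (x0, r / 2) ⟨hx0, hh'⟩ ⟨rfl, hh⟩ (hvert x0)
  have hB : IsPreconnected (((ball q r ×ˢ Ioo 0 r) ∪ (({x0} : Set Plane) ×ˢ Ioo (-r) r)) ∪
      (ball q r ×ˢ Ioo (-r) 0)) :=
    hB1.union (x0, -(r / 2)) (Or.inr ⟨rfl, by linarith, by linarith⟩)
      ⟨hx0, by linarith, by linarith⟩ hdn
  have hsubW : ∀ x ∈ ball q r, x ∉ closedBall (0 : Plane) 1 →
      ({x} : Set Plane) ×ˢ Ioo (-r) r ⊆ W := by
    rintro x hx hx' ⟨x1, s⟩ ⟨hx1, hs1⟩
    rw [mem_singleton_iff] at hx1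
    subst hx1
    exact ⟨⟨hx, hs1⟩, fun h => hx' h.1⟩
  have hBW : ((ball q r ×ˢ Ioo 0 r) ∪ (({x0} : Set Plane) ×ˢ Ioo (-r) r)) ∪
      (ball q r ×ˢ Ioo (-r) 0) ⊆ W := by
    rintro ⟨x, s⟩ ((⟨hx, h1, h2⟩ | h) | ⟨hx, h1, h2⟩)
    · exact ⟨⟨hx, by linarith, h2⟩, fun h => h1.ne' h.2⟩
    · exact hsubW x0 hx0 hx0' h
    · exact ⟨⟨hx, h1, by linarith⟩, fun h => h2.ne h.2⟩
  have hWc : IsPreconnected W := by
    refine isPreconnected_of_forall (x0, r / 2) ?_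
    rintro ⟨x, s⟩ ⟨⟨hx, hs'⟩, hxs⟩
    rcases lt_trichotomy s 0 with h | h | h
    · exact ⟨_, hBW, Or.inl (Or.inl ⟨hx0, hh'⟩), Or.inr ⟨hx, hs'.1, h⟩, hB⟩
    · have hx' : x ∉ closedBall (0 : Plane) 1 := fun h' => hxs ⟨h', h⟩
      refine ⟨_, union_subset hBW (hsubW x hx hx'), Or.inl (Or.inl (Or.inl ⟨hx0, hh'⟩)),
        Or.inr ⟨rfl, hs'⟩, hB.union (x, r / 2) (Or.inl (Or.inl ⟨hx, hh'⟩)) ⟨rfl, hh⟩ (hvert x)⟩
    · exact ⟨_, hBW, Or.inl (Or.inl ⟨hx0, hh'⟩), Or.inl (Or.inl ⟨hx, h, hs'.2⟩), hB⟩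
  refine ⟨Ψ '' (ball q r ×ˢ Ioo (-r) r), ?_, Ψ '' W, hWc.image _ hΨc.continuousOn, ?_, ?_⟩
  · exact hopen.mem_nhds ⟨(q, 0), ⟨mem_ball_self hr, by simp [hr]⟩, by simp [hΨ]⟩
  · rintro _ ⟨⟨x, s⟩, ⟨⟨hx, hs'⟩, hxs⟩, rfl⟩ ⟨y, hy, hyx⟩
    obtain ⟨h1, h2⟩ := hsimple x hx s hs' y hy hyx.symm
    exact hxs ⟨h1 ▸ hy, h2⟩
  · rintro _ ⟨⟨⟨x, s⟩, ⟨hx, hs'⟩, rfl⟩, hns⟩
    refine ⟨(x, s), ⟨⟨hx, hs'⟩, ?_⟩, rfl⟩
    rintro ⟨h1, h2⟩
    have h3 : s = 0 := h2
    exact hns ⟨x, h1, by simp [hΨ, h3]⟩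

end Pool.Agent.Lib_MP_752436_ch
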