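import Pool.Agent.Lib_MP_752436_ch.Defs

/-!
Piece E2: finitely many curves do not separate space.
-/

open MeasureTheory Metric Set Filter
open scoped ContDiff Topology

namespace Pool.Agent.Lib_MP_752436_ch

open Pool.Agent.Lib_MP_752436_gt Pool.Agent.Lib_MP_752436_tp Pool.Agent.Lib_MP_752436_rb

private theorem SpaceCurves_cone {n : ℕ} {γ : Fin n → ℝ → Space}
    (hγ : ∀ i, ContDiff ℝ 1 (γ i)) (p : Space) :
    dimH (⋃ i, range fun w : ℝ × ℝ => p + w.1 • (γ i w.2 - p)) ≤ 2 := by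
  rw [dimH_iUnion]
  refine iSup_le fun i => ?_
  have h : ContDiff ℝ 1 fun w : ℝ × ℝ => p + w.1 • (γ i w.2 - p) :=
    contDiff_const.add (contDiff_fst.smul (((hγ i).comp contDiff_snd).sub contDiff_const))
  refine h.dimH_range_le.trans ?_
  have : Module.finrank ℝ (ℝ × ℝ) = 2 := by simp
  rw [this]
  norm_num

private theorem SpaceCurves_segment {n : ℕ} {γ : Fin n → ℝ → Space} {p z : Space}
    (hp : p ∈ (⋃ i, γ i '' Icc (0 : ℝ) 1)ᶜ)
    (hz : z ∉ ⋃ i, range fun w : ℝ × ℝ => p + w.1 • (γ i w.2 - p)) :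
    segment ℝ p z ⊆ (⋃ i, γ i '' Icc (0 : ℝ) 1)ᶜ := by
  rintro x hx hxX
  rw [mem_iUnion] at hxX
  obtain ⟨i, t, ht, rfl⟩ := hxX
  rw [segment_eq_image'] at hx
  obtain ⟨τ, _, hτ⟩ := hx
  have hτ0 : τ ≠ 0 := by
    rintro rfl
    apply hp
    rw [mem_iUnion]
    refine ⟨i, t, ht, ?_⟩
    rw [← hτ]
    simp
  apply hz
  rw [mem_iUnion]
  refine ⟨i, (τ⁻¹, t), ?_⟩
  simp only
  rw [← hτ, add_sub_cancel_left, smul_smul, inv_mul_cancel₀ hτ0, one_smul]
  abel

/-- For two points off the curves almost every broken line through a third point avoids the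
curves: the cone over a curve is null. -/
theorem isPreconnected_compl_curves {n : ℕ} {γ : Fin n → ℝ → Space}
    (hγ : ∀ i, ContDiff ℝ 1 (γ i)) : IsPreconnected (⋃ i, γ i '' Icc (0 : ℝ) 1)ᶜ := by
  refine isPreconnected_of_forall_pair fun p hp q hq => ?_
  have hd : dimH ((⋃ i, range fun w : ℝ × ℝ => p + w.1 • (γ i w.2 - p)) ∪
      ⋃ i, range fun w : ℝ × ℝ => q + w.1 • (γ i w.2 - q)) < Module.finrank ℝ Space := by
    rw [dimH_union]
    refine (max_le (SpaceCurves_cone hγ p) (SpaceCurves_cone hγ q)).trans_lt ?_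
    have : Module.finrank ℝ Space = 3 := by simp
    rw [this]
    norm_num
  obtain ⟨z, hz⟩ := (dense_compl_of_dimH_lt_finrank hd).nonempty
  rw [mem_compl_iff, mem_union, not_or] at hz
  refine ⟨segment ℝ p z ∪ segment ℝ q z, ?_, Or.inl (left_mem_segment ℝ p z),
    Or.inr (left_mem_segment ℝ q z), ?_⟩
  · exact union_subset (SpaceCurves_segment hp hz.1) (SpaceCurves_segment hq hz.2)
  · exact IsPreconnected.union z (right_mem_segment ℝ p z) (right_mem_segment ℝ q z)
      (convex_segment p z).isPreconnected (convex_segment q z).isPreconnected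

end Pool.Agent.Lib_MP_752436_ch
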