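import Pool.Agent.Lib_MP_752436_ch.PlaneArcs
import Pool.Agent.Lib_MP_752436_ch.SpaceCurves
import Pool.Agent.Lib_MP_752436_ch.Sides

/-!
Piece E4: the image of a ribbon immersion does not separate space.
-/

open MeasureTheory Metric Set Filter
open scoped ContDiff Topology

namespace Pool.Agent.Lib_MP_752436_ch

open Pool.Agent.Lib_MP_752436_gt Pool.Agent.Lib_MP_752436_tp Pool.Agent.Lib_MP_752436_rb

/-- Near the point `p` the complement of `X` lies in one connected part of the complement. -/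
private def OneSided (X : Set Space) (p : Space) : Prop :=
  ∃ U ∈ 𝓝 p, ∃ S : Set Space, IsPreconnected S ∧ S ⊆ Xᶜ ∧ U \ X ⊆ S

private theorem OneSided.eventually {X : Set Space} {p : Space} (h : OneSided X p) :
    ∀ᶠ x in 𝓝 p, OneSided X x := by
  obtain ⟨U, hU, S, hS, hSX, hUS⟩ := h
  filter_upwards [eventually_mem_nhds_iff.2 hU] with x hx
  exact ⟨U, hx, S, hS, hSX, hUS⟩

/-- If the complement of a closed set `X` with dense complement is one sided at all points of `X`
off a set `Y ⊆ X` with preconnected complement, then it is preconnected. -/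
private theorem isPreconnected_compl_of_oneSided {X Y : Set Space} (hX : IsClosed X)
    (hXd : Dense Xᶜ) (hYX : Y ⊆ X) (hY : IsPreconnected Yᶜ)
    (hJ : ∀ p ∈ X, p ∉ Y → OneSided X p) : IsPreconnected Xᶜ := by
  intro u v hu hv hcov hneu hnev
  by_contra hcon
  rw [not_nonempty_iff_eq_empty] at hcon
  -- the two parts of the complement
  set C : Set Space := Xᶜ ∩ u with hC
  set C' : Set Space := Xᶜ ∩ v with hC'
  have hCo : IsOpen C := hX.isOpen_compl.inter hu
  have hCo' : IsOpen C' := hX.isOpen_compl.inter hv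
  have hdisj : ∀ x, x ∈ C → x ∉ C' := by
    intro x hx hx'
    have : x ∈ Xᶜ ∩ (u ∩ v) := ⟨hx.1, hx.2, hx'.2⟩
    rw [hcon] at this
    exact this
  have hcover : Xᶜ ⊆ C ∪ C' := by
    intro x hx
    rcases hcov hx with h | h
    · exact Or.inl ⟨hx, h⟩
    · exact Or.inr ⟨hx, h⟩
  set V : Set Space := {p | ∀ᶠ x in 𝓝 p, x ∉ X → x ∈ C} with hV
  set V' : Set Space := {p | ∀ᶠ x in 𝓝 p, x ∉ X → x ∈ C'} with hV'
  have hVo : IsOpen V := by
    rw [isOpen_iff_mem_nhds]
    intro p hp
    exact eventually_eventually_nhds.2 hp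
  have hVo' : IsOpen V' := by
    rw [isOpen_iff_mem_nhds]
    intro p hp
    exact eventually_eventually_nhds.2 hp
  have hCV : C ⊆ V := by
    intro x hx
    filter_upwards [hCo.mem_nhds hx] with y hy _ using hy
  have hCV' : C' ⊆ V' := by
    intro x hx
    filter_upwards [hCo'.mem_nhds hx] with y hy _ using hy
  have hYV : Yᶜ ⊆ V ∪ V' := by
    intro p hp
    by_cases hpX : p ∈ X
    · obtain ⟨U, hU, S, hS, hSX, hUS⟩ := hJ p hpX hp
      have h1 : S ⊆ C ∨ S ⊆ C' := by
        refine hS.subset_or_subset hCo hCo' ?_ (hSX.trans hcover)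
        rw [disjoint_left]
        exact hdisj
      rcases h1 with h1 | h1
      · refine Or.inl ?_
        filter_upwards [hU] with y hy hyX using h1 (hUS ⟨hy, hyX⟩)
      · refine Or.inr ?_
        filter_upwards [hU] with y hy hyX using h1 (hUS ⟨hy, hyX⟩)
    · rcases hcover hpX with h | h
      · exact Or.inl (hCV h)
      · exact Or.inr (hCV' h)
  have hsub : Xᶜ ⊆ Yᶜ := compl_subset_compl.2 hYX
  obtain ⟨a, ha⟩ := hneu
  obtain ⟨b, hb⟩ := hnev
  obtain ⟨p, -, hpV, hpV'⟩ := hY V V' hVo hVo' hYV ⟨a, hsub ha.1, hCV ha⟩ ⟨b, hsub hb.1, hCV' hb⟩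
  have h2 : ∀ᶠ x in 𝓝 p, x ∈ X := by
    filter_upwards [hpV, hpV'] with x hx hx'
    by_contra hxX
    exact hdisj x (hx hxX) (hx' hxX)
  obtain ⟨x, hx, hxX⟩ := hXd.inter_nhds_nonempty h2
  exact hx hxX

/-- At the simple points which can be joined to the circle through simple points the complement of
the surface is one sided. -/
private theorem oneSided_of_joined {f : Plane → Space} (hf : ContDiff ℝ ∞ f)
    (himm : ∀ x ∈ closedBall (0 : Plane) 1, Function.Injective (fderiv ℝ f x))
    {S : Set Plane} (hS : IsPreconnected S) (hSb : S ⊆ closedBall (0 : Plane) 1)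
    (hSs : ∀ x ∈ S, ∀ y ∈ closedBall (0 : Plane) 1, f y = f x → y = x)
    (hne : (S ∩ sphere (0 : Plane) 1).Nonempty) :
    ∀ x ∈ S, OneSided (f '' closedBall (0 : Plane) 1) (f x) := by
  set X : Set Space := f '' closedBall (0 : Plane) 1 with hX
  set u : Set Plane := {x | OneSided X (f x)} with hu
  have huo : IsOpen u := by
    rw [isOpen_iff_mem_nhds]
    intro x hx
    exact hf.continuous.continuousAt.eventually (OneSided.eventually hx)
  have hcirc : ∀ x ∈ S, x ∈ sphere (0 : Plane) 1 → x ∈ u := by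
    intro x hx hxc
    obtain ⟨U, hU, T, hT, hTX, hUT⟩ := exists_side_circle hf hxc (himm x (hSb hx)) (hSs x hx)
    exact ⟨U, hU, T, hT, hTX, hUT⟩
  have hSu : S ⊆ u := by
    refine hS.subset_of_closure_inter_subset huo ?_ ?_
    · obtain ⟨x, hx, hxc⟩ := hne
      exact ⟨x, hx, hcirc x hx hxc⟩
    · rintro x ⟨hxu, hxS⟩
      by_cases hxc : x ∈ sphere (0 : Plane) 1
      · exact hcirc x hxS hxc
      · have hxb : x ∈ ball (0 : Plane) 1 := by
          have h1 := hSb hxS
          rw [mem_closedBall] at h1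
          rw [mem_ball]
          exact lt_of_le_of_ne h1 fun h => hxc h
        obtain ⟨U, hU, P, M, hP, hM, hPX, hMX, hUPM, hev⟩ :=
          exists_sides hf hxb (himm x (hSb hxS)) (hSs x hxS)
        obtain ⟨y, hyu, hyP, hyM⟩ : ∃ y, y ∈ u ∧ f y ∈ closure P ∧ f y ∈ closure M := by
          obtain ⟨y, hy1, hy2⟩ := (mem_closure_iff_frequently.1 hxu).and_eventually hev |>.exists
          exact ⟨y, hy1, hy2⟩
        obtain ⟨U', hU', T, hT, hTX, hUT⟩ := hyu
        obtain ⟨p, hpU, hpP⟩ := mem_closure_iff_nhds.1 hyP U' hU'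
        obtain ⟨m, hmU, hmM⟩ := mem_closure_iff_nhds.1 hyM U' hU'
        have hpT : p ∈ T := hUT ⟨hpU, hPX hpP⟩
        have hmT : m ∈ T := hUT ⟨hmU, hMX hmM⟩
        refine ⟨U, hU, (P ∪ T) ∪ M, ?_, ?_, ?_⟩
        · exact IsPreconnected.union m (Or.inr hmT) hmM (IsPreconnected.union p hpP hpT hP hT) hM
        · exact union_subset (union_subset hPX hTX) hMX
        · intro z hz
          rcases hUPM hz with h | h
          · exact Or.inl (Or.inl h)
          · exact Or.inr h
  exact hSu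

theorem isConnected_compl_ribbon {f : Plane → Space} (hf : RibbonImmersion f) :
    IsConnected (f '' closedBall (0 : Plane) 1)ᶜ := by
  obtain ⟨n, α, β, hp, hd, hc⟩ := hf.singularities
  have hs1 : ContDiff ℝ 1 f := hf.smooth.of_le (by simp)
  set X : Set Space := f '' closedBall (0 : Plane) 1 with hX
  have hXc : IsClosed X := ((isCompact_closedBall _ _).image hf.smooth.continuous).isClosed
  have hXd : Dense Xᶜ := by
    refine (hs1.dense_compl_range_of_finrank_lt_finrank (by simp)).mono ?_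
    exact compl_subset_compl.2 (image_subset_range _ _)
  refine ⟨hXd.nonempty, ?_⟩
  -- all the arcs
  set δ : Fin (n + n) → ℝ → Plane := Fin.append α β with hδ
  have hδl : ∀ i, δ (Fin.castAdd n i) = α i := fun i => Fin.append_left α β i
  have hδr : ∀ i, δ (Fin.natAdd n i) = β i := fun i => Fin.append_right α β i
  have hδarc : ∀ i, IsArc (δ i) := by
    intro i
    refine Fin.addCases (fun j => ?_) (fun j => ?_) i
    · rw [hδl]; exact (hp j).arcα
    · rw [hδr]; exact (hp j).arcβ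
  have hne : ∀ i j, i ≠ j → ∀ s ∈ Icc (0 : ℝ) 1, ∀ t ∈ Icc (0 : ℝ) 1,
      f (α i s) ≠ f (α j t) := by
    intro i j hij s hs t ht h
    exact Set.disjoint_left.1 (hd i j hij)
      (show f (α i s) ∈ f ∘ α i '' Icc 0 1 from ⟨s, hs, rfl⟩) ⟨t, ht, h.symm⟩
  have hαβ : ∀ i j, Disjoint (α i '' Icc 0 1) (β j '' Icc 0 1) := by
    intro i j
    by_cases hij : i = j
    · subst hij
      exact (hp i).disjoint
    · rw [Set.disjoint_left]
      rintro x ⟨s, hs, rfl⟩ ⟨t, ht, hst⟩
      exact hne i j hij s hs t ht (by rw [(hp j).same t ht, hst])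
  have hδd : ∀ i j, i ≠ j → Disjoint (δ i '' Icc 0 1) (δ j '' Icc 0 1) := by
    intro i j
    refine Fin.addCases (fun a => ?_) (fun a => ?_) i <;>
      refine Fin.addCases (fun b => ?_) (fun b => ?_) j
    · intro hij
      rw [hδl, hδl, Set.disjoint_left]
      have hab : a ≠ b := fun h => hij (by rw [h])
      rintro x ⟨s, hs, rfl⟩ ⟨t, ht, hst⟩
      exact hne a b hab s hs t ht (by rw [hst])
    · intro _
      rw [hδl, hδr]
      exact hαβ a b
    · intro _
      rw [hδl, hδr]
      exact (hαβ b a).symm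
    · intro hij
      rw [hδr, hδr, Set.disjoint_left]
      have hab : a ≠ b := fun h => hij (by rw [h])
      rintro x ⟨s, hs, rfl⟩ ⟨t, ht, hst⟩
      exact hne a b hab s hs t ht (by rw [(hp a).same s hs, (hp b).same t ht, hst])
  set A : Set Plane := ⋃ i, δ i '' Icc (0 : ℝ) 1 with hA
  have hαA : ∀ i, ∀ s ∈ Icc (0 : ℝ) 1, α i s ∈ A := fun i s hs =>
    mem_iUnion.2 ⟨Fin.castAdd n i, s, hs, by rw [hδl]⟩
  have hβA : ∀ i, ∀ s ∈ Icc (0 : ℝ) 1, β i s ∈ A := fun i s hs =>
    mem_iUnion.2 ⟨Fin.natAdd n i, s, hs, by rw [hδr]⟩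
  have hsimple : ∀ x ∈ closedBall (0 : Plane) 1, x ∉ A →
      ∀ y ∈ closedBall (0 : Plane) 1, f y = f x → y = x := by
    intro x hx hxA y hy hxy
    by_contra hyx
    obtain ⟨i, s, hs, h⟩ := hc x hx y hy (fun h => hyx h.symm) hxy.symm
    rcases h with ⟨h1, -⟩ | ⟨h1, -⟩
    · exact hxA (h1 ▸ hαA i s hs)
    · exact hxA (h1 ▸ hβA i s hs)
  -- the curves in space
  set Y : Set Space := ⋃ i, (fun s => f (α i s)) '' Icc (0 : ℝ) 1 with hY
  have hYc : IsPreconnected Yᶜ :=
    isPreconnected_compl_curves fun i => hs1.comp ((hp i).arcα.smooth.of_le (by simp))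
  have hYX : Y ⊆ X := by
    intro p hpY
    obtain ⟨i, s, hs, rfl⟩ := mem_iUnion.1 hpY
    exact ⟨α i s, ball_subset_closedBall ((hp i).inside s hs), rfl⟩
  have hAY : ∀ x ∈ A, f x ∈ Y := by
    intro x hx
    obtain ⟨i, s, hs, h⟩ := mem_iUnion.1 hx
    revert h
    refine Fin.addCases (fun a => ?_) (fun a => ?_) i
    · intro h
      rw [hδl] at h
      exact mem_iUnion.2 ⟨a, s, hs, by simp only [h]⟩
    · intro h
      rw [hδr] at h
      exact mem_iUnion.2 ⟨a, s, hs, by simp only [(hp a).same s hs, h]⟩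
  refine isPreconnected_compl_of_oneSided hXc hXd hYX hYc ?_
  rintro p ⟨q, hq, rfl⟩ hpY
  have hqA : q ∉ A := fun h => hpY (hAY q h)
  obtain ⟨S, hS, hqS, hSA, hSc⟩ := exists_preconnected_to_circle hδarc hδd hq hqA
  exact oneSided_of_joined hf.smooth hf.immersion hS (fun x hx => (hSA hx).1)
    (fun x hx => hsimple x (hSA hx).1 (hSA hx).2) hSc q hqS

end Pool.Agent.Lib_MP_752436_ch
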