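import Pool.Agent.Lib_MP_752436_ch.Defs
import Pool.Agent.Lib_MP_752436_tp.Exists

/-!
Piece A4: slice discs in general position are tame.
-/

open MeasureTheory Metric Set Filter
open scoped ContDiff Topology

namespace Pool.Agent.Lib_MP_752436_ch

open Pool.Agent.Lib_MP_752436_gt Pool.Agent.Lib_MP_752436_tp Pool.Agent.Lib_MP_752436_rb

/-- Rescaling the curves to the unit interval. -/
theorem curveSystem_of_isCurves {ι : Type} {G : Curves ι} {D : Set (Plane × Plane)}
    (hG : IsCurves G D) : CurveSystem (fun i t => G.c i (G.len i * t)) D where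
  smooth := fun i => (hG.smooth i).comp (contDiff_const.mul contDiff_id)
  regular := fun i t ht => by
    have hdom : G.len i * t ∈ G.dom i := Or.inr
      ⟨mul_nonneg (hG.pos i).le ht.1, mul_le_of_le_one_right (hG.pos i).le ht.2⟩
    have h1 := hG.immFst i (G.len i * t) hdom
    have h2 : deriv (fun s => G.fst i (G.len i * s)) t = G.len i • deriv (G.fst i) (G.len i * t) :=
      deriv_comp_mul_left (G.len i) (G.fst i) t
    change deriv (fun s => G.fst i (G.len i * s)) t ≠ 0
    rw [h2]
    exact smul_ne_zero (hG.pos i).ne' h1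
  cover := by
    rw [hG.cover]
    unfold Curves.support
    refine iUnion_congr fun i => ?_
    ext p
    constructor
    · rintro ⟨t, ht, rfl⟩
      refine ⟨t / G.len i, ⟨div_nonneg ht.1 (hG.pos i).le, (div_le_one (hG.pos i)).2 ht.2⟩, ?_⟩
      change G.c i (G.len i * (t / G.len i)) = G.c i t
      rw [mul_div_cancel₀ _ (hG.pos i).ne']
    · rintro ⟨t, ht, rfl⟩
      exact ⟨G.len i * t,
        ⟨mul_nonneg (hG.pos i).le ht.1, mul_le_of_le_one_right (hG.pos i).le ht.2⟩, rfl⟩
  inj := by
    intro i j s hs t ht hst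
    have hmem : ∀ i, ∀ s ∈ Icc (0 : ℝ) 1, G.len i * s ∈ Icc 0 (G.len i) := fun i s hs =>
      ⟨mul_nonneg (hG.pos i).le hs.1, mul_le_of_le_one_right (hG.pos i).le hs.2⟩
    have hij : i = j := by
      by_contra hne
      have hd := hG.disj i j hne
      refine (Set.disjoint_left.1 hd) ⟨_, hmem i s hs, rfl⟩ ?_
      exact ⟨_, hmem j t ht, hst.symm⟩
    subst hij
    refine ⟨rfl, ?_⟩
    have hst' : G.c i (G.len i * s) = G.c i (G.len i * t) := hst
    have hcancel : ∀ {a b : ℝ}, G.len i * a = G.len i * b → a = b := fun h =>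
      mul_left_cancel₀ (hG.pos i).ne' h
    by_cases hcl : G.closed i
    · have hinj := hG.injClosed i hcl
      have hper : G.c i (G.len i * 1) = G.c i (G.len i * 0) := by
        have := hG.periodic i hcl 0
        rw [zero_add] at this
        rw [mul_one, mul_zero]
        exact this
      have hico : ∀ s ∈ Icc (0 : ℝ) 1, s ≠ 1 → G.len i * s ∈ Ico 0 (G.len i) := fun s hs h1 =>
        ⟨mul_nonneg (hG.pos i).le hs.1, mul_lt_of_lt_one_right (hG.pos i)
          (lt_of_le_of_ne hs.2 h1)⟩
      have h0 : G.len i * 0 ∈ Ico 0 (G.len i) := by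
        rw [mul_zero]; exact ⟨le_refl _, hG.pos i⟩
      rcases eq_or_ne s 1 with h1 | h1
      · rcases eq_or_ne t 1 with h2 | h2
        · exact Or.inl (h1.trans h2.symm)
        · rw [h1, hper] at hst'
          exact Or.inr (Or.inr ⟨h1, (hcancel (hinj h0 (hico t ht h2) hst')).symm⟩)
      · rcases eq_or_ne t 1 with h2 | h2
        · rw [h2, hper] at hst'
          exact Or.inr (Or.inl ⟨hcancel (hinj (hico s hs h1) h0 hst'), h2⟩)
        · exact Or.inl (hcancel (hinj (hico s hs h1) (hico t ht h2) hst'))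
    · exact Or.inl (hcancel (hG.injArc i hcl (hmem i s hs) (hmem i t ht) hst'))
  ends := by
    intro i
    by_cases hcl : G.closed i
    · left
      have := hG.periodic i hcl 0
      change G.c i (G.len i * 0) = G.c i (G.len i * 1)
      rw [mul_zero, mul_one]
      rw [zero_add] at this
      exact this.symm
    · right
      have := hG.ends i hcl
      change (G.c i (G.len i * 0)).2 ∈ _ ∧ (G.c i (G.len i * 1)).2 ∈ _
      rw [mul_zero, mul_one]
      exact this

theorem CurveSystem.comp_equiv {ι κ : Type} {c : ι → ℝ → Plane × Plane} {D : Set (Plane × Plane)}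
    (h : CurveSystem c D) (e : κ ≃ ι) : CurveSystem (fun k => c (e k)) D where
  smooth := fun k => h.smooth (e k)
  regular := fun k => h.regular (e k)
  cover := by
    rw [h.cover]
    exact (e.surjective.iUnion_comp fun i => c i '' Icc 0 1).symm
  inj := fun i j s hs t ht hst => by
    obtain ⟨h1, h2⟩ := h.inj (e i) (e j) s hs t ht hst
    exact ⟨e.injective h1, h2⟩
  ends := fun k => h.ends (e k)

/-- Triple points are isolated. -/
theorem isolated_triple {F : Plane → EuclideanSpace ℝ (Fin 4)} (hF : IsSliceDisc F)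
    (hg : InGeneralPosition F) {p : Plane × Plane × Plane} (hp : Triple F p.1 p.2.1 p.2.2) :
    ∃ N ∈ 𝓝 p, ∀ q ∈ N, Triple F q.1 q.2.1 q.2.2 → q = p := by
  set f := shadow F with hf
  have hsm : ContDiff ℝ ∞ f := od_contDiff_shadow hF
  set P1 : Plane × Plane × Plane →L[ℝ] Plane := ContinuousLinearMap.fst ℝ Plane (Plane × Plane)
    with hP1
  set P2 : Plane × Plane × Plane →L[ℝ] Plane := (ContinuousLinearMap.fst ℝ Plane Plane).comp
    (ContinuousLinearMap.snd ℝ Plane (Plane × Plane)) with hP2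
  set P3 : Plane × Plane × Plane →L[ℝ] Plane := (ContinuousLinearMap.snd ℝ Plane Plane).comp
    (ContinuousLinearMap.snd ℝ Plane (Plane × Plane)) with hP3
  have hs : ∀ P : Plane × Plane × Plane →L[ℝ] Plane,
      HasStrictFDerivAt (fun q => f (P q)) ((fderiv ℝ f (P p)).comp P) p := fun P =>
    ((hsm.contDiffAt (x := P p)).hasStrictFDerivAt (by simp)).comp p P.hasStrictFDerivAt
  have hG : HasStrictFDerivAt (fun q => (f (P1 q) - f (P2 q), f (P2 q) - f (P3 q)))
      (((fderiv ℝ f (P1 p)).comp P1 - (fderiv ℝ f (P2 p)).comp P2).prod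
        ((fderiv ℝ f (P2 p)).comp P2 - (fderiv ℝ f (P3 p)).comp P3)) p :=
    ((hs P1).sub (hs P2)).prodMk ((hs P2).sub (hs P3))
  have hinj : Function.Injective (((fderiv ℝ f (P1 p)).comp P1 - (fderiv ℝ f (P2 p)).comp P2).prod
        ((fderiv ℝ f (P2 p)).comp P2 - (fderiv ℝ f (P3 p)).comp P3)) := by
    rw [injective_iff_map_eq_zero]
    rintro ⟨u, v, w⟩ huw
    have h3 : fderiv ℝ f p.1 u - fderiv ℝ f p.2.1 v = 0 := congrArg Prod.fst huw
    have h4 : fderiv ℝ f p.2.1 v - fderiv ℝ f p.2.2 w = 0 := congrArg Prod.snd huw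
    have h5 := sub_eq_zero.1 h3
    have h6 := sub_eq_zero.1 h4
    have hu : u = 0 := hg.triple _ _ _ hp u v w h5 h6
    have h7 : fderiv ℝ f p.2.1 v = 0 := by rw [← h5, hu, map_zero]
    have hv : v = 0 := hg.immersion _ hp.2.1 v h7
    have h8 : fderiv ℝ f p.2.2 w = 0 := by rw [← h6, h7]
    have hw : w = 0 := hg.immersion _ hp.2.2.1 w h8
    rw [hu, hv, hw]
    rfl
  obtain ⟨N, hN, hNinj⟩ := eventually_injOn_of_strict hG hinj
  refine ⟨N, hN, fun q hq hqT => hNinj hq (mem_of_mem_nhds hN) ?_⟩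
  have e : ∀ r : Plane × Plane × Plane, Triple F r.1 r.2.1 r.2.2 →
      (f (P1 r) - f (P2 r), f (P2 r) - f (P3 r)) = (0, 0) := fun r hr => by
    have h1 : f (P1 r) = f (P2 r) := hr.1.2.2.1
    have h2 : f (P2 r) = f (P3 r) := hr.2.2.2.1
    rw [h1, h2, sub_self]
  exact (e q hqT).trans (e p hp).symm

theorem finite_triple {F : Plane → EuclideanSpace ℝ (Fin 4)} (hF : IsSliceDisc F)
    (hg : InGeneralPosition F) :
    {p : Plane × Plane × Plane | Triple F p.1 p.2.1 p.2.2}.Finite := by
  have hD : IsClosed (DoubleSet F) := (isCompact_doubleSet hF hg.generalPosition).isClosed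
  have hclosed : IsClosed {p : Plane × Plane × Plane | Triple F p.1 p.2.1 p.2.2} := by
    refine IsClosed.inter ?_ ?_
    · exact hD.preimage (f := fun p : Plane × Plane × Plane => (p.1, p.2.1)) (by fun_prop)
    · exact hD.preimage (f := fun p : Plane × Plane × Plane => (p.2.1, p.2.2)) (by fun_prop)
  have hcomp : IsCompact {p : Plane × Plane × Plane | Triple F p.1 p.2.1 p.2.2} := by
    refine ((isCompact_closedBall (0 : Plane) 1).prod
      ((isCompact_closedBall (0 : Plane) 1).prod (isCompact_closedBall (0 : Plane) 1))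
      ).of_isClosed_subset hclosed ?_
    intro p hp
    exact ⟨hp.1.1, hp.2.1, hp.2.2.1⟩
  have hchoose : ∀ p : Plane × Plane × Plane, ∃ N ∈ 𝓝 p, Triple F p.1 p.2.1 p.2.2 →
      ∀ q ∈ N, Triple F q.1 q.2.1 q.2.2 → q = p := by
    intro p
    by_cases hp : Triple F p.1 p.2.1 p.2.2
    · obtain ⟨N, hN, h⟩ := isolated_triple hF hg hp
      exact ⟨N, hN, fun _ => h⟩
    · exact ⟨univ, univ_mem, fun h => absurd h hp⟩
  choose U hU hUp using hchoose
  obtain ⟨t, ht, hcov⟩ := hcomp.elim_nhds_subcover U fun p _ => hU p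
  refine t.finite_toSet.subset fun q hq => ?_
  obtain ⟨p, hp, hqp⟩ := mem_iUnion₂.1 (hcov hq)
  rw [hUp p (ht p hp) q hqp hq]
  exact hp

theorem tame_of_generalPosition {F : Plane → EuclideanSpace ℝ (Fin 4)} (hF : IsSliceDisc F)
    (hg : InGeneralPosition F) : Tame F where
  immersion := hg.immersion
  curves := by
    obtain ⟨ι, hι, G, hG⟩ := exists_curves hF hg.generalPosition
    exact ⟨Nat.card ι, _, (curveSystem_of_isCurves hG).comp_equiv (Finite.equivFin ι).symm⟩
  triple := finite_triple hF hg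
  quadruple := hg.quadruple

end Pool.Agent.Lib_MP_752436_ch
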