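import Pool.Agent.Lib_MP_752436_ch.TurnEdges
import Pool.Agent.Lib_MP_752436_ch.TrapCycle

/-!
Piece G1: a trap which carries an edge off a closed and open set of free pairs carries a cycle off
this set.
-/

open MeasureTheory Metric Set Filter
open scoped ContDiff Topology

namespace Pool.Agent.Lib_MP_752436_ch

open Pool.Agent.Lib_MP_752436_gt Pool.Agent.Lib_MP_752436_tp Pool.Agent.Lib_MP_752436_rb

theorem trap_cycle_off {D : Set (Plane × Plane)} (hS : Strict D) {κ : Type} [Fintype κ]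
    {c : κ → ℝ → Plane × Plane} {a b : κ → ℝ} (hE : Edges c a b D) {Z : Set Plane}
    (hZ : IsTrapOf (fun x y => (x, y) ∈ D) Z) {C : Set (Plane × Plane)} (hC : IsClosed C)
    (hC' : IsClosed (D \ C)) (htop : ∀ p ∈ D, p ∈ C → Top D p)
    (hex : ∃ e, c e (a e) ∉ C ∧ ∀ t ∈ Ioo (a e) (b e), (c e t).2 ∈ tcZ D Z) :
    ∃ n : κ → ℝ, n ≠ 0 ∧
      (∀ e, n e ≠ 0 → c e (a e) ∉ C ∧ ∀ t ∈ Ioo (a e) (b e), (c e t).2 ∈ Z) ∧
      IsCyc c a b n := by
  classical
  set Z1 := tcZ D Z with hZ1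
  set S : Finset κ := Finset.univ.filter fun e => c e (a e) ∉ C ∧
    ∀ s ∈ Ioo (a e) (b e), (c e s).2 ∈ Z1 with hSdef
  have hSmem : ∀ e, e ∈ S ↔ c e (a e) ∉ C ∧ ∀ s ∈ Ioo (a e) (b e), (c e s).2 ∈ Z1 := by
    intro e
    simp [hSdef]
  have hSZ : ∀ e ∈ S, ∀ t ∈ Ioo (a e) (b e), (c e t).2 ∈ Z := fun e he t ht =>
    (tc_inner hS hE hZ ht (((hSmem e).1 he).2 t ht)).2
  have hbd : ∀ e ψ, bdry c a b e ψ = (tcv (c e (b e)) - tcv (c e (a e))) ψ := by
    intro e ψ
    simp [bdry, tcv]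
  have hab : ∀ e, a e ∈ Icc (a e) (b e) := fun e => ⟨le_rfl, (hE.lt e).le⟩
  have hba : ∀ e, b e ∈ Icc (a e) (b e) := fun e => ⟨(hE.lt e).le, le_rfl⟩
  -- it is enough to find the relation
  have key : (∃ n : κ → ℝ, n ≠ 0 ∧ (∀ e, n e ≠ 0 → e ∈ S) ∧
      ∑ e, n e • (tcv (c e (b e)) - tcv (c e (a e))) = 0) →
      ∃ n : κ → ℝ, n ≠ 0 ∧
      (∀ e, n e ≠ 0 → c e (a e) ∉ C ∧ ∀ t ∈ Ioo (a e) (b e), (c e t).2 ∈ Z) ∧
      IsCyc c a b n := by
    rintro ⟨n, hn, hs, h⟩
    refine ⟨n, hn, fun e he => ⟨((hSmem e).1 (hs e he)).1, hSZ e (hs e he)⟩, fun ψ => ?_⟩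
    have := congrFun h ψ
    simp only [Finset.sum_apply, Pi.smul_apply, Pi.zero_apply, smul_eq_mul] at this
    rw [← this]
    exact Finset.sum_congr rfl fun e _ => by rw [hbd]
  apply key
  have hstart : ∀ e ∈ S, c e (a e) ∈ tcN D Z c a b := fun e he =>
    tc_start_mem hE (tc_ends hS hE hZ ((hSmem e).1 he).2 _ (hab e))
  have hend : ∀ e ∈ S, c e (b e) ∈ tcN D Z c a b := fun e he =>
    tc_end_mem hE (tc_ends hS hE hZ ((hSmem e).1 he).2 _ (hba e))
  have hstartC : ∀ e ∈ S, c e (a e) ∉ C := fun e he => ((hSmem e).1 he).1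
  have hendC : ∀ e ∈ S, c e (b e) ∉ C := fun e he h =>
    hstartC e he ((edge_mem_iff hE hC hC' (hab e) (hba e)).2 h)
  by_cases hcase : ∃ e ∈ S, ∃ w ∈ Z1, ((c e (a e)).2, w) ∈ D
  · -- more edges than nodes
    obtain ⟨e0, he0, w0, hw0, hD0⟩ := hcase
    set N : Set (Plane × Plane) := {P | P ∈ tcN D Z c a b ∧ P ∉ tc3 D Z ∧
      (P ∉ C ∨ ∃ w ∈ Z1, (P.2, w) ∈ D)} with hN
    have hassign : ∀ P : N, ∃ e ∈ S,
        ((c e (a e) = P ∧ ∀ w ∈ Z1, (P.1.2, w) ∉ D) ∨ ((c e (a e)).1 = P.1.1 ∧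
        (P.1.2, (c e (a e)).2) ∈ D ∧ c e (a e) ∈ tc3 D Z)) := by
      rintro ⟨P, hP1, hP2, hP3⟩
      by_cases hw : ∃ w ∈ Z1, (P.2, w) ∈ D
      · obtain ⟨w, hw, hPw⟩ := hw
        have h3 : (P.1, w) ∈ tc3 D Z := ⟨hw, P.2, hP1.1, hPw⟩
        have hwi : w ∈ interior (tcZ D Z) := tc_bottom hS hZ hP1.1 hPw hw
        obtain ⟨e, he, h⟩ := tc_out hS hE hZ (tc3_mem hS hE h3) hwi
        have hnC : (P.1, w) ∉ C := fun hC1 =>
          (htop _ (hS.trans _ _ _ hP1.1 hPw) hC1 P.2).2 ⟨hP1.1, hPw⟩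
        refine ⟨e, (hSmem e).2 ⟨by rw [he]; exact hnC, h⟩, Or.inr ⟨by rw [he], ?_, ?_⟩⟩
        · rw [he]
          exact hPw
        · rw [he]
          exact h3
      · push Not at hw
        have hPC : P ∉ C := by
          rcases hP3 with h | ⟨w, h1, h2⟩
          · exact h
          · exact absurd h2 (hw w h1)
        have hi : P.2 ∈ interior (tcZ D Z) := by
          rcases tc_mem_cases hS hZ hP1.2.1 with h | ⟨w, h1, h2⟩
          · exact h
          · exact absurd h2 (hw w (Or.inl h1))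
        obtain ⟨e, he, h⟩ := tc_out hS hE hZ hP1 hi
        exact ⟨e, (hSmem e).2 ⟨by rw [he]; exact hPC, h⟩, Or.inl ⟨he, hw⟩⟩
    choose g hg1 hg3 using hassign
    have hinj : Function.Injective g := by
      intro P Q hPQ
      have hP := hg3 P
      have hQ := hg3 Q
      rw [← hPQ] at hQ
      apply Subtype.ext
      rcases hP with ⟨hP, _⟩ | ⟨hP2, hP3, hP4⟩ <;> rcases hQ with ⟨hQ, _⟩ | ⟨hQ2, hQ3, hQ4⟩
      · rw [← hP, ← hQ]
      · exact absurd (hP ▸ hQ4) P.2.2.1
      · exact absurd (hQ ▸ hP4) Q.2.2.1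
      · have h1 : P.1.1 = Q.1.1 := by rw [← hP2, ← hQ2]
        by_cases h2 : P.1.2 = Q.1.2
        · exact Prod.ext h1 h2
        · exfalso
          have hPD : (P.1.1, P.1.2) ∈ D := P.2.1.1
          have hQD : (P.1.1, Q.1.2) ∈ D := by rw [h1]; exact Q.2.1.1
          rcases hS.above _ _ _ hPD hQD h2 with h | h
          · exact hS.noFour _ _ _ _ hPD h hQ3
          · exact hS.noFour _ _ _ _ hQD h hP3
    have : Finite N := Finite.of_injective g hinj
    have := Fintype.ofFinite N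
    have hcard : Fintype.card N < S.card := by
      have h1 : (Finset.univ.image g) ⊆ S.erase e0 := by
        intro e he
        obtain ⟨P, _, rfl⟩ := Finset.mem_image.1 he
        refine Finset.mem_erase.2 ⟨?_, hg1 P⟩
        rintro h
        rcases hg3 P with ⟨h1, h2⟩ | ⟨_, _, h2⟩
        · rw [h] at h1
          rw [h1] at hD0
          exact h2 w0 hw0 hD0
        · rw [h] at h2
          obtain ⟨_, z, hz1, hz2⟩ := h2
          exact hS.noFour _ _ _ _ hz1 hz2 hD0
      have h2 := Finset.card_le_card h1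
      rw [Finset.card_image_of_injective _ hinj, Finset.card_erase_of_mem he0,
        Finset.card_univ] at h2
      have h3 : 0 < S.card := Finset.card_pos.2 ⟨e0, he0⟩
      omega
    have hspan : ∀ P ∈ tcN D Z c a b, P ∉ C →
        tcv P ∈ Submodule.span ℝ (range fun Q : N => tcv Q.1) := by
      intro P hP hPC
      by_cases h3 : P ∈ tc3 D Z
      · obtain ⟨hw, y, h1, h2⟩ := h3
        have hy : y ∈ tcZ D Z := tc_up hS hw h2
        have hm1 : (P.1, y) ∈ N := by
          refine ⟨tc_vertex_mem hE ⟨h1, P.2, Or.inl h2⟩ hy, ?_, Or.inr ⟨P.2, hw, h2⟩⟩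
          rintro ⟨_, z, hz1, hz2⟩
          exact hS.noFour _ _ _ _ hz1 hz2 h2
        have hm2 : (y, P.2) ∈ N := by
          refine ⟨tc_vertex_mem hE ⟨h2, P.1, Or.inr (Or.inl h1)⟩ hw, ?_, Or.inl ?_⟩
          · rintro ⟨_, z, hz1, hz2⟩
            exact hS.noFour _ _ _ _ h1 hz1 hz2
          · intro hC2
            exact (htop _ h2 hC2 P.1).1 h1
        have : tcv P = tcv (P.1, y) + tcv (y, P.2) := by
          funext ψ
          simp [tcv]
        rw [this]
        exact Submodule.add_mem _ (Submodule.subset_span ⟨⟨_, hm1⟩, rfl⟩)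
          (Submodule.subset_span ⟨⟨_, hm2⟩, rfl⟩)
      · exact Submodule.subset_span ⟨⟨P, hP, h3, Or.inl hPC⟩, rfl⟩
    exact tc_relation S (fun e => tcv (c e (b e)) - tcv (c e (a e)))
      (fun Q : N => tcv Q.1)
      (fun e he => Submodule.sub_mem _ (hspan _ (hend e he) (hendC e he))
        (hspan _ (hstart e he) (hstartC e he))) hcard
  · -- a permutation of the edges
    push Not at hcase
    have hprev : ∀ e : S, ∃ e' : S, c e' (b e') = c e (a e) := by
      intro e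
      have hi : (c e (a e)).2 ∈ interior (tcZ D Z) := by
        rcases tc_mem_cases hS hZ (hstart e e.2).2.1 with h | ⟨w, h1, h2⟩
        · exact h
        · exact absurd h2 (hcase e e.2 w (Or.inl h1))
      obtain ⟨e', h1, h2⟩ := tc_into hS hE hZ (hstart e e.2) hi
      refine ⟨⟨e', (hSmem e').2 ⟨fun h => ?_, h2⟩⟩, h1⟩
      have h3 := (edge_mem_iff hE hC hC' (hab e') (hba e')).1 h
      rw [h1] at h3
      exact hstartC e e.2 h3
    choose p hp using hprev
    have hinj : Function.Injective p := by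
      intro e e' h
      have h1 := hp e
      have h2 := hp e'
      rw [h] at h1
      exact Subtype.ext (hE.start _ _ (h1.symm.trans h2))
    have hbij : Function.Bijective p := Finite.injective_iff_bijective.1 hinj
    refine ⟨fun e => if e ∈ S then 1 else 0, ?_, ?_, ?_⟩
    · obtain ⟨e, he1, he2⟩ := hex
      have heS : e ∈ S := (hSmem e).2 ⟨he1, he2⟩
      intro h
      have := congrFun h e
      simp [heS] at this
    · intro e he
      by_contra h
      simp [h] at he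
    · have h1 : ∑ e, (if e ∈ S then (1 : ℝ) else 0) • (tcv (c e (b e)) - tcv (c e (a e))) =
          ∑ e : S, (tcv (c e (b e)) - tcv (c e (a e))) := by
        rw [← Finset.sum_subset (Finset.subset_univ S)]
        · rw [← Finset.sum_coe_sort S]
          refine Finset.sum_congr rfl fun e _ => ?_
          simp
        · intro e _ he
          simp [he]
      rw [h1, Finset.sum_sub_distrib]
      have h2 : ∑ e : S, tcv (c e (a e)) = ∑ e : S, tcv (c e (b e)) := by
        rw [← hbij.sum_comp (fun e : S => tcv (c e (b e)))]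
        exact Finset.sum_congr rfl fun e _ => by rw [hp e]
      rw [h2, sub_self]

end Pool.Agent.Lib_MP_752436_ch
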