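import Pool.Agent.Lib_MP_752436_ch.Defs

/-!
Piece G2: turning closed double curves upside down.
-/

open MeasureTheory Metric Set Filter
open scoped ContDiff Topology

namespace Pool.Agent.Lib_MP_752436_ch

open Pool.Agent.Lib_MP_752436_gt Pool.Agent.Lib_MP_752436_tp Pool.Agent.Lib_MP_752436_rb

/-- The pair `p` is not one of the two lower pairs of a triple: its lower point is not the lowest
of three points one above the other. -/
def Top (D : Set (Plane × Plane)) (p : Plane × Plane) : Prop :=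
  ∀ z, (z, p.1) ∉ D ∧ ¬ ((p.1, z) ∈ D ∧ (z, p.2) ∈ D)

/-- The pairs of `Φ` may be turned upside down. -/
structure Turnable (D Φ : Set (Plane × Plane)) : Prop where
  sub : Φ ⊆ D
  closed : IsClosed Φ
  closed' : IsClosed (D \ Φ)
  inside : ∀ p ∈ Φ, p.2 ∈ ball (0 : Plane) 1
  top : ∀ p ∈ Φ, Top D p

/-- The pairs of `Φ` are turned upside down. -/
def turn (D Φ : Set (Plane × Plane)) : Set (Plane × Plane) :=
  {p | (p ∈ D ∧ p ∉ Φ) ∨ p.swap ∈ Φ}

variable {D Φ : Set (Plane × Plane)}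

private theorem Turn_mem {x y : Plane} :
    (x, y) ∈ turn D Φ ↔ ((x, y) ∈ D ∧ (x, y) ∉ Φ) ∨ (y, x) ∈ Φ := Iff.rfl

private theorem Turn_asymm (hS : Strict D) {x y : Plane} (h : (x, y) ∈ D) : (y, x) ∉ D :=
  fun h' => hS.irrefl x (hS.trans _ _ _ h h')

/-- In a chain of two pairs of `turn D Φ` the second pair is not turned. -/
theorem turn_chain (hS : Strict D) (hT : Turnable D Φ) {x y z : Plane}
    (h1 : (x, y) ∈ turn D Φ) (h2 : (y, z) ∈ turn D Φ) :
    (y, z) ∈ D ∧ (y, z) ∉ Φ ∧ (x, z) ∈ D ∧ (x, z) ∉ Φ := by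
  rw [Turn_mem] at h1 h2
  rcases h1 with ⟨h1, h1'⟩ | h1
  · rcases h2 with ⟨h2, h2'⟩ | h2
    · exact ⟨h2, h2', hS.trans _ _ _ h1 h2, fun h => (hT.top _ h y).2 ⟨h1, h2⟩⟩
    · exfalso
      have hzx : x ≠ z := by
        rintro rfl
        exact h1' h2
      rcases hS.below _ _ _ h1 (hT.sub h2) hzx with h | h
      · exact (hT.top _ h2 x).1 h
      · exact (hT.top _ h2 x).2 ⟨h, h1⟩
  · rcases h2 with ⟨h2, h2'⟩ | h2
    · have hxz : x ≠ z := by
        rintro rfl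
        exact h2' h1
      rcases hS.above _ _ _ (hT.sub h1) h2 hxz with h | h
      · exact ⟨h2, h2', h, fun h' => (hT.top _ h' y).1 (hT.sub h1)⟩
      · exact absurd ⟨h2, h⟩ (hT.top _ h1 z).2
    · exact absurd (hT.sub h2) (hT.top _ h1 z).1

private theorem Turn_compact (hS : Strict D) (hT : Turnable D Φ) : IsCompact (turn D Φ) := by
  have h1 : IsCompact (D \ Φ) := by
    have h := hS.compact.inter_right hT.closed'
    rwa [inter_eq_self_of_subset_right sdiff_subset] at h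
  have h2 : IsCompact Φ := by
    have h := hS.compact.inter_right hT.closed
    rwa [inter_eq_self_of_subset_right hT.sub] at h
  have h3 : turn D Φ = (D \ Φ) ∪ Prod.swap '' Φ := by
    ext p
    constructor
    · rintro (h | h)
      · exact Or.inl h
      · exact Or.inr ⟨p.swap, h, Prod.swap_swap p⟩
    · rintro (h | ⟨q, hq, rfl⟩)
      · exact Or.inl h
      · exact Or.inr (by rw [Prod.swap_swap]; exact hq)
  rw [h3]
  exact h1.union (h2.image continuous_swap)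

/-- The comparability of two points. -/
private def Turn_cmp (D : Set (Plane × Plane)) (x y : Plane) : Prop := (x, y) ∈ D ∨ (y, x) ∈ D

private theorem Turn_cmp_iff (hT : Turnable D Φ) {x y : Plane} :
    Turn_cmp (turn D Φ) x y ↔ Turn_cmp D x y := by
  unfold Turn_cmp
  rw [Turn_mem, Turn_mem]
  constructor
  · rintro ((h | h) | (h | h))
    · exact Or.inl h.1
    · exact Or.inr (hT.sub h)
    · exact Or.inr h.1
    · exact Or.inl (hT.sub h)
  · rintro (h | h)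
    · by_cases h' : (x, y) ∈ Φ
      · exact Or.inr (Or.inr h')
      · exact Or.inl (Or.inl ⟨h, h'⟩)
    · by_cases h' : (y, x) ∈ Φ
      · exact Or.inl (Or.inr h')
      · exact Or.inr (Or.inl ⟨h, h'⟩)

private theorem Turn_cmp_symm {x y : Plane} (h : Turn_cmp D x y) : Turn_cmp D y x := Or.symm h

private theorem Turn_cmp_trans (hS : Strict D) {x y z : Plane} (h : Turn_cmp D x y)
    (h' : Turn_cmp D x z) (hyz : y ≠ z) : Turn_cmp D y z := by
  rcases h with h | h <;> rcases h' with h' | h'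
  · exact hS.above _ _ _ h h' hyz
  · exact Or.inr (hS.trans _ _ _ h' h)
  · exact Or.inl (hS.trans _ _ _ h h')
  · exact hS.below _ _ _ h h' hyz

private theorem Turn_vert (hS : Strict D) {p : Plane × Plane} (hp : p ∈ D) :
    p ∈ vertices D ↔ ∃ z, Turn_cmp D z p.1 ∧ Turn_cmp D z p.2 := by
  constructor
  · rintro ⟨_, z, h | h | h⟩
    · exact ⟨z, Or.inr (hS.trans _ _ _ hp h), Or.inr h⟩
    · exact ⟨z, Or.inl h, Or.inl (hS.trans _ _ _ h hp)⟩
    · exact ⟨z, Or.inr h.1, Or.inl h.2⟩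
  · rintro ⟨z, h | h, h' | h'⟩
    · exact ⟨hp, z, Or.inr (Or.inl h)⟩
    · exact ⟨hp, z, Or.inl h'⟩
    · exact ⟨hp, z, Or.inr (Or.inr ⟨h, h'⟩)⟩
    · exact ⟨hp, z, Or.inl h'⟩

theorem strict_turn (hS : Strict D) (hT : Turnable D Φ) : Strict (turn D Φ) := by
  refine ⟨Turn_compact hS hT, ?_, ?_, ?_, ?_, ?_, ?_, ?_⟩
  · rintro ⟨x, y⟩ (h | h)
    · exact hS.fstMem _ h.1
    · have h' : (y, x) ∈ Φ := h
      have h1 : x ∈ ball (0 : Plane) 1 := hT.inside (y, x) h'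
      exact h1
  · rintro ⟨x, y⟩ (h | h)
    · exact hS.sndMem _ h.1
    · have h' : (y, x) ∈ D := hT.sub h
      have h1 : y ∈ ball (0 : Plane) 1 := hS.fstMem (y, x) h'
      exact ball_subset_closedBall h1
  · rintro x (h | h)
    · exact hS.irrefl x h.1
    · exact hS.irrefl x (hT.sub h)
  · intro x y z h1 h2
    obtain ⟨_, _, h3, h4⟩ := turn_chain hS hT h1 h2
    exact Or.inl ⟨h3, h4⟩
  · intro x y z w h1 h2 h3
    obtain ⟨a1, _, a2, _⟩ := turn_chain hS hT h1 h2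
    obtain ⟨b1, _, _, _⟩ := turn_chain hS hT h2 h3
    rcases h1 with h1 | h1
    · exact hS.noFour _ _ _ _ h1.1 a1 b1
    · exact hS.noFour _ _ _ _ (hT.sub h1) a2 b1
  · intro x y z h1 h2 h
    exact (Turn_cmp_iff hT).mpr (Turn_cmp_trans hS ((Turn_cmp_iff hT).mp (Or.inl h1))
      ((Turn_cmp_iff hT).mp (Or.inl h2)) h)
  · intro x y z h1 h2 h
    exact (Turn_cmp_iff hT).mpr (Turn_cmp_trans hS ((Turn_cmp_iff hT).mp (Or.inr h1))
      ((Turn_cmp_iff hT).mp (Or.inr h2)) h)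

/-- The bottom points of triples do not change. -/
theorem bottom_turn (hS : Strict D) (hT : Turnable D Φ) (z : Plane) :
    (∃ x y, (x, y) ∈ turn D Φ ∧ (y, z) ∈ turn D Φ) ↔ ∃ x y, (x, y) ∈ D ∧ (y, z) ∈ D := by
  constructor
  · rintro ⟨x, y, h1, h2⟩
    obtain ⟨h3, _, h4, _⟩ := turn_chain hS hT h1 h2
    rcases h1 with h1 | h1
    · exact ⟨x, y, h1.1, h3⟩
    · exact ⟨y, x, hT.sub h1, h4⟩
  · rintro ⟨x, y, h1, h2⟩
    have h3 : (y, z) ∉ Φ := fun h => (hT.top _ h x).1 h1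
    have h4 : (x, z) ∉ Φ := fun h => (hT.top _ h y).2 ⟨h1, h2⟩
    by_cases h : (x, y) ∈ Φ
    · exact ⟨y, x, Or.inr h, Or.inl ⟨hS.trans _ _ _ h1 h2, h4⟩⟩
    · exact ⟨x, y, Or.inl ⟨h1, h⟩, Or.inl ⟨h2, h3⟩⟩

/-- Turned pairs are not the lower pairs of a triple. -/
theorem top_turn_swap (hS : Strict D) (hT : Turnable D Φ) {p : Plane × Plane}
    (hp : p.swap ∈ Φ) : Top (turn D Φ) p := by
  intro z
  have hp2 : (p.1, p.2) ∈ turn D Φ := Or.inr hp
  have hp3 : (p.1, p.2) ∉ D := Turn_asymm hS (hT.sub hp)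
  refine ⟨fun h => hp3 (turn_chain hS hT h hp2).1, fun h => ?_⟩
  exact hp3 (turn_chain hS hT h.1 h.2).2.2.1

/-- `Top` does not change at the other pairs. -/
theorem top_turn (hS : Strict D) (hT : Turnable D Φ) {p : Plane × Plane} (hp : p ∈ D)
    (hp' : p ∉ Φ) : Top (turn D Φ) p ↔ Top D p := by
  have hp2 : (p.1, p.2) ∈ turn D Φ := Or.inl ⟨hp, hp'⟩
  have hpD : (p.1, p.2) ∈ D := hp
  constructor
  · intro h z
    constructor
    · intro hz
      by_cases hz' : (z, p.1) ∈ Φ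
      · refine (h z).2 ⟨Or.inr hz', Or.inl ⟨hS.trans _ _ _ hz hpD, fun h' => ?_⟩⟩
        exact (hT.top _ h' p.1).2 ⟨hz, hpD⟩
      · exact (h z).1 (Or.inl ⟨hz, hz'⟩)
    · rintro ⟨h1, h2⟩
      have h3 : (z, p.2) ∉ Φ := fun h' => (hT.top _ h' p.1).1 h1
      by_cases h4 : (p.1, z) ∈ Φ
      · exact (h z).1 (Or.inr h4)
      · exact (h z).2 ⟨Or.inl ⟨h1, h4⟩, Or.inl ⟨h2, h3⟩⟩
  · intro h z
    constructor
    · intro hz
      obtain ⟨_, _, h3, _⟩ := turn_chain hS hT hz hp2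
      rcases hz with hz | hz
      · exact (h z).1 hz.1
      · exact (h z).2 ⟨hT.sub hz, h3⟩
    · rintro ⟨h1, h2⟩
      obtain ⟨h3, _, _, _⟩ := turn_chain hS hT h1 h2
      rcases h1 with h1 | h1
      · exact (h z).2 ⟨h1.1, h3⟩
      · exact (h z).1 (hT.sub h1)

/-- The vertices correspond. -/
theorem vertices_turn_swap (hS : Strict D) (hT : Turnable D Φ) {p : Plane × Plane}
    (hp : p.swap ∈ Φ) : p ∈ vertices (turn D Φ) ↔ p.swap ∈ vertices D := by
  rw [Turn_vert (strict_turn hS hT) (Or.inr hp), Turn_vert hS (hT.sub hp)]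
  constructor
  · rintro ⟨z, h1, h2⟩
    exact ⟨z, (Turn_cmp_iff hT).mp h2, (Turn_cmp_iff hT).mp h1⟩
  · rintro ⟨z, h1, h2⟩
    exact ⟨z, (Turn_cmp_iff hT).mpr h2, (Turn_cmp_iff hT).mpr h1⟩

theorem vertices_turn (hS : Strict D) (hT : Turnable D Φ) {p : Plane × Plane} (hp : p ∈ D)
    (hp' : p ∉ Φ) : p ∈ vertices (turn D Φ) ↔ p ∈ vertices D := by
  rw [Turn_vert (strict_turn hS hT) (Or.inl ⟨hp, hp'⟩), Turn_vert hS hp]
  exact exists_congr fun z => and_congr (Turn_cmp_iff hT) (Turn_cmp_iff hT)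

theorem crossingInfo_turn (hS : Strict D) (hT : Turnable D Φ) {f : Plane → Space}
    (hR : CrossingInfo f (fun x y => (x, y) ∈ D)) :
    CrossingInfo f (fun x y => (x, y) ∈ turn D Φ) := by
  refine ⟨(Turn_compact hS hT).isClosed, ?_, ?_⟩
  · rintro x y (h | h)
    · exact hR.double x y h.1
    · have h' : (y, x) ∈ Φ := h
      obtain ⟨h1, _, h3, h4⟩ := hR.double y x (hT.sub h')
      have h2 : x ∈ ball (0 : Plane) 1 := hT.inside (y, x) h'
      exact ⟨h2, ball_subset_closedBall h1, h3.symm, h4.symm⟩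
  · intro x hx y hy hxy hf
    exact (Turn_cmp_iff hT).mpr (hR.total x hx y hy hxy hf)

end Pool.Agent.Lib_MP_752436_ch
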