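import Pool.Agent.Lib_MP_752436_ch.Turn

/-!
Piece G6: turned edges.
-/

open MeasureTheory Metric Set Filter
open scoped ContDiff Topology

namespace Pool.Agent.Lib_MP_752436_ch

open Pool.Agent.Lib_MP_752436_gt Pool.Agent.Lib_MP_752436_tp Pool.Agent.Lib_MP_752436_rb

variable {D Φ : Set (Plane × Plane)}

section

variable {κ : Type} {c : κ → ℝ → Plane × Plane} {a b : κ → ℝ}

/-- An edge lies in `Φ` or in the complement of `Φ`. -/
theorem edge_mem_iff (hE : Edges c a b D) (h1 : IsClosed Φ) (h2 : IsClosed (D \ Φ)) {e : κ}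
    {s t : ℝ} (hs : s ∈ Icc (a e) (b e)) (ht : t ∈ Icc (a e) (b e)) :
    c e s ∈ Φ ↔ c e t ∈ Φ := by
  have key : ∀ s ∈ Icc (a e) (b e), ∀ t ∈ Icc (a e) (b e), c e s ∈ Φ → c e t ∈ Φ := by
    intro s hs t ht h
    have hc : Continuous (c e) := (hE.smooth e).continuous
    have hpre : IsPreconnected (Icc (a e) (b e)) := isPreconnected_Icc
    by_contra hno
    have h3 := isPreconnected_closed_iff.1 hpre (c e ⁻¹' Φ) (c e ⁻¹' (D \ Φ))
      (h1.preimage hc) (h2.preimage hc)
      (fun r hr => by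
        by_cases h4 : c e r ∈ Φ
        · exact Or.inl h4
        · exact Or.inr ⟨hE.mem e r hr, h4⟩)
      ⟨s, hs, h⟩ ⟨t, ht, hE.mem e t ht, hno⟩
    obtain ⟨r, _, hr1, hr2⟩ := h3
    exact hr2.2 hr1
  exact ⟨key s hs t ht, key t ht s hs⟩

open Classical in
/-- The turned edges. -/
noncomputable def turnEdge (Φ : Set (Plane × Plane)) (c : κ → ℝ → Plane × Plane) (a : κ → ℝ)
    (e : κ) (t : ℝ) : Plane × Plane :=
  if c e (a e) ∈ Φ then (c e t).swap else c e t

private theorem turnEdge_pos {e : κ} (h : c e (a e) ∈ Φ) :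
    turnEdge Φ c a e = fun t => (c e t).swap := by
  funext t
  simp only [turnEdge, if_pos h]

private theorem turnEdge_neg {e : κ} (h : c e (a e) ∉ Φ) : turnEdge Φ c a e = c e := by
  funext t
  simp only [turnEdge, if_neg h]

private theorem not_swap (hS : Strict D) {p : Plane × Plane} (h1 : p ∈ D) (h2 : p.swap ∈ D) :
    False :=
  hS.irrefl p.1 (hS.trans p.1 p.2 p.1 h1 h2)

/-- Two points of edges which agree after the turning agree before. -/
private theorem turn_eq (hS : Strict D) (hE : Edges c a b D) {e e' : κ}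
    {t t' : ℝ} (ht : t ∈ Icc (a e) (b e)) (ht' : t' ∈ Icc (a e') (b e'))
    (h : turnEdge Φ c a e t = turnEdge Φ c a e' t') : c e t = c e' t' := by
  by_cases h1 : c e (a e) ∈ Φ <;> by_cases h2 : c e' (a e') ∈ Φ
  · rw [turnEdge_pos h1, turnEdge_pos h2] at h
    exact Prod.swap_injective h
  · rw [turnEdge_pos h1, turnEdge_neg h2] at h
    have h3 : (c e t).swap ∈ D := by
      have h4 : (c e t).swap = c e' t' := h
      rw [h4]
      exact hE.mem e' t' ht'
    exact (not_swap hS (hE.mem e t ht) h3).elim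
  · rw [turnEdge_neg h1, turnEdge_pos h2] at h
    have h3 : (c e' t').swap ∈ D := by
      have h4 : c e t = (c e' t').swap := h
      rw [← h4]
      exact hE.mem e t ht
    exact (not_swap hS (hE.mem e' t' ht') h3).elim
  · rw [turnEdge_neg h1, turnEdge_neg h2] at h
    exact h

/-- A point of an edge outside `Φ` is not moved. -/
private theorem turnEdge_out (hT : Turnable D Φ) (hE : Edges c a b D) {e : κ} {t : ℝ}
    (ht : t ∈ Icc (a e) (b e)) (h : c e t ∉ Φ) : turnEdge Φ c a e t = c e t := by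
  rw [turnEdge_neg fun h1 => h ((edge_mem_iff hE hT.closed hT.closed'
    (left_mem_Icc.2 (hE.lt e).le) ht).1 h1)]

/-- A point of an edge in `Φ` is swapped. -/
private theorem turnEdge_in (hT : Turnable D Φ) (hE : Edges c a b D) {e : κ} {t : ℝ}
    (ht : t ∈ Icc (a e) (b e)) (h : c e t ∈ Φ) : turnEdge Φ c a e t = (c e t).swap := by
  rw [turnEdge_pos ((edge_mem_iff hE hT.closed hT.closed'
    (left_mem_Icc.2 (hE.lt e).le) ht).2 h)]

theorem edges_turn (hS : Strict D) (hT : Turnable D Φ) (hE : Edges c a b D)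
    (hreg : ∀ e, ∀ t ∈ Icc (a e) (b e), deriv (fun s => (c e s).2) t ≠ 0) :
    Edges (turnEdge Φ c a) a b (turn D Φ) := by
  have hI : ∀ e, ∀ t ∈ Ioo (a e) (b e), t ∈ Icc (a e) (b e) := fun e t ht => ⟨ht.1.le, ht.2.le⟩
  have ha : ∀ e, a e ∈ Icc (a e) (b e) := fun e => left_mem_Icc.2 (hE.lt e).le
  have hb : ∀ e, b e ∈ Icc (a e) (b e) := fun e => right_mem_Icc.2 (hE.lt e).le
  -- points not met by the open turned edges
  have hno1 : ∀ p : Plane × Plane, p ∉ Φ →
      (∀ e, ∀ t ∈ Ioo (a e) (b e), turnEdge Φ c a e t ≠ p) →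
      ∀ e, ∀ t ∈ Ioo (a e) (b e), c e t ≠ p := by
    intro p hp h e t ht h1
    exact h e t ht ((turnEdge_out hT hE (hI e t ht) (by rwa [h1])).trans h1)
  have hno2 : ∀ p : Plane × Plane, p.swap ∈ Φ →
      (∀ e, ∀ t ∈ Ioo (a e) (b e), turnEdge Φ c a e t ≠ p) →
      ∀ e, ∀ t ∈ Ioo (a e) (b e), c e t ≠ p.swap := by
    intro p hp h e t ht h1
    refine h e t ht ((turnEdge_in hT hE (hI e t ht) (by rwa [h1])).trans ?_)
    rw [h1, Prod.swap_swap]
  refine ⟨hE.lt, ?_, ?_, ?_, ?_, ?_, ?_, ?_, ?_, ?_⟩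
  · intro e
    by_cases h : c e (a e) ∈ Φ
    · rw [turnEdge_pos h]
      exact (hE.smooth e).snd.prodMk (hE.smooth e).fst
    · rw [turnEdge_neg h]
      exact hE.smooth e
  · intro e t ht
    by_cases h : c e (a e) ∈ Φ
    · rw [turnEdge_pos h]
      exact hreg e t ht
    · rw [turnEdge_neg h]
      exact hE.regular e t ht
  · intro e t ht
    by_cases h : c e t ∈ Φ
    · rw [turnEdge_in hT hE ht h]
      exact Or.inr (by rwa [Prod.swap_swap])
    · rw [turnEdge_out hT hE ht h]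
      exact Or.inl ⟨hE.mem e t ht, h⟩
  · intro e t ht
    by_cases h : c e t ∈ Φ
    · rw [turnEdge_in hT hE (hI e t ht) h, vertices_turn_swap hS hT (by rwa [Prod.swap_swap]),
        Prod.swap_swap]
      exact hE.inner e t ht
    · rw [turnEdge_out hT hE (hI e t ht) h, vertices_turn hS hT (hE.mem e t (hI e t ht)) h]
      exact hE.inner e t ht
  · intro e e' t ht t' ht' h
    exact hE.once e e' t ht t' ht' (turn_eq hS hE (hI e t ht) ht' h)
  · rintro p (⟨hp, hp'⟩ | hp)
    · obtain ⟨e, t, ht, h⟩ := hE.cover p hp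
      exact ⟨e, t, ht, (turnEdge_out hT hE ht (by rwa [h])).trans h⟩
    · obtain ⟨e, t, ht, h⟩ := hE.cover p.swap (hT.sub hp)
      refine ⟨e, t, ht, (turnEdge_in hT hE ht (by rwa [h])).trans ?_⟩
      rw [h, Prod.swap_swap]
  · intro e e' h
    exact hE.start e e' (turn_eq hS hE (ha e) (ha e') h)
  · rintro p (⟨hp, hp'⟩ | hp) hp1 hno
    · obtain ⟨e, h⟩ := hE.out p hp hp1 (hno1 p hp' hno)
      exact ⟨e, (turnEdge_out hT hE (ha e) (by rwa [h])).trans h⟩
    · obtain ⟨e, h⟩ := hE.out p.swap (hT.sub hp) (hT.inside _ hp) (hno2 p hp hno)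
      refine ⟨e, (turnEdge_in hT hE (ha e) (by rwa [h])).trans ?_⟩
      rw [h, Prod.swap_swap]
  · rintro p (⟨hp, hp'⟩ | hp) hp1 hno
    · obtain ⟨e, h⟩ := hE.into p hp hp1 (hno1 p hp' hno)
      exact ⟨e, (turnEdge_out hT hE (hb e) (by rwa [h])).trans h⟩
    · obtain ⟨e, h⟩ := hE.into p.swap (hT.sub hp) (hT.inside _ hp) (hno2 p hp hno)
      refine ⟨e, (turnEdge_in hT hE (hb e) (by rwa [h])).trans ?_⟩
      rw [h, Prod.swap_swap]

open Classical in
theorem isCyc_turn [Fintype κ] (n : κ → ℝ) :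
    IsCyc (turnEdge Φ c a) a b n ↔
      IsCyc c a b (fun e => if c e (a e) ∈ Φ then - n e else n e) := by
  unfold IsCyc
  refine forall_congr' fun ψ => ?_
  have h : ∀ e, n e * bdry (turnEdge Φ c a) a b e ψ =
      (if c e (a e) ∈ Φ then - n e else n e) * bdry c a b e ψ := by
    intro e
    by_cases h1 : c e (a e) ∈ Φ
    · rw [if_pos h1]
      unfold bdry
      rw [turnEdge_pos h1]
      simp only [Prod.fst_swap, Prod.snd_swap]
      ring
    · rw [if_neg h1]
      unfold bdry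
      rw [turnEdge_neg h1]
  rw [Finset.sum_congr rfl fun e _ => h e]

end

/-- The lower curve of an edge is regular, too. -/
theorem Edges.regular_snd {F : Plane → EuclideanSpace ℝ (Fin 4)} (hF : IsSliceDisc F)
    (h : Tame F) {κ : Type} {c : κ → ℝ → Plane × Plane} {a b : κ → ℝ}
    (hE : Edges c a b (DoubleSet F)) :
    ∀ e, ∀ t ∈ Icc (a e) (b e), deriv (fun s => (c e s).2) t ≠ 0 := by
  intro e t ht h0
  have hsh : ContDiff ℝ ∞ (shadow F) := by
    have hcd : ∀ i : Fin 4, ContDiff ℝ ∞ (fun x => F x i) := (contDiff_euclidean.1 hF.smooth)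
    refine contDiff_euclidean.2 fun i => ?_
    fin_cases i
    · exact hcd 0
    · exact hcd 1
    · exact hcd 2
  have hsd : ∀ x, HasFDerivAt (shadow F) (fderiv ℝ (shadow F) x) x := fun x =>
    (hsh.differentiable (by simp) x).hasFDerivAt
  have hc : Differentiable ℝ (c e) := (hE.smooth e).differentiable (by simp)
  have h1 : HasDerivAt (fun s => (c e s).1) (deriv (fun s => (c e s).1) t) t :=
    (hc.fst t).hasDerivAt
  have h2 : HasDerivAt (fun s => (c e s).2) (deriv (fun s => (c e s).2) t) t :=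
    (hc.snd t).hasDerivAt
  have h3 : HasDerivWithinAt (fun s => shadow F (c e s).1)
      (fderiv ℝ (shadow F) (c e t).1 (deriv (fun s => (c e s).1) t)) (Icc (a e) (b e)) t :=
    HasDerivAt.hasDerivWithinAt (HasFDerivAt.comp_hasDerivAt (f := fun s => (c e s).1) t
      (hsd (c e t).1) h1)
  have h4 : HasDerivWithinAt (fun s => shadow F (c e s).2)
      (fderiv ℝ (shadow F) (c e t).2 (deriv (fun s => (c e s).2) t)) (Icc (a e) (b e)) t :=
    HasDerivAt.hasDerivWithinAt (HasFDerivAt.comp_hasDerivAt (f := fun s => (c e s).2) t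
      (hsd (c e t).2) h2)
  have h5 : HasDerivWithinAt (fun s => shadow F (c e s).1)
      (fderiv ℝ (shadow F) (c e t).2 (deriv (fun s => (c e s).2) t)) (Icc (a e) (b e)) t :=
    h4.congr (fun s hs => (hE.mem e s hs).2.2.1) (hE.mem e t ht).2.2.1
  have h6 := (uniqueDiffOn_Icc (hE.lt e) t ht).eq_deriv _ h3 h5
  rw [h0, map_zero] at h6
  exact hE.regular e t ht (h.immersion _ (hE.mem e t ht).1 _ h6)

end Pool.Agent.Lib_MP_752436_ch
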