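import Pool.Agent.Lib_MP_752436_ch.Jump
import Pool.Agent.Lib_MP_752436_ch.Vertices

/-!
Piece D3: a cycle of double curves is determined by the potential.
-/

open MeasureTheory Metric Set Filter
open scoped ContDiff Topology

namespace Pool.Agent.Lib_MP_752436_ch

open Pool.Agent.Lib_MP_752436_gt Pool.Agent.Lib_MP_752436_tp Pool.Agent.Lib_MP_752436_rb

variable {F : Plane → EuclideanSpace ℝ (Fin 4)} {κ : Type} [Fintype κ]
  {c : κ → ℝ → Plane × Plane} {a b : κ → ℝ}

/-- The chain of the upper paths with weights `n` and the lower paths with weights `- n`. -/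
def chain (c : κ → ℝ → Plane × Plane) (a b : κ → ℝ) (n : κ → ℝ) : PChain (κ ⊕ κ) where
  m := Sum.elim n fun e => - n e
  γ := Sum.elim (fun e t => (c e t).1) fun e t => (c e t).2
  a := Sum.elim a a
  b := Sum.elim b b

/-- The integral over the chain as a sum over the edges. -/
private theorem Vanish_int (n : κ → ℝ) {E : Type*} [NormedAddCommGroup E] [NormedSpace ℝ E]
    (θ : Plane → Plane →L[ℝ] E) :
    (chain c a b n).int θ = ∑ e, n e • ((∫ t in (a e)..(b e), θ (c e t).1
        (deriv (fun s => (c e s).1) t)) -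
      ∫ t in (a e)..(b e), θ (c e t).2 (deriv (fun s => (c e s).2) t)) := by
  unfold PChain.int
  rw [Fintype.sum_sum_type, ← Finset.sum_add_distrib]
  refine Finset.sum_congr rfl fun e _ => ?_
  show n e • (∫ t in (a e)..(b e), θ (c e t).1 (deriv (fun s => (c e s).1) t)) +
    (- n e) • (∫ t in (a e)..(b e), θ (c e t).2 (deriv (fun s => (c e s).2) t)) = _
  rw [smul_sub, neg_smul, sub_eq_add_neg]

private theorem Vanish_wnd_add (n n' : κ → ℝ) (p : Plane) :
    (chain c a b (n + n')).wnd p = (chain c a b n).wnd p + (chain c a b n').wnd p := by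
  unfold PChain.wnd
  rw [Vanish_int, Vanish_int, Vanish_int, ← add_div, ← Complex.add_im, ← Finset.sum_add_distrib]
  congr 2
  refine Finset.sum_congr rfl fun e _ => ?_
  rw [Pi.add_apply, add_smul]

private theorem Vanish_wnd_smul (n : κ → ℝ) (r : ℝ) (p : Plane) :
    (chain c a b (r • n)).wnd p = r * (chain c a b n).wnd p := by
  unfold PChain.wnd
  rw [Vanish_int, Vanish_int, ← mul_div_assoc, ← smul_eq_mul r, ← Complex.smul_im,
    Finset.smul_sum]
  congr 2
  refine Finset.sum_congr rfl fun e _ => ?_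
  rw [Pi.smul_apply, smul_eq_mul, mul_smul]

private theorem Vanish_deriv {f : Plane → Space} (hf : ContDiff ℝ ∞ f) {γ : ℝ → Plane}
    (hγ : ContDiff ℝ 1 γ) (t : ℝ) :
    HasDerivAt (fun s => f (γ s)) (fderiv ℝ f (γ t) (deriv γ t)) t :=
  HasFDerivAt.comp_hasDerivAt t ((hf.differentiable (by simp)) (γ t)).hasFDerivAt
    ((hγ.differentiable one_ne_zero) t).hasDerivAt

theorem setting_chain (hF : IsSliceDisc F) (hE : Edges c a b (DoubleSet F)) {n : κ → ℝ}
    (hn : IsCyc c a b n) : Setting (shadow F) (chain c a b n) where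
  smooth := od_contDiff_shadow hF
  cycle := by
    refine ⟨?_, ?_, ?_⟩
    · rintro (e | e)
      · exact (hE.smooth e).fst
      · exact (hE.smooth e).snd
    · rintro (e | e)
      · exact (hE.lt e).le
      · exact (hE.lt e).le
    · intro ψ
      rw [Fintype.sum_sum_type, ← Finset.sum_add_distrib, ← hn ψ]
      refine Finset.sum_congr rfl fun e _ => ?_
      show n e * (ψ (c e (b e)).1 - ψ (c e (a e)).1) +
        (- n e) * (ψ (c e (b e)).2 - ψ (c e (a e)).2) = n e * bdry c a b e ψ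
      unfold bdry
      ring
  sub := by
    refine iUnion_subset ?_
    rintro (e | e)
    · rintro _ ⟨t, ht, rfl⟩
      exact (hE.mem e t ht).1
    · rintro _ ⟨t, ht, rfl⟩
      exact (hE.mem e t ht).2.1
  pull := by
    intro A _
    rw [Vanish_int]
    refine Finset.sum_eq_zero fun e _ => ?_
    rw [smul_eq_zero, sub_eq_zero]
    refine Or.inr ?_
    rw [intervalIntegral.integral_of_le (hE.lt e).le, intervalIntegral.integral_of_le (hE.lt e).le,
      integral_Ioc_eq_integral_Ioo, integral_Ioc_eq_integral_Ioo]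
    refine setIntegral_congr_fun measurableSet_Ioo fun t ht => ?_
    have hsh : ∀ s ∈ Icc (a e) (b e), shadow F (c e s).1 = shadow F (c e s).2 :=
      fun s hs => (hE.mem e s hs).2.2.1
    have h1 := Vanish_deriv (od_contDiff_shadow hF) (hE.smooth e).fst t
    have h2 := Vanish_deriv (od_contDiff_shadow hF) (hE.smooth e).snd t
    have h3 : (fun s => shadow F (c e s).1) =ᶠ[𝓝 t] fun s => shadow F (c e s).2 := by
      filter_upwards [Icc_mem_nhds ht.1 ht.2] with s hs
      exact hsh s hs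
    have h4 := h1.unique (h2.congr_of_eventuallyEq h3)
    show pull1 (shadow F) A (c e t).1 (deriv (fun s => (c e s).1) t) =
      pull1 (shadow F) A (c e t).2 (deriv (fun s => (c e s).2) t)
    unfold pull1
    show innerSL ℝ (A (shadow F (c e t).1)) (fderiv ℝ (shadow F) (c e t).1
        (deriv (fun s => (c e s).1) t)) =
      innerSL ℝ (A (shadow F (c e t).2)) (fderiv ℝ (shadow F) (c e t).2
        (deriv (fun s => (c e s).2) t))
    rw [hsh t (Ioo_subset_Icc_self ht)]
    exact congrArg _ h4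

/-- The flux is linear in the weights. -/
theorem flux_chain_add (hF : IsSliceDisc F) (hE : Edges c a b (DoubleSet F)) {n n' : κ → ℝ}
    (hn : IsCyc c a b n) (hn' : IsCyc c a b n') {V : Space → Space}
    (hV : ∀ y ∈ closedBall (0 : Plane) 1, ContinuousAt V (shadow F y)) :
    (chain c a b (n + n')).flux (shadow F) V =
      (chain c a b n).flux (shadow F) V + (chain c a b n').flux (shadow F) V := by
  unfold PChain.flux
  rw [← integral_add ((setting_chain hF hE hn).integrableOn_flux hV)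
    ((setting_chain hF hE hn').integrableOn_flux hV)]
  refine integral_congr_ae (Eventually.of_forall fun y => ?_)
  show (chain c a b (n + n')).wnd y * _ = (chain c a b n).wnd y * _ + (chain c a b n').wnd y * _
  rw [Vanish_wnd_add, add_mul]

theorem flux_chain_smul (n : κ → ℝ) (r : ℝ) (V : Space → Space) :
    (chain c a b (r • n)).flux (shadow F) V = r * (chain c a b n).flux (shadow F) V := by
  unfold PChain.flux
  rw [← integral_const_mul]
  refine integral_congr_ae (Eventually.of_forall fun y => ?_)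
  show (chain c a b (r • n)).wnd y * _ = r * ((chain c a b n).wnd y * _)
  rw [Vanish_wnd_smul, mul_assoc]

omit [Fintype κ] in
/-- Points off the curves are simple. -/
private theorem Vanish_simple (hF : IsSliceDisc F) (hE : Edges c a b (DoubleSet F)) (n : κ → ℝ)
    {q : Plane} (hq : q ∈ closedBall (0 : Plane) 1) (hs : q ∉ (chain c a b n).supp) :
    ∀ y ∈ closedBall (0 : Plane) 1, shadow F y = shadow F q → y = q := by
  intro y hy hyq
  by_contra hne
  rcases ve_total hF hy hq hne hyq with h | h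
  · obtain ⟨e, t, ht, he⟩ := hE.cover _ h
    refine hs (mem_iUnion.mpr ⟨Sum.inr e, t, ht, ?_⟩)
    show (c e t).2 = q
    rw [he]
  · obtain ⟨e, t, ht, he⟩ := hE.cover _ h
    refine hs (mem_iUnion.mpr ⟨Sum.inl e, t, ht, ?_⟩)
    show (c e t).1 = q
    rw [he]

/-- The integrals of all forms vanish. -/
private theorem Vanish_int_zero (hF : IsSliceDisc F) (h : Tame F) (hE : Edges c a b (DoubleSet F))
    {n : κ → ℝ} (hn : IsCyc c a b n)
    (h0 : ∀ p ∉ shadow F '' closedBall (0 : Plane) 1,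
      (chain c a b n).flux (shadow F) (newt p) = 0) {θ : Plane → Plane →L[ℝ] ℝ}
    (hθ : ContDiff ℝ 1 θ) (hc : HasCompactSupport θ) : (chain c a b n).int θ = 0 := by
  have hs := setting_chain hF hE hn
  rw [hs.cycle.green hθ hc]
  have h1 : ∀ᵐ y : Plane, y ∉ (chain c a b n).supp :=
    measure_eq_zero_iff_ae_notMem.mp hs.cycle.volume_supp
  have h2 : ∀ᵐ y : Plane, y ∉ sphere (0 : Plane) 1 :=
    measure_eq_zero_iff_ae_notMem.mp (Measure.addHaar_sphere_of_ne_zero _ _ one_ne_zero)
  refine integral_eq_zero_of_ae ?_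
  filter_upwards [h1, h2] with y hy1 hy2
  show (chain c a b n).wnd y * curl2 θ y = 0
  by_cases hb : y ∈ closedBall (0 : Plane) 1
  · have hb' : y ∈ ball (0 : Plane) 1 := by
      refine mem_ball.mpr (lt_of_le_of_ne (mem_closedBall.mp hb) fun h' => hy2 ?_)
      exact mem_sphere.mpr h'
    rw [hs.wnd_eq_zero h0 hb' (Vanish_simple hF hE n hb hy1) (h.injective y hb) hy1, zero_mul]
  · rw [hs.cycle.wnd_outside hs.sub hb, zero_mul]

theorem eq_zero_of_newt (hF : IsSliceDisc F) (h : Tame F) (hE : Edges c a b (DoubleSet F))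
    {n : κ → ℝ} (hn : IsCyc c a b n)
    (h0 : ∀ p ∉ shadow F '' closedBall (0 : Plane) 1,
      (chain c a b n).flux (shadow F) (newt p) = 0) : n = 0 := by
  funext e₀
  by_contra hne
  have hne : n e₀ ≠ 0 := hne
  have hlt := hE.lt e₀
  set t₀ : ℝ := (a e₀ + b e₀) / 2 with ht₀
  have ht1 : a e₀ < t₀ := by rw [ht₀]; linarith
  have ht2 : t₀ < b e₀ := by rw [ht₀]; linarith
  have hIoo : t₀ ∈ Ioo (a e₀) (b e₀) := ⟨ht1, ht2⟩
  have hIcc : t₀ ∈ Icc (a e₀) (b e₀) := Ioo_subset_Icc_self hIoo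
  have hD := hE.mem e₀ t₀ hIcc
  have hv := hE.inner e₀ t₀ hIoo
  set γ : ℝ → Plane := fun s => (c e₀ s).1 with hγ
  have hγs : ContDiff ℝ 1 γ := (hE.smooth e₀).fst
  have hγ' : Continuous (deriv γ) := hγs.continuous_deriv le_rfl
  set x₀ : Plane := (c e₀ t₀).1 with hx₀
  -- no other parameter has the value `x₀`
  have hup : ∀ e, ∀ t ∈ Icc (a e) (b e), (c e t).1 = x₀ → e = e₀ ∧ t = t₀ := by
    intro e t ht he
    have hDe := hE.mem e t ht
    have hyy : (c e t).2 = (c e₀ t₀).2 := by
      by_contra hyy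
      have hsh : shadow F (c e t).2 = shadow F (c e₀ t₀).2 := by
        rw [← hDe.2.2.1, he, hx₀]
        exact hD.2.2.1
      rcases ve_total hF hDe.2.1 hD.2.1 hyy hsh with h1 | h1
      · refine hv ⟨hD, (c e t).2, Or.inr (Or.inr ⟨?_, h1⟩)⟩
        have h2 : ((c e₀ t₀).1, (c e t).2) = c e t := Prod.ext he.symm rfl
        rw [h2]
        exact hDe
      · exact hv ⟨hD, (c e t).2, Or.inl h1⟩
    have h3 : c e₀ t₀ = c e t := Prod.ext he.symm hyy.symm
    obtain ⟨h4, h5⟩ := hE.once e₀ e t₀ hIoo t ht h3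
    exact ⟨h4.symm, h5.symm⟩
  have hlow : ∀ e, ∀ t ∈ Icc (a e) (b e), (c e t).2 ≠ x₀ := by
    intro e t ht he
    refine hv ⟨hD, (c e t).1, Or.inr (Or.inl ?_)⟩
    have h2 : ((c e t).1, (c e₀ t₀).1) = c e t := Prod.ext rfl he.symm
    rw [h2]
    exact hE.mem e t ht
  -- the direction
  have hu : deriv γ t₀ ≠ 0 := hE.regular e₀ t₀ hIcc
  set u : Plane := deriv γ t₀ with hudef
  have hpos : 0 < inner ℝ u (deriv γ t₀) := real_inner_self_pos.mpr hu
  obtain ⟨δ, hδ, hδ'⟩ : ∃ δ > 0, ∀ t, |t - t₀| < δ → 0 < inner ℝ u (deriv γ t) := by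
    have h1 : Continuous fun t => inner ℝ u (deriv γ t) := continuous_const.inner hγ'
    have h2 : ∀ᶠ t in 𝓝 t₀, 0 < inner ℝ u (deriv γ t) :=
      h1.continuousAt.eventually_mem (isOpen_Ioi.mem_nhds hpos)
    obtain ⟨δ, hδ, h3⟩ := Metric.eventually_nhds_iff.mp h2
    exact ⟨δ, hδ, fun t ht => h3 (by rwa [Real.dist_eq])⟩
  -- the rest of the curves
  set K : Set Plane := ((⋃ e, (fun s => (c e s).2) '' Icc (a e) (b e)) ∪
    ⋃ e ∈ {e | e ≠ e₀}, (fun s => (c e s).1) '' Icc (a e) (b e)) ∪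
      γ '' (Icc (a e₀) (b e₀) \ ball t₀ δ) with hK
  have hKc : IsCompact K := by
    refine IsCompact.union (IsCompact.union ?_ ?_) ?_
    · exact isCompact_iUnion fun e => isCompact_Icc.image (hE.smooth e).snd.continuous
    · exact (toFinite _).isCompact_biUnion fun e _ =>
        isCompact_Icc.image (hE.smooth e).fst.continuous
    · exact (isCompact_Icc.diff isOpen_ball).image hγs.continuous
  have hxK : x₀ ∉ K := by
    rintro ((h1 | h1) | h1)
    · obtain ⟨e, t, ht, he⟩ := mem_iUnion.mp h1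
      exact hlow e t ht he
    · obtain ⟨e, he', t, ht, he⟩ := mem_iUnion₂.mp h1
      exact he' (hup e t ht he).1
    · obtain ⟨t, ht, he⟩ := h1
      refine ht.2 ?_
      rw [(hup e₀ t ht.1 he).2]
      exact mem_ball_self hδ
  obtain ⟨r, hr, hrK⟩ := Metric.isOpen_iff.mp hKc.isClosed.isOpen_compl x₀ hxK
  let φ : ContDiffBump x₀ := ⟨r / 2, r, by linarith, by linarith⟩
  have hφ0 : ∀ x ∈ K, φ x = 0 := by
    intro x hx
    refine φ.zero_of_le_dist ?_
    show r ≤ dist x x₀
    by_contra hlt'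
    exact hrK (mem_ball.mpr (not_le.mp hlt')) hx
  have hφ1 : φ x₀ = 1 := φ.one_of_mem_closedBall (mem_closedBall_self (by
    show 0 ≤ r / 2
    linarith))
  set θ : Plane → Plane →L[ℝ] ℝ := fun x => φ x • innerSL ℝ u with hθ
  have hθs : ContDiff ℝ 1 θ := φ.contDiff.smul contDiff_const
  have hθc : HasCompactSupport θ := φ.hasCompactSupport.smul_right
  have hz := Vanish_int_zero hF h hE hn h0 hθs hθc
  rw [Vanish_int] at hz
  have hI2 : ∀ e, ∫ t in (a e)..(b e), θ (c e t).2 (deriv (fun s => (c e s).2) t) = 0 := by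
    intro e
    refine intervalIntegral.integral_zero_ae (Eventually.of_forall fun t ht => ?_)
    rw [uIoc_of_le (hE.lt e).le] at ht
    have h1 : φ (c e t).2 = 0 :=
      hφ0 _ (Or.inl (Or.inl (mem_iUnion.mpr ⟨e, t, Ioc_subset_Icc_self ht, rfl⟩)))
    show (φ (c e t).2 • innerSL ℝ u) _ = 0
    rw [h1, zero_smul]
    rfl
  have hI1 : ∀ e, e ≠ e₀ →
      ∫ t in (a e)..(b e), θ (c e t).1 (deriv (fun s => (c e s).1) t) = 0 := by
    intro e he
    refine intervalIntegral.integral_zero_ae (Eventually.of_forall fun t ht => ?_)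
    rw [uIoc_of_le (hE.lt e).le] at ht
    have h1 : φ (c e t).1 = 0 :=
      hφ0 _ (Or.inl (Or.inr (mem_iUnion₂.mpr ⟨e, he, t, Ioc_subset_Icc_self ht, rfl⟩)))
    show (φ (c e t).1 • innerSL ℝ u) _ = 0
    rw [h1, zero_smul]
    rfl
  have hsum : n e₀ * ∫ t in (a e₀)..(b e₀), θ (γ t) (deriv γ t) = 0 := by
    rw [← hz]
    symm
    rw [Finset.sum_eq_single e₀]
    · rw [hI2, sub_zero, smul_eq_mul]
    · intro e _ he
      rw [hI1 e he, hI2, sub_zero, smul_zero]
    · intro he
      exact absurd (Finset.mem_univ _) he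
  have hcont : Continuous fun t => θ (γ t) (deriv γ t) :=
    (hθs.continuous.comp hγs.continuous).clm_apply hγ'
  have hpos' : 0 < ∫ t in (a e₀)..(b e₀), θ (γ t) (deriv γ t) := by
    refine intervalIntegral.integral_pos hlt hcont.continuousOn ?_ ⟨t₀, hIcc, ?_⟩
    · intro t ht
      show 0 ≤ φ (γ t) * inner ℝ u (deriv γ t)
      by_cases htδ : t ∈ ball t₀ δ
      · refine mul_nonneg φ.nonneg (hδ' t ?_).le
        rw [← Real.dist_eq]
        exact mem_ball.mp htδ
      · rw [hφ0 (γ t) (Or.inr ⟨t, ⟨Ioc_subset_Icc_self ht, htδ⟩, rfl⟩), zero_mul]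
    · show 0 < φ (γ t₀) * inner ℝ u (deriv γ t₀)
      have h1 : φ (γ t₀) = 1 := hφ1
      rw [h1, one_mul]
      exact hpos
  rcases mul_eq_zero.mp hsum with h1 | h1
  · exact hne h1
  · exact hpos'.ne' h1

end Pool.Agent.Lib_MP_752436_ch
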